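import Pool.Agent.W_7742n_h74.CDef

/-! # Existence of the constants -/

set_option autoImplicit false

noncomputable section

open Filter Topology

namespace Pool.Agent.OneN74

open Pool.Agent.OneJ74 (h₁ h₂)

theorem exists_cst {n C : ℕ} (hn : 0 < n) (hC : 0 < C) (d : ℕ) {δ : ℝ} (hδ : 0 < δ) :
    ∃ W : ℕ, Cst n C (W * n ^ (2 * n ^ 2)) ∧
      2 * (C * h₁ n) * (1 + 4 * n ^ 2 * (C * d)) < (W * n ^ (2 * n ^ 2)) ^ 2 ∧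
      2 * n ^ 2 < W ^ 2 ∧ 2 * C / ((W : ℝ) ^ 2 - 2 * (n : ℝ) ^ 2) ≤ δ := by
  obtain ⟨m, hm⟩ := exists_nat_ge (2 * C / δ)
  obtain ⟨W, hW⟩ : ∃ W : ℕ, W = ((n ^ 2 + 1) * (C * h₁ n)) ^ (n ^ 2 + 1) +
    (n ^ 2 * (C * h₁ n)) ^ (n ^ 2) * (2 * (C * h₂ n) + 2 * (C * n ^ 2)) +
    (n * C + n + 1) ^ (n + 1) + 4 * n ^ 2 +
    2 * (C * h₁ n) * (1 + 4 * n ^ 2 * (C * d)) + 2 * n ^ 2 + m + 1 := ⟨_, rfl⟩
  have hn1 : 1 ≤ n ^ (2 * n ^ 2) := Nat.one_le_pow _ _ hn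
  have hWY : W ≤ W * n ^ (2 * n ^ 2) := Nat.le_mul_of_pos_right _ hn1
  have hW1 : 1 ≤ W := by omega
  have hY2 : W ≤ (W * n ^ (2 * n ^ 2)) ^ 2 := by
    refine hWY.trans ?_
    exact Nat.le_self_pow two_ne_zero _
  have hWW : W ≤ W ^ 2 := Nat.le_self_pow two_ne_zero _
  refine ⟨W, ⟨hn, hC, ?_, ?_, ?_, ?_⟩, ?_, ?_, ?_⟩
  · omega
  · omega
  · omega
  · omega
  · omega
  · omega
  · have h1 : (m : ℝ) + 2 * (n : ℝ) ^ 2 + 1 ≤ (W : ℝ) := by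
      have : m + 2 * n ^ 2 + 1 ≤ W := by omega
      exact_mod_cast this
    have h2 : (W : ℝ) ≤ (W : ℝ) ^ 2 := by exact_mod_cast hWW
    have h3 : (m : ℝ) + 1 ≤ (W : ℝ) ^ 2 - 2 * (n : ℝ) ^ 2 := by linarith
    have hm0 : (0 : ℝ) ≤ m := Nat.cast_nonneg _
    rw [div_le_iff₀ (by linarith)]
    rw [div_le_iff₀ hδ] at hm
    nlinarith

end Pool.Agent.OneN74
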