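import Pool.Agent.W_7742n_h74.CUni
import Pool.Agent.W_7742n_h74.CCst
import Pool.Agent.Chebotarev_h15.AppC2

/-! # Families of representations modulo ideals of unbounded norm, bounded mean squares -/

set_option autoImplicit false

noncomputable section

open Filter Topology NumberField

namespace Pool.Agent.OneN74

open Pool.Agent.GalSide Pool.Agent.OneI74

variable {G : Type} [Group G] [TopologicalSpace G] [IsTopologicalGroup G] [CompactSpace G]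

theorem density_of_upLE {X : Set Nat.Primes} (h : ∀ δ : ℝ, 0 < δ → UpLE X δ) :
    HasDensity X 0 := by
  unfold HasDensity
  rw [Metric.tendsto_nhds]
  intro ε hε
  filter_upwards [h (ε / 4) (by positivity) (ε / 4) (by positivity),
    Chb_log.eventually_gt_atTop 0] with s h1 hL
  rw [Real.dist_eq, sub_zero, abs_of_nonneg (div_nonneg (Chb_nonneg _ _) hL.le), div_lt_iff₀ hL]
  nlinarith

theorem UpLE.mono {X : Set Nat.Primes} {δ δ' : ℝ} (h : UpLE X δ) (hδ : δ ≤ δ') : UpLE X δ' := by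
  intro ε hε
  filter_upwards [h ε hε, Chb_log.eventually_gt_atTop 0] with s h1 hL
  exact h1.trans (mul_le_mul_of_nonneg_right (by linarith) hL.le)

theorem family_c (Φ : FrobeniusData G) {K : Type} [Field K] [NumberField K]
    (b : Nat.Primes → 𝓞 K) {n : ℕ} (hn : 0 < n) (s₀ : K →+* ℂ) (M : ℝ)
    (hRS : ∀ σ : K →+* ℂ, ∀ ε : ℝ, 0 < ε → LogBound (M + ε) (fun p => ‖σ (b p : K)‖ ^ 2))
    (hRS0 : ∀ ε : ℝ, 0 < ε → LogBound (1 + ε) (fun p => ‖s₀ (b p : K)‖ ^ 2))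
    {J : Type} (A : J → Type) [∀ j, CommRing (A j)] (ι : ∀ j, 𝓞 K →+* A j)
    (hN : ∀ B : ℕ, ∃ j, B ≤ Ideal.absNorm (RingHom.ker (ι j)))
    (r : ∀ j, G →* Matrix (Fin n) (Fin n) (A j)) (hr : ∀ j, IsOpen ({g | r j g = 1} : Set G))
    (hZ : ∀ j, HasDensity {p | (r j (Φ.frob p)).trace ≠ ι j (b p)} 0) :
    ∃ (U : Subgroup G) (_ : U.Normal) (β : G ⧸ U → 𝓞 K),
      IsOpen (U : Set G) ∧
      HasDensity {p | b p ≠ β (QuotientGroup.mk (Φ.frob p))} 0 ∧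
      (∀ s : K →+* ℂ, ∃ R : G ⧸ U →* Matrix (Fin n) (Fin n) ℂ,
        (∀ x, (R x).trace = s (β x : K)) ∧
        ∀ W : Submodule ℂ (Fin n → ℂ), (∀ g, ∀ w ∈ W, (R g).mulVec w ∈ W) → W = ⊥ ∨ W = ⊤) ∧
      ∃ B₀ : ℕ, ∀ j, B₀ ≤ Ideal.absNorm (RingHom.ker (ι j)) →
        (∀ g, r j g = 1 → β (QuotientGroup.mk g) = n) ∧
        ∃ 𝔟 : Ideal (𝓞 K), Ideal.absNorm (RingHom.ker (ι j)) ≤
          (n ^ (2 * n ^ 2)) ^ Module.finrank ℚ K * Ideal.absNorm 𝔟 ∧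
          ∀ g c, ι j c = (r j g).trace → c - β (QuotientGroup.mk g) ∈ 𝔟 := by
  classical
  obtain ⟨C, hC0, hMC⟩ : ∃ C : ℕ, 0 < C ∧ M ≤ C := by
    obtain ⟨m, hm⟩ := exists_nat_ge M
    refine ⟨m + 1, by omega, ?_⟩
    push_cast
    linarith
  have hRSC : ∀ σ : K →+* ℂ, ∀ ε : ℝ, 0 < ε → LogBound (C + ε) (fun p => ‖σ (b p : K)‖ ^ 2) := by
    intro σ ε hε
    filter_upwards [hRS σ ε hε, Chb_log.eventually_gt_atTop 0] with s h1 hL
    exact ⟨h1.1, h1.2.trans (mul_le_mul_of_nonneg_right (by linarith) hL.le)⟩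
  -- the theorem for every `δ`
  have hmain : ∀ δ : ℝ, 0 < δ → ∃ B₀ : ℕ, ∀ j, B₀ ≤ Ideal.absNorm (RingHom.ker (ι j)) →
      ∃ (𝔟 : Ideal (𝓞 K)) (U : Subgroup G) (_ : U.Normal) (β : G ⧸ U → 𝓞 K),
      Ideal.absNorm (RingHom.ker (ι j)) ≤
        (n ^ (2 * n ^ 2)) ^ Module.finrank ℚ K * Ideal.absNorm 𝔟 ∧
      IsOpen (U : Set G) ∧ (∀ g, r j g = 1 → g ∈ U) ∧
      (∀ g c, ι j c = (r j g).trace → c - β (QuotientGroup.mk g) ∈ 𝔟) ∧
      UpLE {p | b p ≠ β (QuotientGroup.mk (Φ.frob p))} δ ∧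
      ∀ s : K →+* ℂ, ∃ R : G ⧸ U →* Matrix (Fin n) (Fin n) ℂ,
        (∀ x, (R x).trace = s (β x : K)) ∧
        ∀ W : Submodule ℂ (Fin n → ℂ), (∀ g, ∀ w ∈ W, (R g).mulVec w ∈ W) → W = ⊥ ∨ W = ⊤ := by
    intro δ hδ
    obtain ⟨W, hc, hY, hW, hδ'⟩ := exists_cst hn hC0 (Module.finrank ℚ K) hδ
    refine ⟨(W * n ^ (2 * n ^ 2)) ^ Module.finrank ℚ K, fun j hj => ?_⟩
    obtain ⟨𝔟, U, hU, β, h1, h2, h3, h4, h5, h6⟩ :=
      main_c Φ b s₀ hc hY rfl hW hRSC hRS0 (ι j) hj (r j) (hr j) (hZ j)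
    exact ⟨𝔟, U, hU, β, h1, h2, h3, h4, h5.mono hδ', h6⟩
  have hn0 : (0 : ℝ) < n := by exact_mod_cast hn
  obtain ⟨δ₁, hδ₁⟩ : ∃ δ₁ : ℝ, δ₁ = 1 / (8 * (n : ℝ) ^ 2) := ⟨_, rfl⟩
  have hδ0 : 0 < δ₁ := by rw [hδ₁]; positivity
  have hδ2 : 4 * (n : ℝ) ^ 2 * (δ₁ + δ₁) < 2 := by
    have : 4 * (n : ℝ) ^ 2 * (δ₁ + δ₁) = 1 := by
      rw [hδ₁]
      field_simp
      norm_num
    rw [this]
    norm_num
  obtain ⟨B₁, hB₁⟩ := hmain δ₁ hδ0
  obtain ⟨j₁, hj₁⟩ := hN B₁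
  obtain ⟨𝔟₁, U₁, hU₁, β₁, -, k2, k3, k4, k5, k6⟩ := hB₁ j₁ hj₁
  -- uniqueness
  have huni : ∀ (U : Subgroup G) (_ : U.Normal) (β : G ⧸ U → 𝓞 K), IsOpen (U : Set G) →
      UpLE {p | b p ≠ β (QuotientGroup.mk (Φ.frob p))} δ₁ →
      (∀ s : K →+* ℂ, ∃ R : G ⧸ U →* Matrix (Fin n) (Fin n) ℂ,
        (∀ x, (R x).trace = s (β x : K)) ∧
        ∀ W : Submodule ℂ (Fin n → ℂ), (∀ g, ∀ w ∈ W, (R g).mulVec w ∈ W) → W = ⊥ ∨ W = ⊤) →
      ∀ g : G, β (QuotientGroup.mk g) = β₁ (QuotientGroup.mk g) := by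
    intro U hU β hUo hX hR g
    obtain ⟨R, hR1, hR2⟩ := hR s₀
    obtain ⟨R₁, hR3, hR4⟩ := k6 s₀
    have hinj : Function.Injective fun c : 𝓞 K => s₀ (c : K) :=
      s₀.injective.comp RingOfIntegers.coe_injective
    have e1 : {p : Nat.Primes | s₀ (b p : K) ≠ (R (QuotientGroup.mk (Φ.frob p))).trace} =
        {p | b p ≠ β (QuotientGroup.mk (Φ.frob p))} := by
      ext p
      refine not_congr ?_
      rw [hR1]
      exact ⟨fun h => hinj h, fun h => by rw [h]⟩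
    have e2 : {p : Nat.Primes | s₀ (b p : K) ≠ (R₁ (QuotientGroup.mk (Φ.frob p))).trace} =
        {p | b p ≠ β₁ (QuotientGroup.mk (Φ.frob p))} := by
      ext p
      refine not_congr ?_
      rw [hR3]
      exact ⟨fun h => hinj h, fun h => by rw [h]⟩
    have h1 := unique_c Φ hn hUo k2 R R₁ hR2 hR4 (fun p => s₀ (b p : K)) (δ := δ₁) (δ' := δ₁)
      (by rw [e1]; exact hX) (by rw [e2]; exact k5) hδ2 g
    rw [hR1, hR3] at h1
    exact hinj h1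
  refine ⟨U₁, hU₁, β₁, k2, ?_, k6, B₁, fun j hj => ?_⟩
  · refine density_of_upLE fun δ hδ => ?_
    obtain ⟨B, hB⟩ := hmain (min δ δ₁) (lt_min hδ hδ0)
    obtain ⟨j, hj⟩ := hN B
    obtain ⟨𝔟, U, hU, β, -, l2, -, -, l5, l6⟩ := hB j hj
    have h1 := huni U hU β l2 (l5.mono (min_le_right _ _)) l6
    have h2 : {p | b p ≠ β₁ (QuotientGroup.mk (Φ.frob p))} =
        {p | b p ≠ β (QuotientGroup.mk (Φ.frob p))} := by
      ext p
      refine not_congr ?_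
      rw [h1]
    rw [h2]
    exact l5.mono (min_le_left _ _)
  · obtain ⟨𝔟, U, hU, β, l1, l2, l3, l4, l5, l6⟩ := hB₁ j hj
    have h1 := huni U hU β l2 l5 l6
    refine ⟨fun g hg => ?_, 𝔟, l1, fun g c hc => ?_⟩
    · rw [← h1, (QuotientGroup.eq_one_iff g).2 (l3 g hg)]
      obtain ⟨R, hR1, -⟩ := l6 s₀
      have hinj : Function.Injective fun c : 𝓞 K => s₀ (c : K) :=
        s₀.injective.comp RingOfIntegers.coe_injective
      apply hinj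
      simp only
      have e3 : ((n : 𝓞 K) : K) = (n : K) := map_natCast (algebraMap (𝓞 K) K) n
      rw [← hR1, map_one, Matrix.trace_one, Fintype.card_fin, e3, map_natCast]
    · rw [← h1]
      exact l4 g c hc

end Pool.Agent.OneN74
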