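import Pool.Agent.W_7742e_h15.Irr

/-! # Inner products of characters are natural numbers -/

set_option autoImplicit false

noncomputable section

open ComplexConjugate

namespace Pool.Agent.OneN74

open Pool.Agent.GalSide

/-- The inner product of two characters is a natural number. -/
theorem sum_char {G : Type} [Group G] [Fintype G] {n m : ℕ}
    (ρ : G →* Matrix (Fin n) (Fin n) ℂ) (ρ' : G →* Matrix (Fin m) (Fin m) ℂ) :
    ∃ k : ℕ, ∑ g, conj (ρ g).trace * (ρ' g).trace = (Fintype.card G : ℂ) * k := by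
  classical
  let r : Representation ℂ G (Fin n → ℂ) :=
    (Matrix.toLinAlgEquiv' (R := ℂ) (n := Fin n)).toMonoidHom.comp ρ
  let r' : Representation ℂ G (Fin m → ℂ) :=
    (Matrix.toLinAlgEquiv' (R := ℂ) (n := Fin m)).toMonoidHom.comp ρ'
  have hchar : ∀ g, r.character g = (ρ g).trace := fun g => Matrix.trace_toLin'_eq (ρ g)
  have hchar' : ∀ g, r'.character g = (ρ' g).trace := fun g => Matrix.trace_toLin'_eq (ρ' g)
  have hcard0 : (Nat.card G : ℂ) ≠ 0 := Nat.cast_ne_zero.2 Nat.card_pos.ne'
  let _ : Invertible (Nat.card G : ℂ) := invertibleOfNonzero hcard0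
  have key := Representation.card_inv_mul_sum_char_eq_finrank (Representation.linHom r r')
  refine ⟨Module.finrank ℂ (Representation.linHom r r').invariants, ?_⟩
  have hsum : ∑ g : G, (Representation.linHom r r').character g =
      ∑ g, conj (ρ g).trace * (ρ' g).trace := by
    refine Finset.sum_congr rfl fun g _ => ?_
    rw [Representation.char_linHom, hchar, hchar']
    have h1 : (ρ g⁻¹).trace = star (ρ g).trace := by
      have := irr_trace_inv_eq ρ g⁻¹
      rw [inv_inv] at this
      exact this.symm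
    rw [h1]
    rfl
  rw [hsum, inv_mul_eq_iff_eq_mul₀ hcard0] at key
  rw [key, Nat.card_eq_fintype_card]

/-- The mean square of a character is a natural number. -/
theorem sum_sq {G : Type} [Group G] [Fintype G] {n : ℕ} (ρ : G →* Matrix (Fin n) (Fin n) ℂ) :
    ∃ k : ℕ, ∑ g, ‖(ρ g).trace‖ ^ 2 = (Fintype.card G : ℝ) * k := by
  obtain ⟨k, hk⟩ := sum_char ρ ρ
  refine ⟨k, ?_⟩
  have h1 : ∑ g, conj (ρ g).trace * (ρ g).trace = ((∑ g, ‖(ρ g).trace‖ ^ 2 : ℝ) : ℂ) := by
    rw [Complex.ofReal_sum]
    refine Finset.sum_congr rfl fun g _ => ?_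
    rw [Complex.ofReal_pow]
    exact Complex.conj_mul' _
  rw [h1] at hk
  have h2 : (((Fintype.card G : ℝ) * k : ℝ) : ℂ) = (Fintype.card G : ℂ) * k := by push_cast; rfl
  rw [← h2] at hk
  exact Complex.ofReal_injective hk

end Pool.Agent.OneN74
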