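import Pool.Agent.W_7742n_h74.CSet
import Pool.Agent.W_7742j_h74.JBda

/-! # First properties of `b` (compare `W_7742j_h74/JBda.lean`) -/

set_option autoImplicit false

noncomputable section

namespace Pool.Agent.OneN74

open NumberField Pool.Agent.OneI74
open Pool.Agent.OneJ74 (Q h₁ h₂ S mat Q_nonneg Q_natCast eq_of_Q support sup_bound)

variable {K A Γ : Type} [Field K] [NumberField K] [CommRing A] [Group Γ] [Fintype Γ] {n : ℕ}
  {C Y : ℕ} {s₀ : K →+* ℂ}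
  {ι : 𝓞 K →+* A} {r : Γ →* Matrix (Fin n) (Fin n) A} {f : Γ → 𝓞 K} {ρ : ℕ} {k x : Fin ρ → Γ}
  {b : Γ → K}

/-- The factorization of `σ ∘ b`. -/
theorem BDat2.fac_map (H : BDat2 C Y s₀ ι r f ρ k x b) (σ : K →+* ℂ) (u v : Γ) :
    σ (b (u * v)) = ∑ i, (∑ j, σ (b (u * x j)) * σ ((mat f k x)⁻¹ j i)) * σ (b (k i * v)) := by
  rw [H.hfac u v, map_sum]
  refine Finset.sum_congr rfl fun i _ => ?_
  rw [map_sum, Finset.sum_mul]
  refine Finset.sum_congr rfl fun j _ => ?_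
  rw [map_mul, map_mul]

theorem BDat2.rho_lt (H : BDat2 C Y s₀ ι r f ρ k x b) : 2 * ρ < h₁ n := by
  have h1 := H.hρ
  unfold h₁
  have h2 : 2 * ρ ≤ 2 * n ^ 2 := Nat.mul_le_mul_left 2 h1
  have h3 : 2 * n ^ 2 * 1 ≤ 2 * n ^ 2 * (n ^ 2 + 1) := Nat.mul_le_mul_left _ (by omega)
  omega

theorem BDat2.comm (H : BDat2 C Y s₀ ι r f ρ k x b) (u v : Γ) : b (u * v) = b (v * u) := by
  classical
  by_contra hne
  obtain ⟨σ⟩ : Nonempty (K →+* ℂ) := inferInstance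
  have hg : σ (b (u * v) - b (v * u)) ≠ 0 := by
    intro h0
    exact hne (sub_eq_zero.1 ((map_eq_zero σ).1 h0))
  have hfac : ∀ u' v' : Γ, σ (b (u' * v' * v) - b (v * (u' * v'))) = ∑ i : Fin (ρ + ρ),
      (Fin.append (fun (i : Fin ρ) (w : Γ) => ∑ j, σ (b (w * x j)) * σ ((mat f k x)⁻¹ j i))
        (fun (i : Fin ρ) (w : Γ) => ∑ j, σ (b (v * w * x j)) * σ ((mat f k x)⁻¹ j i)) i) u' *
      (Fin.append (fun (i : Fin ρ) (w : Γ) => σ (b (k i * (w * v))))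
        (fun (i : Fin ρ) (w : Γ) => - σ (b (k i * w))) i) v' := by
    intro u' v'
    rw [Fin.sum_univ_add]
    simp only [Fin.append_left, Fin.append_right]
    rw [map_sub, mul_assoc u' v' v, H.fac_map σ u' (v' * v), ← mul_assoc v u' v',
      H.fac_map σ (v * u') v', sub_eq_add_neg, ← Finset.sum_neg_distrib]
    congr 1
    refine Finset.sum_congr rfl fun i _ => ?_
    rw [mul_neg]
  have h1 := support (fun w => σ (b (w * v) - b (v * w))) _ _ hfac (g := u) hg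
  have h2 : Nat.card {w : Γ // σ (b (w * v) - b (v * w)) ≠ 0} ≤
      Nat.card {w : Γ // w ∉ S f (C * h₁ n)} := by
    refine Nat.card_le_card_of_injective
      (fun w => (⟨w.1 * v, fun hS => w.2 ?_⟩ : {w : Γ // w ∉ S f (C * h₁ n)})) ?_
    · have hS' : v * w.1 ∈ S f (C * h₁ n) := by
        change Q (f (v * w.1) : K) ≤ _
        rw [← H.set2.hcomm w.1 v]
        exact hS
      rw [H.hb _ hS, H.hb _ hS', H.set2.hcomm w.1 v, sub_self, map_zero]
    · intro w w' hww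
      have h3 : w.1 * v = w'.1 * v := congrArg Subtype.val hww
      exact Subtype.ext (mul_right_cancel h3)
  have h3 := H.set2.card_compl (h₁ n)
  have h4 := H.rho_lt
  have h5 : 0 < Nat.card Γ := Nat.card_pos
  have h6 : Nat.card Γ ≤ (ρ + ρ) * Nat.card {w : Γ // w ∉ S f (C * h₁ n)} :=
    h1.trans (Nat.mul_le_mul_left _ h2)
  have h7 : 0 < Nat.card {w : Γ // w ∉ S f (C * h₁ n)} := by
    rcases Nat.eq_zero_or_pos (Nat.card {w : Γ // w ∉ S f (C * h₁ n)}) with h0 | h0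
    · rw [h0, mul_zero] at h6
      omega
    · exact h0
  have h8 : (ρ + ρ) * Nat.card {w : Γ // w ∉ S f (C * h₁ n)} <
      h₁ n * Nat.card {w : Γ // w ∉ S f (C * h₁ n)} :=
    Nat.mul_lt_mul_of_pos_right (by omega) h7
  omega

theorem BDat2.sup (H : BDat2 C Y s₀ ι r f ρ k x b) (σ : K →+* ℂ) (g : Γ) :
    ‖σ (b g)‖ ^ 2 * Fintype.card Γ ≤ ρ * ∑ y, ‖σ (b y)‖ ^ 2 :=
  sup_bound (fun w => σ (b w)) _ _ (fun u v => H.fac_map σ u v) g

theorem BDat2.Q_le (H : BDat2 C Y s₀ ι r f ρ k x b) (g : Γ) :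
    Q (b g) * Fintype.card Γ ≤ ρ * ∑ y, Q (b y) := by
  unfold Q
  rw [Finset.sum_comm, Finset.sum_mul, Finset.mul_sum]
  exact Finset.sum_le_sum fun σ _ => H.sup σ g

theorem BDat2.total (H : BDat2 C Y s₀ ι r f ρ k x b) :
    ∑ y, Q (b y) ≤ C * Module.finrank ℚ K * Fintype.card Γ := by
  classical
  have hd0 : (0 : ℝ) < Module.finrank ℚ K := Nat.cast_pos.2 Module.finrank_pos
  have hC : (0 : ℝ) < C := Nat.cast_pos.2 H.set2.cst.hC
  have hd : (0 : ℝ) < C * Module.finrank ℚ K := mul_pos hC hd0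
  have hN : (0 : ℝ) < Fintype.card Γ := Nat.cast_pos.2 Fintype.card_pos
  have hen := H.set2.energy_le (C * h₁ n)
  have hcc : ((h₁ n : ℕ) : ℝ) * (Nat.card {x // x ∉ S f (C * h₁ n)} : ℝ) ≤ Fintype.card Γ := by
    have h1 := H.set2.card_compl (h₁ n)
    rw [Nat.card_eq_fintype_card (α := Γ)] at h1
    exact_mod_cast h1
  have hsplit : ∑ y, Q (b y) = ∑ y, (if y ∈ S f (C * h₁ n) then Q (f y : K) else 0) +
      ∑ y, (if y ∈ S f (C * h₁ n) then 0 else Q (b y)) := by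
    rw [← Finset.sum_add_distrib]
    refine Finset.sum_congr rfl fun y _ => ?_
    by_cases hy : y ∈ S f (C * h₁ n)
    · rw [if_pos hy, if_pos hy, add_zero, H.hb y hy]
    · rw [if_neg hy, if_neg hy, zero_add]
  have hout : (∑ y, (if y ∈ S f (C * h₁ n) then 0 else Q (b y))) * Fintype.card Γ ≤
      (Nat.card {x // x ∉ S f (C * h₁ n)} : ℝ) * (ρ * ∑ y, Q (b y)) := by
    have h1 : (Nat.card {x // x ∉ S f (C * h₁ n)} : ℝ) * (ρ * ∑ y, Q (b y)) =
        ∑ y, (if y ∈ S f (C * h₁ n) then 0 else ρ * ∑ y, Q (b y)) := by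
      have h2 : ∀ y, (if y ∈ S f (C * h₁ n) then (0 : ℝ) else ρ * ∑ y, Q (b y)) =
          if y ∉ S f (C * h₁ n) then ρ * ∑ y, Q (b y) else 0 := fun y => by
        by_cases hy : y ∈ S f (C * h₁ n)
        · rw [if_pos hy, if_neg (not_not.2 hy)]
        · rw [if_neg hy, if_pos hy]
      simp only [h2]
      rw [← Finset.sum_filter, Finset.sum_const, nsmul_eq_mul, Nat.card_eq_fintype_card,
        Fintype.card_subtype]
    rw [h1, Finset.sum_mul]
    refine Finset.sum_le_sum fun y _ => ?_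
    by_cases hy : y ∈ S f (C * h₁ n)
    · rw [if_pos hy, if_pos hy, zero_mul]
    · rw [if_neg hy, if_neg hy]
      exact H.Q_le y
  have hlt : (ρ : ℝ) + 1 ≤ ((h₁ n : ℕ) : ℝ) := by
    have h1 := H.rho_lt
    exact_mod_cast (by omega : ρ + 1 ≤ h₁ n)
  have hm0 : (0 : ℝ) ≤ (Nat.card {x // x ∉ S f (C * h₁ n)} : ℝ) := Nat.cast_nonneg _
  push_cast at hen
  have hen' : ∑ x, (if x ∈ S f (C * h₁ n) then Q (f x : K) else 0) +
      (C * Module.finrank ℚ K : ℝ) * (h₁ n : ℝ) * Nat.card {x // x ∉ S f (C * h₁ n)} ≤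
      (C * Module.finrank ℚ K : ℝ) * Fintype.card Γ := by
    refine le_trans (le_of_eq ?_) hen
    ring
  clear hen
  generalize (Nat.card {x // x ∉ S f (C * h₁ n)} : ℝ) = m at hen' hcc hout hm0
  generalize ((h₁ n : ℕ) : ℝ) = h at hen' hcc hlt
  generalize ∑ y, (if y ∈ S f (C * h₁ n) then Q (f y : K) else 0) = A at hen' hsplit
  generalize ∑ y, (if y ∈ S f (C * h₁ n) then 0 else Q (b y)) = B at hout hsplit
  generalize ∑ y, Q (b y) = E at hsplit hout ⊢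
  generalize (Fintype.card Γ : ℝ) = N at *
  generalize (C * Module.finrank ℚ K : ℝ) = d at *
  by_contra hcon
  have hE : d * N < E := not_le.1 hcon
  have h1 : E * N ≤ (d * N - d * h * m) * N + m * (ρ * E) := by
    have h2 : A * N ≤ (d * N - d * h * m) * N := mul_le_mul_of_nonneg_right (by linarith) hN.le
    rw [hsplit, add_mul]
    rw [hsplit] at hout
    linarith
  have h3 : E * (N - ρ * m) ≤ d * N * (N - h * m) := by nlinarith
  have h4 : 0 < N - ρ * m := by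
    rcases hm0.eq_or_lt with h0 | h0
    · rw [← h0]
      linarith
    · nlinarith
  have h5 : d * N * (N - h * m) ≤ d * N * (N - ρ * m) :=
    mul_le_mul_of_nonneg_left (by nlinarith) (mul_pos hd hN).le
  have h6 : d * N * (N - ρ * m) < E * (N - ρ * m) := mul_lt_mul_of_pos_right hE h4
  linarith

/-- The mean square at `s₀`. -/
theorem BDat2.total0 (H : BDat2 C Y s₀ ι r f ρ k x b) :
    (∑ y, ‖s₀ (b y)‖ ^ 2) * (h₁ n - ρ) ≤
      (1 + 1 / (4 * (n : ℝ) ^ 2)) * Fintype.card Γ * h₁ n := by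
  classical
  have hN : (0 : ℝ) < Fintype.card Γ := Nat.cast_pos.2 Fintype.card_pos
  have hen := H.set2.hE0 (fun y => if y ∈ S f (C * h₁ n) then ‖s₀ (f y : K)‖ ^ 2 else 0)
    (fun y => by
      split_ifs
      · exact le_rfl
      · positivity)
    (fun y hy => by
      rw [if_neg hy])
  have hcc : ((h₁ n : ℕ) : ℝ) * (Nat.card {x // x ∉ S f (C * h₁ n)} : ℝ) ≤ Fintype.card Γ := by
    have h1 := H.set2.card_compl (h₁ n)
    rw [Nat.card_eq_fintype_card (α := Γ)] at h1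
    exact_mod_cast h1
  have hsplit : ∑ y, ‖s₀ (b y)‖ ^ 2 =
      ∑ y, (if y ∈ S f (C * h₁ n) then ‖s₀ (f y : K)‖ ^ 2 else 0) +
      ∑ y, (if y ∈ S f (C * h₁ n) then 0 else ‖s₀ (b y)‖ ^ 2) := by
    rw [← Finset.sum_add_distrib]
    refine Finset.sum_congr rfl fun y _ => ?_
    by_cases hy : y ∈ S f (C * h₁ n)
    · rw [if_pos hy, if_pos hy, add_zero, H.hb y hy]
    · rw [if_neg hy, if_neg hy, zero_add]
  have hout : (∑ y, (if y ∈ S f (C * h₁ n) then 0 else ‖s₀ (b y)‖ ^ 2)) * Fintype.card Γ ≤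
      (Nat.card {x // x ∉ S f (C * h₁ n)} : ℝ) * (ρ * ∑ y, ‖s₀ (b y)‖ ^ 2) := by
    have h1 : (Nat.card {x // x ∉ S f (C * h₁ n)} : ℝ) * (ρ * ∑ y, ‖s₀ (b y)‖ ^ 2) =
        ∑ y, (if y ∈ S f (C * h₁ n) then 0 else ρ * ∑ y, ‖s₀ (b y)‖ ^ 2) := by
      have h2 : ∀ y, (if y ∈ S f (C * h₁ n) then (0 : ℝ) else ρ * ∑ y, ‖s₀ (b y)‖ ^ 2) =
          if y ∉ S f (C * h₁ n) then ρ * ∑ y, ‖s₀ (b y)‖ ^ 2 else 0 := fun y => by
        by_cases hy : y ∈ S f (C * h₁ n)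
        · rw [if_pos hy, if_neg (not_not.2 hy)]
        · rw [if_neg hy, if_pos hy]
      simp only [h2]
      rw [← Finset.sum_filter, Finset.sum_const, nsmul_eq_mul, Nat.card_eq_fintype_card,
        Fintype.card_subtype]
    rw [h1, Finset.sum_mul]
    refine Finset.sum_le_sum fun y _ => ?_
    by_cases hy : y ∈ S f (C * h₁ n)
    · rw [if_pos hy, if_pos hy, zero_mul]
    · rw [if_neg hy, if_neg hy]
      exact H.sup s₀ y
  have hh : (0 : ℝ) < ((h₁ n : ℕ) : ℝ) := by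
    have h1 := H.rho_lt
    exact_mod_cast (by omega : 0 < h₁ n)
  have hm0 : (0 : ℝ) ≤ (Nat.card {x // x ∉ S f (C * h₁ n)} : ℝ) := Nat.cast_nonneg _
  have hE0 : (0 : ℝ) ≤ ∑ y, ‖s₀ (b y)‖ ^ 2 := Finset.sum_nonneg fun _ _ => sq_nonneg _
  have hρ0 : (0 : ℝ) ≤ ρ := Nat.cast_nonneg _
  generalize (Nat.card {x // x ∉ S f (C * h₁ n)} : ℝ) = m at hcc hout hm0
  generalize ((h₁ n : ℕ) : ℝ) = h at hcc hh ⊢
  generalize ∑ y, (if y ∈ S f (C * h₁ n) then ‖s₀ (f y : K)‖ ^ 2 else 0) = A at hen hsplit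
  generalize ∑ y, (if y ∈ S f (C * h₁ n) then 0 else ‖s₀ (b y)‖ ^ 2) = B at hout hsplit
  generalize ∑ y, ‖s₀ (b y)‖ ^ 2 = E at hsplit hout hE0 ⊢
  generalize (1 + 1 / (4 * (n : ℝ) ^ 2)) = δ at *
  generalize (Fintype.card Γ : ℝ) = N at *
  generalize (ρ : ℝ) = t at *
  -- `B h ≤ t E`
  have h1 : B * h ≤ t * E := by
    have h2 : (B * h) * N ≤ (t * E) * N := by
      calc (B * h) * N = (B * N) * h := by ring
        _ ≤ (m * (t * E)) * h := mul_le_mul_of_nonneg_right hout hh.le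
        _ = (h * m) * (t * E) := by ring
        _ ≤ N * (t * E) := mul_le_mul_of_nonneg_right hcc (mul_nonneg hρ0 hE0)
        _ = (t * E) * N := by ring
    exact le_of_mul_le_mul_right h2 hN
  have h3 : A * h ≤ δ * N * h := mul_le_mul_of_nonneg_right hen hh.le
  nlinarith

theorem BDat2.f_one (H : BDat2 C Y s₀ ι r f ρ k x b) :
    f 1 = n ∧ (1 : Γ) ∈ S f (C * h₁ n) := by
  have hd : (0 : ℝ) < Module.finrank ℚ K := Nat.cast_pos.2 Module.finrank_pos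
  have htr : ι (n : 𝓞 K) = (r 1).trace := by
    rw [map_natCast, map_one, Matrix.trace_one, Fintype.card_fin]
  have hQn : Q ((n : 𝓞 K) : K) = Module.finrank ℚ K * (n : ℝ) ^ 2 := by
    have h1 : ((n : 𝓞 K) : K) = (n : K) := map_natCast (algebraMap (𝓞 K) K) n
    rw [h1, Q_natCast]
  have hle : Q (f 1 : K) ≤ Module.finrank ℚ K * (n : ℝ) ^ 2 := by
    rw [← hQn]
    exact H.set2.hmin 1 n htr
  have h5 : (4 : ℝ) * (n : ℝ) ^ 2 < (Y : ℝ) ^ 2 := by
    have h6 := H.set2.cst.i4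
    exact_mod_cast h6
  refine ⟨eq_of_Q (RingHom.ker ι) H.set2.hN (y := (n : 𝓞 K)) ?_ ?_, ?_⟩
  · rw [RingHom.mem_ker, map_sub, H.set2.hf, htr, sub_self]
  · rw [hQn]
    nlinarith
  · change Q (f 1 : K) ≤ Module.finrank ℚ K * ((C * h₁ n : ℕ) : ℝ)
    refine hle.trans (mul_le_mul_of_nonneg_left ?_ hd.le)
    have h7 : n ^ 2 ≤ C * h₁ n := by
      have h8 : n ^ 2 ≤ h₁ n := by
        unfold h₁
        have h3 : 2 * n ^ 2 * 1 ≤ 2 * n ^ 2 * (n ^ 2 + 1) := Nat.mul_le_mul_left _ (by omega)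
        omega
      exact h8.trans (Nat.le_mul_of_pos_left _ H.set2.cst.hC)
    exact_mod_cast h7

theorem BDat2.b_one (H : BDat2 C Y s₀ ι r f ρ k x b) : b 1 = n := by
  rw [H.hb 1 H.f_one.2, H.f_one.1]
  exact map_natCast (algebraMap (𝓞 K) K) n

theorem BDat2.rank_eq (H : BDat2 C Y s₀ ι r f ρ k x b) : ρ = n ^ 2 := by
  have hN : (0 : ℝ) < Fintype.card Γ := Nat.cast_pos.2 Fintype.card_pos
  have hn := H.set2.cst.hn
  have hρ := H.hρ
  by_contra hne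
  have hlt : ρ + 1 ≤ n ^ 2 := by omega
  have h1 := H.sup s₀ 1
  rw [H.b_one, map_natCast, Complex.norm_natCast] at h1
  have h2 := H.total0
  have hE0 : (0 : ℝ) ≤ ∑ y, ‖s₀ (b y)‖ ^ 2 := Finset.sum_nonneg fun _ _ => sq_nonneg _
  have hh : ((h₁ n : ℕ) : ℝ) = 2 * (n : ℝ) ^ 2 * ((n : ℝ) ^ 2 + 1) + 1 := by
    unfold h₁
    push_cast
    ring
  have hlt' : (ρ : ℝ) + 1 ≤ (n : ℝ) ^ 2 := by exact_mod_cast hlt
  have hρ0 : (0 : ℝ) ≤ ρ := Nat.cast_nonneg _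
  rw [hh] at h2
  have hm1 : (1 : ℝ) ≤ (n : ℝ) ^ 2 := by
    have : (1 : ℝ) ≤ n := by exact_mod_cast hn
    nlinarith
  generalize ∑ y, ‖s₀ (b y)‖ ^ 2 = E at *
  generalize (Fintype.card Γ : ℝ) = N at *
  generalize (n : ℝ) ^ 2 = m at *
  generalize (ρ : ℝ) = t at *
  -- `m N ≤ t E`, `E (h - t) ≤ (1 + 1 / (4 m)) N h`
  have hm0 : 0 < m := by linarith
  have h3 : (m * N) * ((2 * m * (m + 1) + 1) - t) ≤
      t * ((1 + 1 / (4 * m)) * N * (2 * m * (m + 1) + 1)) := by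
    calc (m * N) * ((2 * m * (m + 1) + 1) - t) ≤ (t * E) * ((2 * m * (m + 1) + 1) - t) :=
          mul_le_mul_of_nonneg_right h1 (by nlinarith)
      _ = t * (E * ((2 * m * (m + 1) + 1) - t)) := by ring
      _ ≤ _ := mul_le_mul_of_nonneg_left h2 hρ0
  have h4 : m * ((2 * m * (m + 1) + 1) - t) ≤ t * ((1 + 1 / (4 * m)) * (2 * m * (m + 1) + 1)) := by
    have h5 : (m * ((2 * m * (m + 1) + 1) - t)) * N ≤
        (t * ((1 + 1 / (4 * m)) * (2 * m * (m + 1) + 1))) * N := by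
      refine le_trans (le_of_eq ?_) (h3.trans (le_of_eq ?_)) <;> ring
    exact le_of_mul_le_mul_right h5 hN
  have h6 : t * ((1 + 1 / (4 * m)) * (2 * m * (m + 1) + 1)) * (4 * m) =
      t * ((4 * m + 1) * (2 * m * (m + 1) + 1)) := by
    field_simp
  have h7 : m * ((2 * m * (m + 1) + 1) - t) * (4 * m) ≤
      t * ((4 * m + 1) * (2 * m * (m + 1) + 1)) := by
    rw [← h6]
    exact mul_le_mul_of_nonneg_right h4 (by linarith)
  -- replace `t` by `m - 1`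
  have h8 : m * ((2 * m * (m + 1) + 1) - (m - 1)) * (4 * m) ≤
      (m - 1) * ((4 * m + 1) * (2 * m * (m + 1) + 1)) := by
    have h9 : m * ((2 * m * (m + 1) + 1) - (m - 1)) * (4 * m) ≤
        m * ((2 * m * (m + 1) + 1) - t) * (4 * m) := by
      have : (0 : ℝ) ≤ m * (4 * m) := by positivity
      nlinarith
    have h10 : t * ((4 * m + 1) * (2 * m * (m + 1) + 1)) ≤
        (m - 1) * ((4 * m + 1) * (2 * m * (m + 1) + 1)) :=
      mul_le_mul_of_nonneg_right (by linarith) (by positivity)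
    linarith
  nlinarith [mul_pos hm0 hm0, mul_pos (mul_pos hm0 hm0) hm0]

/-- The mean square at `s₀` is less than two. -/
theorem BDat2.lt_two (H : BDat2 C Y s₀ ι r f ρ k x b) :
    ∑ y, ‖s₀ (b y)‖ ^ 2 < 2 * Fintype.card Γ := by
  have hN : (0 : ℝ) < Fintype.card Γ := Nat.cast_pos.2 Fintype.card_pos
  have hn := H.set2.cst.hn
  have hρ := H.rank_eq
  have h2 := H.total0
  have hh : ((h₁ n : ℕ) : ℝ) = 2 * (n : ℝ) ^ 2 * ((n : ℝ) ^ 2 + 1) + 1 := by
    unfold h₁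
    push_cast
    ring
  have hρ' : (ρ : ℝ) = (n : ℝ) ^ 2 := by exact_mod_cast hρ
  rw [hh, hρ'] at h2
  have hm1 : (1 : ℝ) ≤ (n : ℝ) ^ 2 := by
    have : (1 : ℝ) ≤ n := by exact_mod_cast hn
    nlinarith
  generalize ∑ y, ‖s₀ (b y)‖ ^ 2 = E at *
  generalize (Fintype.card Γ : ℝ) = N at *
  generalize (n : ℝ) ^ 2 = m at *
  by_contra hcon
  have h3 : 2 * N ≤ E := not_lt.1 hcon
  have h4 : (1 : ℝ) / (4 * m) ≤ 1 / 4 := by
    rw [div_le_div_iff₀ (by linarith) (by norm_num)]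
    linarith
  have h5 : (1 + 1 / (4 * m)) * N * (2 * m * (m + 1) + 1) ≤
      (5 / 4) * N * (2 * m * (m + 1) + 1) := by
    refine mul_le_mul_of_nonneg_right (mul_le_mul_of_nonneg_right (by linarith) hN.le) ?_
    nlinarith
  have h6 : (2 * N) * ((2 * m * (m + 1) + 1) - m) ≤ E * ((2 * m * (m + 1) + 1) - m) :=
    mul_le_mul_of_nonneg_right h3 (by nlinarith)
  nlinarith [mul_pos hN (by linarith : (0 : ℝ) < m)]

end Pool.Agent.OneN74
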