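import Pool.Agent.W_7742j_h74.JFin

/-! # Definitions: small lifts of the trace, mean square bounded by `C`, and at most about one at one
embedding -/

set_option autoImplicit false

noncomputable section

namespace Pool.Agent.OneN74

open NumberField Pool.Agent.OneI74
open Pool.Agent.OneJ74 (Q h₁ h₂ S mat)

variable {K A Γ : Type} [Field K] [NumberField K] [CommRing A] [Group Γ] {n : ℕ}

/-- The inequalities between the constants. -/
structure Cst (n C Y : ℕ) : Prop where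
  hn : 0 < n
  hC : 0 < C
  i1 : ((n ^ 2 + 1) * (C * h₁ n)) ^ (n ^ 2 + 1) < Y ^ 2
  i2 : (n ^ 2 * (C * h₁ n)) ^ (n ^ 2) * (2 * (C * h₂ n) + 2 * (C * n ^ 2)) < Y ^ 2
  i3 : (n * C + n + 1) ^ (n + 1) < Y
  i4 : 4 * n ^ 2 < Y ^ 2

/-- `f` is a lift of the trace of `r` with values of minimal size and mean square at most `C`, and at
most `1 + 1 / (4 n ^ 2)` at the embedding `s₀`, for the elements with a small lift. -/
structure Set2 [Fintype Γ] (C Y : ℕ) (s₀ : K →+* ℂ) (ι : 𝓞 K →+* A)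
    (r : Γ →* Matrix (Fin n) (Fin n) A) (f : Γ → 𝓞 K) : Prop where
  cst : Cst n C Y
  hN : Y ^ Module.finrank ℚ K ≤ Ideal.absNorm (RingHom.ker ι)
  hf : ∀ x, ι (f x) = (r x).trace
  hmin : ∀ x c, ι c = (r x).trace → Q (f x : K) ≤ Q (c : K)
  hcomm : ∀ x y, f (x * y) = f (y * x)
  hE : ∑ x, Q (f x : K) ≤ C * Module.finrank ℚ K * Fintype.card Γ
  hE0 : ∀ q : Γ → ℝ, (∀ x, q x ≤ ‖s₀ (f x : K)‖ ^ 2) → (∀ x, x ∉ S f (C * h₁ n) → q x ≤ 0) →
    ∑ x, q x ≤ (1 + 1 / (4 * (n : ℝ) ^ 2)) * Fintype.card Γ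

/-- The extension `b` of `f` with values in `K`. -/
structure BDat2 [Fintype Γ] (C Y : ℕ) (s₀ : K →+* ℂ) (ι : 𝓞 K →+* A)
    (r : Γ →* Matrix (Fin n) (Fin n) A) (f : Γ → 𝓞 K)
    (ρ : ℕ) (k x : Fin ρ → Γ) (b : Γ → K) : Prop where
  set2 : Set2 C Y s₀ ι r f
  hρ : ρ ≤ n ^ 2
  hkx : ∀ i j, k i * x j ∈ S f (C * h₁ n)
  hdet : (mat f k x).det ≠ 0
  hb : ∀ g ∈ S f (C * h₁ n), b g = f g
  hfac : ∀ u v, b (u * v) = ∑ i, ∑ j, b (u * x j) * ((mat f k x)⁻¹ j i) * b (k i * v)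

end Pool.Agent.OneN74
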