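import Pool.Agent.W_7742j_h74.JEng

/-! # Energy: a general bound -/

set_option autoImplicit false

noncomputable section

open Filter Topology NumberField

namespace Pool.Agent.OneN74

open Pool.Agent.GalSide Pool.Agent.OneP74

variable {G : Type} [Group G] [TopologicalSpace G] [IsTopologicalGroup G] [CompactSpace G]

/-- `q` is a class function on `G / U`, `q (frob p) ≤ a p` for `p ∉ Z`, `Z` of density zero, and the mean
of `a ≥ 0` is at most `c`. -/
theorem energy_gen (Φ : FrobeniusData G) {a : Nat.Primes → ℝ} (ha : ∀ p, 0 ≤ a p) {c : ℝ}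
    (hc : ∀ ε : ℝ, 0 < ε → LogBound (c + ε) a)
    (U : Subgroup G) [U.Normal] (hU : IsOpen (U : Set G)) [Fintype (G ⧸ U)] (q : G ⧸ U → ℝ)
    (hqc : ∀ x y, q (x * y) = q (y * x)) {Z : Set Nat.Primes}
    (hZ : HasDensity Z 0)
    (h : ∀ p ∉ Z, q (QuotientGroup.mk (Φ.frob p)) ≤ a p) :
    ∑ x, q x ≤ c * Fintype.card (G ⧸ U) := by
  classical
  have hG0 : (0 : ℝ) < Fintype.card (G ⧸ U) := by
    exact_mod_cast Fintype.card_pos
  have hcl : ∀ x y : G ⧸ U, IsConj x y → q x = q y := by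
    intro x y hxy
    obtain ⟨c, hc⟩ := isConj_iff.1 hxy
    rw [← hc, hqc (c * x) c⁻¹, ← mul_assoc, inv_mul_cancel, one_mul]
  have hmean := tendsto_mean Φ U hU q hcl
  obtain ⟨B, hB⟩ : ∃ B : ℝ, B = ∑ x, |q x| := ⟨_, rfl⟩
  have hB0 : 0 ≤ B := by
    rw [hB]
    exact Finset.sum_nonneg fun x _ => abs_nonneg _
  have hqB : ∀ x, q x ≤ B := fun x => by
    rw [hB]
    exact (le_abs_self _).trans
      (Finset.single_le_sum (f := fun y => |q y|) (fun y _ => abs_nonneg _) (Finset.mem_univ x))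
  have h1 : (∑ x, q x) / (Fintype.card (G ⧸ U) : ℝ) ≤ c := by
    refine le_of_forall_pos_le_add fun δ hδ => ?_
    have h2 : Tendsto (fun s : ℝ => (c + δ) + B * (primeSum Z s / Real.log (1 / (s - 1))))
        (𝓝[>] 1) (𝓝 ((c + δ) + B * 0)) := (hZ.const_mul _).const_add _
    rw [mul_zero, add_zero] at h2
    refine le_of_tendsto_of_tendsto hmean h2 ?_
    filter_upwards [hc δ hδ, Chb_gt, Chb_log.eventually_gt_atTop 0] with s h3 hs hL
    rw [div_le_iff₀ hL]
    have hsq := summable_frob Φ U q hs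
    have h5 := (Chb_summable hs Z).hasSum.mul_left B
    have h6 : ∑' p : Nat.Primes, q (QuotientGroup.mk (Φ.frob p)) * ((p : ℕ) : ℝ) ^ (-s) ≤
        ∑' p : Nat.Primes, a p * ((p : ℕ) : ℝ) ^ (-s) + B * primeSum Z s := by
      refine hasSum_le (fun p => ?_) hsq.hasSum (h3.1.hasSum.add h5)
      have hw : 0 ≤ ((p : ℕ) : ℝ) ^ (-s) := Real.rpow_nonneg (Nat.cast_nonneg _) _
      by_cases hp : p ∈ Z
      · rw [Set.indicator_of_mem hp]
        have h7 := mul_le_mul_of_nonneg_right
          (hqB (QuotientGroup.mk (Φ.frob p))) hw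
        have h8 := mul_nonneg (ha p) hw
        linarith
      · rw [Set.indicator_of_notMem hp, mul_zero, add_zero]
        exact mul_le_mul_of_nonneg_right (h p hp) hw
    have e1 : (c + δ + B * (primeSum Z s / Real.log (1 / (s - 1)))) * Real.log (1 / (s - 1)) =
        (c + δ) * Real.log (1 / (s - 1)) + B * primeSum Z s := by
      field_simp
    rw [e1]
    linarith [h3.2]
  rwa [div_le_iff₀ hG0] at h1

end Pool.Agent.OneN74
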