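import Pool.Agent.W_7742n_h74.CPol
import Pool.Agent.W_7742n_h74.CChr

/-! # The finite theorem (compare `W_7742j_h74/JFin.lean`) -/

set_option autoImplicit false

noncomputable section

open ComplexConjugate

namespace Pool.Agent.OneN74

open NumberField Pool.Agent.OneI74 Pool.Agent.GalSide
open Pool.Agent.OneJ74 (Q h₁ h₂ S mat Q_nonneg eq_zero_of_prod hadamard)

variable {K A Γ : Type} [Field K] [NumberField K] [CommRing A] [Group Γ] [Fintype Γ] {n : ℕ}
  {C Y : ℕ} {s₀ : K →+* ℂ}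
  {ι : 𝓞 K →+* A} {r : Γ →* Matrix (Fin n) (Fin n) A}

/-- Irreducibility does not depend on the embedding. -/
theorem mean_sq_all (β : Γ → 𝓞 K) (s₀ : K →+* ℂ) (k : ℕ)
    (R : (s : K →+* ℂ) → Γ →* Matrix (Fin n) (Fin n) ℂ) (hR : ∀ s g, (R s g).trace = s (β g : K))
    (h : ∑ g, ‖s₀ (β g : K)‖ ^ 2 = (Fintype.card Γ : ℝ) * k) (s : K →+* ℂ) :
    ∑ g, ‖s (β g : K)‖ ^ 2 = (Fintype.card Γ : ℝ) * k := by
  classical
  have h1 : ∀ t : K →+* ℂ, t (∑ g, (β g : K) * (β g⁻¹ : K)) =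
      ((∑ g, ‖t (β g : K)‖ ^ 2 : ℝ) : ℂ) := by
    intro t
    rw [map_sum, Complex.ofReal_sum]
    refine Finset.sum_congr rfl fun g _ => ?_
    have h2 := irr_trace_inv_eq (R t) g
    rw [hR, hR] at h2
    rw [map_mul, ← h2, Complex.ofReal_pow]
    have h3 : star (t (β g⁻¹ : K)) = conj (t (β g⁻¹ : K)) := rfl
    rw [h3, Complex.norm_conj]
    exact Complex.conj_mul' _
  have h2 : (∑ g, (β g : K) * (β g⁻¹ : K)) = (Fintype.card Γ : K) * k := by
    apply s₀.injective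
    rw [h1, h, map_mul, map_natCast, map_natCast]
    push_cast
    rfl
  have h3 := h1 s
  rw [h2, map_mul, map_natCast, map_natCast] at h3
  have h4 : (((Fintype.card Γ : ℝ) * k : ℝ) : ℂ) = ((∑ g, ‖s (β g : K)‖ ^ 2 : ℝ) : ℂ) := by
    rw [← h3]
    push_cast
    rfl
  exact (Complex.ofReal_injective h4).symm

theorem Set2.finite_main {f : Γ → 𝓞 K} (H : Set2 C Y s₀ ι r f) :
    ∃ (𝔟 : Ideal (𝓞 K)) (β : Γ → 𝓞 K), RingHom.ker ι ≤ 𝔟 ∧
      Ideal.absNorm (RingHom.ker ι) ≤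
        (n ^ (2 * n ^ 2)) ^ Module.finrank ℚ K * Ideal.absNorm 𝔟 ∧
      (∀ g c, ι c = (r g).trace → c - β g ∈ 𝔟) ∧
      (∀ u v, β (u * v) = β (v * u)) ∧
      ∀ s : K →+* ℂ, ∃ R : Γ →* Matrix (Fin n) (Fin n) ℂ, (∀ g, (R g).trace = s (β g : K)) ∧
        ∀ W : Submodule ℂ (Fin n → ℂ), (∀ g, ∀ w ∈ W, (R g).mulVec w ∈ W) → W = ⊥ ∨ W = ⊤ := by
  classical
  obtain ⟨ρ, k, x, b, H'⟩ := H.exists_bdat
  obtain rfl := H'.rank_eq
  set D := Module.finrank ℚ K with hD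
  have hDpos : 0 < D := Module.finrank_pos
  have hn0 : 0 < n := H.cst.hn
  have hYpos : 0 < Y := by
    have := H.cst.i3
    omega
  have hNpos : 0 < Ideal.absNorm (RingHom.ker ι) :=
    lt_of_lt_of_le (pow_pos hYpos _) H.hN
  -- representations
  have hrep : ∀ s : K →+* ℂ, ∃ R : Γ →* Matrix (Fin n) (Fin n) ℂ, ∀ g, (R g).trace = s (b g) := by
    intro s
    refine exists_rep (fun g => s (b g)) (fun u v => by rw [H'.comm]) ?_ ?_
    · show s (b 1) = n
      rw [H'.b_one, map_natCast]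
    · intro y
      have h1 := pol_map s b (n + 1) y
      rw [H'.pol_all y, map_zero] at h1
      exact h1.symm
  have hcard : 0 < Fintype.card Γ := Fintype.card_pos
  have hfinord : ∀ (R : Γ →* Matrix (Fin n) (Fin n) ℂ) (g : Γ), R g ^ Fintype.card Γ = 1 := by
    intro R g
    rw [← map_pow, pow_card_eq_one, map_one]
  have hbnorm : ∀ (s : K →+* ℂ) (g : Γ), ‖s (b g)‖ ≤ n := by
    intro s g
    obtain ⟨R, hR⟩ := hrep s
    rw [← hR g]
    exact norm_trace_le hcard (R g) (hfinord R g)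
  have hbint : ∀ g, IsIntegral ℤ (b g) := by
    intro g
    obtain ⟨s⟩ : Nonempty (K →+* ℂ) := inferInstance
    obtain ⟨R, hR⟩ := hrep s
    obtain ⟨a, ha⟩ := OneP74.exists_exponents hcard (R g) (hfinord R g) _
      (Complex.isPrimitiveRoot_exp (Fintype.card Γ) hcard.ne')
    have hz := Complex.isPrimitiveRoot_exp (Fintype.card Γ) hcard.ne'
    have h1 : IsIntegral ℤ ((R g).trace) := by
      have h2 := ha 1
      rw [pow_one] at h2
      rw [h2]
      exact IsIntegral.sum _ fun i _ => (hz.isIntegral hcard).pow _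
    rw [hR g] at h1
    exact (isIntegral_algHom_iff s.toIntAlgHom s.injective).1 h1
  have hβ : ∀ g, ∃ w : 𝓞 K, (w : K) = b g := fun g => ⟨⟨b g, hbint g⟩, rfl⟩
  choose β hβ' using hβ
  -- the minor
  set G₀ : 𝓞 K := (Matrix.of fun i j => f (k i * x j)).det with hG₀
  have hG₀K : (G₀ : K) = (mat f k x).det := by
    have h1 := RingHom.map_det (algebraMap (𝓞 K) K) (Matrix.of fun i j => f (k i * x j))
    rw [hG₀]
    refine h1.trans ?_
    rfl
  have hG₀ne : G₀ ≠ 0 := by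
    intro h
    apply H'.hdet
    rw [← hG₀K, h]
    simp
  set 𝔟 : Ideal (𝓞 K) := Submodule.comap (LinearMap.lsmul (𝓞 K) (𝓞 K) G₀) (RingHom.ker ι) with h𝔟
  have hmem : ∀ z, z ∈ 𝔟 ↔ G₀ * z ∈ RingHom.ker ι := fun z => Iff.rfl
  have hle : RingHom.ker ι ≤ 𝔟 := fun z hz => (hmem z).2 (Ideal.mul_mem_left _ _ hz)
  have hbpos : 0 < Ideal.absNorm 𝔟 :=
    Nat.pos_of_dvd_of_pos (Ideal.absNorm_dvd_absNorm_of_le hle) hNpos
  have hcor : ∀ g c, ι c = (r g).trace → c - β g ∈ 𝔟 := by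
    intro g c hc
    obtain ⟨z, hz, hz2⟩ := H'.cor g c hc
    rw [hmem]
    have h1 : G₀ * (c - β g) = z := by
      apply NumberField.RingOfIntegers.ext
      rw [hz2, ← hG₀K, ← hβ' g]
      exact (map_mul (algebraMap (𝓞 K) K) G₀ (c - β g)).trans
        (congrArg (fun t => (G₀ : K) * t) (map_sub (algebraMap (𝓞 K) K) c (β g)))
    rw [h1]
    exact hz
  -- norm of the minor
  have hdetnorm : ∀ s : K →+* ℂ, ‖s (G₀ : K)‖ ≤ (n : ℝ) ^ (2 * n ^ 2) := by
    intro s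
    have h1 : s (G₀ : K) = (Matrix.of fun i j => s (b (k i * x j)) :
        Matrix (Fin (n ^ 2)) (Fin (n ^ 2)) ℂ).det := by
      rw [hG₀K, RingHom.map_det]
      congr 1
      ext i j
      show s (f (k i * x j) : K) = s (b (k i * x j))
      rw [H'.hb _ (H'.hkx i j)]
    have h2 := hadamard (Matrix.of fun i j => s (b (k i * x j)) :
        Matrix (Fin (n ^ 2)) (Fin (n ^ 2)) ℂ)
    have h3 : ∏ i : Fin (n ^ 2), ∑ j : Fin (n ^ 2),
        ‖(Matrix.of fun i j => s (b (k i * x j)) :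
        Matrix (Fin (n ^ 2)) (Fin (n ^ 2)) ℂ) i j‖ ^ 2 ≤ ∏ _i : Fin (n ^ 2), (n : ℝ) ^ 4 := by
      refine Finset.prod_le_prod (fun i _ => Finset.sum_nonneg fun j _ => sq_nonneg _) fun i _ => ?_
      calc ∑ j : Fin (n ^ 2), ‖(Matrix.of fun i j => s (b (k i * x j)) :
            Matrix (Fin (n ^ 2)) (Fin (n ^ 2)) ℂ) i j‖ ^ 2
          ≤ ∑ _j : Fin (n ^ 2), (n : ℝ) ^ 2 := by
            refine Finset.sum_le_sum fun j _ => ?_
            exact pow_le_pow_left₀ (norm_nonneg _) (hbnorm s _) 2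
        _ = (n : ℝ) ^ 4 := by
            rw [Finset.sum_const, Finset.card_univ, Fintype.card_fin, nsmul_eq_mul]
            push_cast
            ring
    rw [Finset.prod_const, Finset.card_univ, Fintype.card_fin] at h3
    rw [← h1] at h2
    have h4 : ‖s (G₀ : K)‖ ^ 2 ≤ ((n : ℝ) ^ (2 * n ^ 2)) ^ 2 := by
      refine (h2.trans h3).trans (le_of_eq ?_)
      rw [← pow_mul, ← pow_mul]
      congr 1
      ring
    exact le_of_sq_le_sq h4 (by positivity)
  have hspan : (Ideal.absNorm (Ideal.span {G₀}) : ℝ) ≤ ((n : ℝ) ^ (2 * n ^ 2)) ^ D := by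
    refine (absNorm_le_prod _ (Ideal.mem_span_singleton_self G₀) hG₀ne).trans ?_
    calc ∏ s : K →+* ℂ, ‖s (G₀ : K)‖ ≤ ∏ _s : K →+* ℂ, (n : ℝ) ^ (2 * n ^ 2) :=
          Finset.prod_le_prod (fun s _ => norm_nonneg _) fun s _ => hdetnorm s
      _ = ((n : ℝ) ^ (2 * n ^ 2)) ^ D := by
          rw [Finset.prod_const, Finset.card_univ, NumberField.Embeddings.card K ℂ]
  have hspan' : Ideal.absNorm (Ideal.span {G₀}) ≤ (n ^ (2 * n ^ 2)) ^ D := by
    exact_mod_cast hspan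
  have hspanpos : 0 < Ideal.absNorm (Ideal.span {G₀}) := by
    refine Nat.pos_of_ne_zero ?_
    rw [Ne, Ideal.absNorm_eq_zero_iff, Ideal.span_singleton_eq_bot]
    exact hG₀ne
  have hmul : Ideal.span {G₀} * 𝔟 ≤ RingHom.ker ι := by
    rw [Ideal.span_singleton_mul_le_iff]
    exact fun z hz => (hmem z).1 hz
  have hnorm : Ideal.absNorm (RingHom.ker ι) ≤ (n ^ (2 * n ^ 2)) ^ D * Ideal.absNorm 𝔟 := by
    have h1 := Ideal.absNorm_dvd_absNorm_of_le hmul
    rw [map_mul] at h1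
    have h2 := Nat.le_of_dvd (Nat.mul_pos hspanpos hbpos) h1
    exact h2.trans (Nat.mul_le_mul hspan' le_rfl)
  have hβR : ∀ s : K →+* ℂ, ∃ R : Γ →* Matrix (Fin n) (Fin n) ℂ, ∀ g, (R g).trace = s (β g : K) :=
    fun s => by
      obtain ⟨R, hR⟩ := hrep s
      exact ⟨R, fun g => by rw [hR g, hβ' g]⟩
  choose R hR using hβR
  obtain ⟨m, hm⟩ := sum_sq (R s₀)
  simp only [hR] at hm
  have hlt := H'.lt_two
  simp only [← hβ'] at hlt
  rw [hm] at hlt
  have hG : (0 : ℝ) < Fintype.card Γ := by exact_mod_cast hcard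
  have hm1 : m ≤ 1 := by
    have h1 : (m : ℝ) < 2 := by
      by_contra h2
      have h3 := not_lt.1 h2
      nlinarith
    have h4 : m < 2 := by exact_mod_cast h1
    omega
  refine ⟨𝔟, β, hle, hnorm, hcor, fun u v => ?_, fun s => ⟨R s, hR s, fun W hW => ?_⟩⟩
  · apply NumberField.RingOfIntegers.ext
    rw [hβ', hβ', H'.comm]
  · refine eq_bot_or_eq_top (R s) ?_ W hW
    simp only [hR]
    rw [mean_sq_all β s₀ m R hR hm s]
    have h1 : (m : ℝ) ≤ 1 := by exact_mod_cast hm1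
    nlinarith

end Pool.Agent.OneN74
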