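import Pool.Agent.W_7742n_h74.CFin
import Pool.Agent.W_7742n_h74.CEng
import Pool.Agent.W_7742z_h74.Frb

/-! # The theorem for bounded mean squares (compare `W_7742j_h74/JMai.lean`) -/

set_option autoImplicit false

noncomputable section

open Filter Topology NumberField

namespace Pool.Agent.OneN74

open Pool.Agent.GalSide Pool.Agent.OneI74
open Pool.Agent.OneJ74 (Q h₁ h₂ S mat Q_nonneg eq_of_Q exists_lift)

/-- The set `X` of primes has upper density at most `δ`. -/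
def UpLE (X : Set Nat.Primes) (δ : ℝ) : Prop :=
  ∀ ε : ℝ, 0 < ε → ∀ᶠ s : ℝ in 𝓝[>] 1, primeSum X s ≤ (δ + ε) * Real.log (1 / (s - 1))

variable {G : Type} [Group G] [TopologicalSpace G] [IsTopologicalGroup G] [CompactSpace G]

theorem logBound_Q {K : Type} [Field K] [NumberField K] {b : Nat.Primes → 𝓞 K} {C : ℝ}
    (hRS : ∀ σ : K →+* ℂ, ∀ ε : ℝ, 0 < ε → LogBound (C + ε) (fun p => ‖σ (b p : K)‖ ^ 2))
    (ε : ℝ) (hε : 0 < ε) :
    LogBound (C * Module.finrank ℚ K + ε) (fun p => Q (b p : K)) := by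
  classical
  have hd : (0 : ℝ) < Module.finrank ℚ K := Nat.cast_pos.2 Module.finrank_pos
  have hcard : (Fintype.card (K →+* ℂ) : ℝ) = Module.finrank ℚ K := by
    rw [NumberField.Embeddings.card K ℂ]
  have hall : ∀ᶠ s : ℝ in 𝓝[>] 1, ∀ σ : K →+* ℂ,
      Summable (fun p : Nat.Primes => ‖σ (b p : K)‖ ^ 2 * ((p : ℕ) : ℝ) ^ (-s)) ∧
        ∑' p : Nat.Primes, ‖σ (b p : K)‖ ^ 2 * ((p : ℕ) : ℝ) ^ (-s) ≤
          (C + ε / Module.finrank ℚ K) * Real.log (1 / (s - 1)) :=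
    eventually_all.2 fun σ => hRS σ _ (by positivity)
  filter_upwards [hall] with s h
  have h4 := hasSum_sum (s := Finset.univ) fun (σ : K →+* ℂ) _ => (h σ).1.hasSum
  have e1 : (fun p : Nat.Primes => Q (b p : K) * ((p : ℕ) : ℝ) ^ (-s)) =
      fun p : Nat.Primes => ∑ σ : K →+* ℂ, ‖σ (b p : K)‖ ^ 2 * ((p : ℕ) : ℝ) ^ (-s) := by
    funext p
    unfold Q
    rw [Finset.sum_mul]
  rw [e1]
  refine ⟨h4.summable, ?_⟩
  rw [h4.tsum_eq]
  refine (Finset.sum_le_sum fun σ _ => (h σ).2).trans (le_of_eq ?_)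
  rw [Finset.sum_const, Finset.card_univ, nsmul_eq_mul, hcard]
  field_simp

theorem main_c (Φ : FrobeniusData G) {K : Type} [Field K] [NumberField K]
    (b : Nat.Primes → 𝓞 K) {n C Y W : ℕ} (s₀ : K →+* ℂ) (hcst : Cst n C Y)
    (hY : 2 * (C * h₁ n) * (1 + 4 * n ^ 2 * (C * Module.finrank ℚ K)) < Y ^ 2)
    (hYW : Y = W * n ^ (2 * n ^ 2)) (hW : 2 * n ^ 2 < W ^ 2)
    (hRS : ∀ σ : K →+* ℂ, ∀ ε : ℝ, 0 < ε → LogBound (C + ε) (fun p => ‖σ (b p : K)‖ ^ 2))
    (hRS0 : ∀ ε : ℝ, 0 < ε → LogBound (1 + ε) (fun p => ‖s₀ (b p : K)‖ ^ 2))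
    {A : Type} [CommRing A] (ι : 𝓞 K →+* A)
    (hN : Y ^ Module.finrank ℚ K ≤ Ideal.absNorm (RingHom.ker ι))
    (r : G →* Matrix (Fin n) (Fin n) A) (hr : IsOpen ({g | r g = 1} : Set G))
    (hZ : HasDensity {p | (r (Φ.frob p)).trace ≠ ι (b p)} 0) :
    ∃ (𝔟 : Ideal (𝓞 K)) (U : Subgroup G) (_ : U.Normal) (β : G ⧸ U → 𝓞 K),
      Ideal.absNorm (RingHom.ker ι) ≤
        (n ^ (2 * n ^ 2)) ^ Module.finrank ℚ K * Ideal.absNorm 𝔟 ∧
      IsOpen (U : Set G) ∧ (∀ g, r g = 1 → g ∈ U) ∧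
      (∀ g c, ι c = (r g).trace → c - β (QuotientGroup.mk g) ∈ 𝔟) ∧
      UpLE {p | b p ≠ β (QuotientGroup.mk (Φ.frob p))} (2 * C / ((W : ℝ) ^ 2 - 2 * (n : ℝ) ^ 2)) ∧
      ∀ s : K →+* ℂ, ∃ R : G ⧸ U →* Matrix (Fin n) (Fin n) ℂ,
        (∀ x, (R x).trace = s (β x : K)) ∧
        ∀ W : Submodule ℂ (Fin n → ℂ), (∀ g, ∀ w ∈ W, (R g).mulVec w ∈ W) → W = ⊥ ∨ W = ⊤ := by
  classical
  have hd : 0 < Module.finrank ℚ K := Module.finrank_pos
  have hdr : (0 : ℝ) < Module.finrank ℚ K := Nat.cast_pos.2 hd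
  have hn := hcst.hn
  have hU₀ : IsOpen ((r.ker : Subgroup G) : Set G) := hr
  have hfin : Finite (G ⧸ r.ker) := Subgroup.quotient_finite_of_isOpen r.ker hU₀
  let _ : Fintype (G ⧸ r.ker) := Fintype.ofFinite _
  obtain ⟨ρ, hρ⟩ : ∃ ρ : G ⧸ r.ker →* Matrix (Fin n) (Fin n) A,
      ∀ g : G, ρ (QuotientGroup.mk g) = r g :=
    ⟨QuotientGroup.lift r.ker r le_rfl, fun g => rfl⟩
  have hTc : ∀ x y, (ρ (x * y)).trace = (ρ (y * x)).trace := by
    intro x y
    rw [map_mul, map_mul, Matrix.trace_mul_comm]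
  have hTf : ∀ p ∉ {p | (r (Φ.frob p)).trace ≠ ι (b p)},
      (ρ (QuotientGroup.mk (Φ.frob p))).trace = ι (b p) := by
    intro p hp
    rw [hρ]
    by_contra h
    exact hp h
  have hTconj : ∀ x y, IsConj x y → (ρ x).trace = (ρ y).trace := by
    intro x y h
    obtain ⟨c, hc⟩ := isConj_iff.1 h
    rw [← hc, mul_assoc, hTc, mul_assoc, inv_mul_cancel, mul_one]
  have hl : ∀ x, ∃ c, ι c = (ρ x).trace := by
    intro x
    obtain ⟨g, rfl⟩ := QuotientGroup.mk_surjective x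
    obtain ⟨p, hp, hc⟩ := exists_frob Φ r.ker hU₀ g hZ
    exact ⟨b p, by rw [← hTconj _ _ hc, hTf p hp]⟩
  obtain ⟨f, hf, hfmin, hfc⟩ := exists_lift ι ρ hl
  have hQ := logBound_Q hRS
  have hen := energy_gen Φ (a := fun p => Q (b p : K)) (fun p => Q_nonneg _) hQ r.ker hU₀
    (fun x => Q (f x : K)) (fun x y => by simp only [hfc x y]) hZ
    (fun p hp => hfmin _ _ (hTf p hp).symm)
  -- the mean square at `s₀`
  set H : ℕ := C * h₁ n with hH
  have hHY : (2 : ℝ) * H < (Y : ℝ) ^ 2 := by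
    have h1 : 2 * H * 1 ≤ 2 * H * (1 + 4 * n ^ 2 * (C * Module.finrank ℚ K)) :=
      Nat.mul_le_mul_left _ (by omega)
    have h2 : 2 * H < Y ^ 2 := by omega
    exact_mod_cast h2
  obtain ⟨κ, hκ⟩ : ∃ κ : ℝ, κ = 2 * H / ((Y : ℝ) ^ 2 - 2 * H) := ⟨_, rfl⟩
  have hκ0 : 0 ≤ κ := by
    rw [hκ]
    exact div_nonneg (by positivity) (by linarith)
  have hκ1 : κ * (C * Module.finrank ℚ K) ≤ 1 / (4 * (n : ℝ) ^ 2) := by
    have hn0 : (0 : ℝ) < n := by exact_mod_cast hn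
    rw [hκ, div_mul_eq_mul_div, div_le_div_iff₀ (by linarith) (by positivity), one_mul]
    have h1 : (2 * (H : ℝ)) * (1 + 4 * (n : ℝ) ^ 2 * (C * Module.finrank ℚ K)) < (Y : ℝ) ^ 2 := by
      exact_mod_cast hY
    nlinarith
  have hpt : ∀ p ∉ {p | (r (Φ.frob p)).trace ≠ ι (b p)},
      (if (QuotientGroup.mk (Φ.frob p) : G ⧸ r.ker) ∈ S f H then
        ‖s₀ (f (QuotientGroup.mk (Φ.frob p)) : K)‖ ^ 2 else 0) ≤
      ‖s₀ (b p : K)‖ ^ 2 + κ * Q (b p : K) := by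
    intro p hp
    have hQ0 := Q_nonneg (b p : K)
    split_ifs with hS
    · by_cases hbf : b p = f (QuotientGroup.mk (Φ.frob p))
      · rw [← hbf]
        have := mul_nonneg hκ0 hQ0
        linarith
      · have h1 : ¬ (2 * Q (b p : K) + 2 * Q (f (QuotientGroup.mk (Φ.frob p)) : K) <
            Module.finrank ℚ K * (Y : ℝ) ^ 2) := by
          intro h2
          refine hbf (eq_of_Q (RingHom.ker ι) hN ?_ h2)
          rw [RingHom.mem_ker, map_sub, hf, hTf p hp, sub_self]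
        have h2 : Q (f (QuotientGroup.mk (Φ.frob p)) : K) ≤ Module.finrank ℚ K * (H : ℝ) := hS
        have h3 : ‖s₀ (f (QuotientGroup.mk (Φ.frob p)) : K)‖ ^ 2 ≤
            Q (f (QuotientGroup.mk (Φ.frob p)) : K) :=
          Finset.single_le_sum (f := fun σ : K →+* ℂ =>
            ‖σ (f (QuotientGroup.mk (Φ.frob p)) : K)‖ ^ 2) (fun σ _ => sq_nonneg _)
            (Finset.mem_univ s₀)
        have h4 : (Module.finrank ℚ K : ℝ) * ((Y : ℝ) ^ 2 - 2 * H) ≤ 2 * Q (b p : K) := by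
          have := not_lt.1 h1
          nlinarith
        have h5 : Module.finrank ℚ K * (H : ℝ) ≤ κ * Q (b p : K) := by
          rw [hκ, div_mul_eq_mul_div, le_div_iff₀ (by linarith)]
          have hH0 : (0 : ℝ) ≤ H := Nat.cast_nonneg _
          nlinarith
        have h6 := sq_nonneg ‖s₀ (b p : K)‖
        linarith
    · have := mul_nonneg hκ0 hQ0
      positivity
  have hlog0 : ∀ ε : ℝ, 0 < ε →
      LogBound ((1 + κ * (C * Module.finrank ℚ K)) + ε)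
        (fun p => ‖s₀ (b p : K)‖ ^ 2 + κ * Q (b p : K)) := by
    intro ε hε
    have hη : 0 < ε / 2 / (κ + 1) := by positivity
    filter_upwards [hRS0 (ε / 2) (by positivity), hQ (ε / 2 / (κ + 1)) hη,
      Chb_log.eventually_gt_atTop 0] with s h1 h2 hL
    have h3 := h1.1.hasSum.add (h2.1.hasSum.mul_left κ)
    have e1 : (fun p : Nat.Primes => (‖s₀ (b p : K)‖ ^ 2 + κ * Q (b p : K)) *
        ((p : ℕ) : ℝ) ^ (-s)) = fun p : Nat.Primes => ‖s₀ (b p : K)‖ ^ 2 * ((p : ℕ) : ℝ) ^ (-s) +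
        κ * (Q (b p : K) * ((p : ℕ) : ℝ) ^ (-s)) := by
      funext p
      ring
    rw [e1]
    refine ⟨h3.summable, ?_⟩
    rw [h3.tsum_eq]
    have h4 := mul_le_mul_of_nonneg_left h2.2 hκ0
    have h5 : κ * (ε / 2 / (κ + 1)) ≤ ε / 2 := by
      rw [mul_div_assoc', div_le_iff₀ (by linarith)]
      nlinarith
    nlinarith [h1.2, mul_le_mul_of_nonneg_right h5 hL.le]
  have hen0 := energy_gen Φ
    (a := fun p => ‖s₀ (b p : K)‖ ^ 2 + κ * Q (b p : K))
    (fun p => add_nonneg (sq_nonneg _) (mul_nonneg hκ0 (Q_nonneg _))) hlog0 r.ker hU₀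
    (fun x => if x ∈ S f H then ‖s₀ (f x : K)‖ ^ 2 else 0)
    (fun x y => by
      have h1 : x * y ∈ S f H ↔ y * x ∈ S f H := by
        unfold S
        simp only [Set.mem_setOf_eq, hfc x y]
      simp only [h1, hfc x y]) hZ hpt
  have Hs : Set2 C Y s₀ ι ρ f := by
    refine ⟨hcst, hN, hf, hfmin, hfc, hen, fun q hq1 hq2 => ?_⟩
    have h1 : ∑ x, q x ≤ ∑ x, (if x ∈ S f H then ‖s₀ (f x : K)‖ ^ 2 else 0) := by
      refine Finset.sum_le_sum fun x _ => ?_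
      split_ifs with hx
      · exact hq1 x
      · exact hq2 x hx
    refine h1.trans (hen0.trans ?_)
    refine mul_le_mul_of_nonneg_right ?_ (Nat.cast_nonneg _)
    linarith
  obtain ⟨𝔟, β, h𝔟, hNN, hc₀, hcomm, hrep⟩ := Hs.finite_main
  have hc : ∀ g c, ι c = (r g).trace → c - β (QuotientGroup.mk g) ∈ 𝔟 := by
    intro g c hgc
    exact hc₀ _ _ (by rw [hρ]; exact hgc)
  have hnorm : ∀ (s : K →+* ℂ) (x : G ⧸ r.ker), ‖s (β x : K)‖ ≤ n := by
    intro s x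
    obtain ⟨R, hR, -⟩ := hrep s
    rw [← hR]
    refine norm_trace_le (m := Fintype.card (G ⧸ r.ker)) Fintype.card_pos _ ?_
    rw [← map_pow, pow_card_eq_one, map_one]
  have hWN : W ^ Module.finrank ℚ K ≤ Ideal.absNorm 𝔟 := by
    have h1 : (n ^ (2 * n ^ 2)) ^ Module.finrank ℚ K * W ^ Module.finrank ℚ K ≤
        (n ^ (2 * n ^ 2)) ^ Module.finrank ℚ K * Ideal.absNorm 𝔟 := by
      refine le_trans (le_of_eq ?_) (hN.trans hNN)
      rw [hYW, mul_pow, mul_comm]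
    exact Nat.le_of_mul_le_mul_left h1 (by positivity)
  refine ⟨𝔟, r.ker, inferInstance, β, hNN, hU₀, fun g hg => hg, hc, ?_, hrep⟩
  intro ε hε
  set Z : Set Nat.Primes := {p | (r (Φ.frob p)).trace ≠ ι (b p)} with hZdef
  set X : Set Nat.Primes := {p | b p ≠ β (QuotientGroup.mk (Φ.frob p))} with hXdef
  have hw : (0 : ℝ) < (W : ℝ) ^ 2 - 2 * (n : ℝ) ^ 2 := by
    have : (2 * (n : ℝ) ^ 2) < (W : ℝ) ^ 2 := by exact_mod_cast hW
    linarith
  obtain ⟨w, hwdef⟩ : ∃ w : ℝ, w = (W : ℝ) ^ 2 - 2 * (n : ℝ) ^ 2 := ⟨_, rfl⟩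
  rw [← hwdef] at hw ⊢
  have hptX : ∀ p, X.indicator (fun q : Nat.Primes => (1 : ℝ)) p ≤
      Z.indicator (fun q : Nat.Primes => (1 : ℝ)) p +
        2 / (Module.finrank ℚ K * w) * Q (b p : K) := by
    intro p
    have hQ0 : 0 ≤ 2 / (Module.finrank ℚ K * w) * Q (b p : K) :=
      mul_nonneg (by positivity) (Q_nonneg _)
    by_cases hpX : p ∈ X
    · by_cases hpZ : p ∈ Z
      · rw [Set.indicator_of_mem hpX, Set.indicator_of_mem hpZ]
        linarith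
      · rw [Set.indicator_of_mem hpX, Set.indicator_of_notMem hpZ, zero_add]
        have h1 : ¬ (2 * Q (b p : K) + 2 * Q (β (QuotientGroup.mk (Φ.frob p)) : K) <
            Module.finrank ℚ K * (W : ℝ) ^ 2) := by
          intro h2
          refine hpX (eq_of_Q 𝔟 hWN (hc _ _ (not_not.1 hpZ).symm) h2)
        have h2 : Q (β (QuotientGroup.mk (Φ.frob p)) : K) ≤ Module.finrank ℚ K * (n : ℝ) ^ 2 := by
          unfold Q
          refine (Finset.sum_le_sum fun σ _ =>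
            pow_le_pow_left₀ (norm_nonneg _) (hnorm σ _) 2).trans (le_of_eq ?_)
          rw [Finset.sum_const, Finset.card_univ, nsmul_eq_mul, NumberField.Embeddings.card K ℂ]
        have h3 : (Module.finrank ℚ K : ℝ) * w ≤ 2 * Q (b p : K) := by
          have := not_lt.1 h1
          rw [hwdef]
          nlinarith
        rw [div_mul_eq_mul_div, le_div_iff₀ (by positivity), one_mul]
        exact h3
    · rw [Set.indicator_of_notMem hpX]
      have : 0 ≤ Z.indicator (fun q : Nat.Primes => (1 : ℝ)) p :=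
        Set.indicator_nonneg (fun _ _ => zero_le_one) _
      linarith
  have hc0 : 0 ≤ 2 / (Module.finrank ℚ K * w) := by positivity
  obtain ⟨η, hη, hη1⟩ : ∃ η : ℝ, 0 < η ∧ 2 / (Module.finrank ℚ K * w) * η ≤ ε / 2 := by
    refine ⟨ε / 2 / (2 / (Module.finrank ℚ K * w) + 1), by positivity, ?_⟩
    rw [mul_div_assoc', div_le_iff₀ (by positivity)]
    nlinarith
  have hZ' : ∀ᶠ s : ℝ in 𝓝[>] 1, primeSum Z s ≤ (ε / 2) * Real.log (1 / (s - 1)) := by
    have h1 : ∀ᶠ s : ℝ in 𝓝[>] 1, primeSum Z s / Real.log (1 / (s - 1)) < ε / 2 :=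
      hZ.eventually_lt_const (by positivity)
    filter_upwards [h1, Chb_log.eventually_gt_atTop 0] with s h2 hL
    rw [div_lt_iff₀ hL] at h2
    exact h2.le
  filter_upwards [hQ η hη, hZ', Chb_gt, Chb_log.eventually_gt_atTop 0] with s h1 h2 hs hL
  have h5 := (Chb_summable hs Z).hasSum.add (h1.1.hasSum.mul_left (2 / (Module.finrank ℚ K * w)))
  have h6 : primeSum X s ≤ primeSum Z s + 2 / (Module.finrank ℚ K * w) *
      ∑' p : Nat.Primes, Q (b p : K) * ((p : ℕ) : ℝ) ^ (-s) := by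
    refine hasSum_le (fun p => ?_) (Chb_summable hs X).hasSum h5
    have hwp : 0 ≤ ((p : ℕ) : ℝ) ^ (-s) := Real.rpow_nonneg (Nat.cast_nonneg _) _
    have h7 := mul_le_mul_of_nonneg_right (hptX p) hwp
    have e1 : ∀ T : Set Nat.Primes, T.indicator (fun q : Nat.Primes => (1 : ℝ)) p *
        ((p : ℕ) : ℝ) ^ (-s) = T.indicator (fun q : Nat.Primes => ((q : ℕ) : ℝ) ^ (-s)) p := by
      intro T
      by_cases hT : p ∈ T
      · rw [Set.indicator_of_mem hT, Set.indicator_of_mem hT, one_mul]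
      · rw [Set.indicator_of_notMem hT, Set.indicator_of_notMem hT, zero_mul]
    rw [add_mul, e1, e1] at h7
    linarith
  have h8 := mul_le_mul_of_nonneg_left h1.2 hc0
  have e2 : 2 / (Module.finrank ℚ K * w) * (C * Module.finrank ℚ K) = 2 * C / w := by
    field_simp
  have h9 : 2 / (Module.finrank ℚ K * w) * ((C * Module.finrank ℚ K + η) *
      Real.log (1 / (s - 1))) ≤ (2 * C / w + ε / 2) * Real.log (1 / (s - 1)) := by
    rw [← mul_assoc, mul_add, e2]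
    exact mul_le_mul_of_nonneg_right (by linarith) hL.le
  nlinarith

end Pool.Agent.OneN74
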