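import Pool.Agent.W_7742n_h74.CCor
import Pool.Agent.W_7742j_h74.JPol

/-! # `b` is a pseudo-character (compare `W_7742j_h74/JPol.lean`) -/

set_option autoImplicit false

noncomputable section

namespace Pool.Agent.OneN74

open NumberField Pool.Agent.OneI74
open Pool.Agent.OneJ74 (Q h₁ h₂ S mat Q_nonneg eq_zero_of_prod Good wd_le card_bad pol_congr
  prod_le_mean support support_multi pol_slice)

variable {K A Γ : Type} [Field K] [NumberField K] [CommRing A] [Group Γ] [Fintype Γ] {n : ℕ}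
  {C Y : ℕ} {s₀ : K →+* ℂ}
  {ι : 𝓞 K →+* A} {r : Γ →* Matrix (Fin n) (Fin n) A} {f : Γ → 𝓞 K} {ρ : ℕ} {k x : Fin ρ → Γ}
  {b : Γ → K}

theorem BDat2.pol_good (H : BDat2 C Y s₀ ι r f ρ k x b) (y : Fin (n + 1) → Γ)
    (hy : Good (S f (C * h₂ n)) (n + 1) y) : pol b (n + 1) y = 0 := by
  classical
  have hn : 0 < n := H.set2.cst.hn
  have hC : 0 < C := H.set2.cst.hC
  set D : ℕ := Module.finrank ℚ K with hD
  have hDpos : 0 < D := Module.finrank_pos
  have hDr : (0 : ℝ) < D := by exact_mod_cast hDpos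
  have hcard : Fintype.card (K →+* ℂ) = D := NumberField.Embeddings.card K ℂ
  have hG : (0 : ℝ) < Fintype.card Γ := by exact_mod_cast Fintype.card_pos
  set w : 𝓞 K := pol f (n + 1) y with hw
  have h1 : pol b (n + 1) y = (w : K) := by
    have h2 : pol b (n + 1) y = pol (fun g => algebraMap (𝓞 K) K (f g)) (n + 1) y :=
      pol_congr (fun g hg => H.eq2 hg) (n + 1) y hy
    rw [h2, ← pol_map (algebraMap (𝓞 K) K) f (n + 1) y]
  have hker : w ∈ RingHom.ker ι := by
    rw [RingHom.mem_ker, hw, pol_map ι f (n + 1) y]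
    have h2 : (fun g => ι (f g)) = fun g => (r g).trace := funext fun g => H.set2.hf g
    rw [h2]
    have h3 := pol_comp (fun g => r g) (fun x y => map_mul r x y)
      (fun M : Matrix (Fin n) (Fin n) A => M.trace) (n + 1) y
    rw [h3]
    exact pol_trace_succ _
  have hρ : (ρ : ℝ) = (n : ℝ) ^ 2 := by
    rw [H.rank_eq]
    push_cast
    rfl
  set e : (K →+* ℂ) → ℝ := fun σ => Real.sqrt ((∑ x, ‖σ (b x)‖ ^ 2) / Fintype.card Γ) with he
  have he0 : ∀ σ, 0 ≤ e σ := fun σ => Real.sqrt_nonneg _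
  have he2 : ∀ σ, e σ ^ 2 = (∑ x, ‖σ (b x)‖ ^ 2) / Fintype.card Γ := fun σ =>
    Real.sq_sqrt (div_nonneg (Finset.sum_nonneg fun _ _ => sq_nonneg _) hG.le)
  have hsume : ∑ σ, e σ ^ 2 ≤ C * D := by
    rw [Finset.sum_congr rfl fun σ _ => he2 σ, ← Finset.sum_div, div_le_iff₀ hG, Finset.sum_comm]
    exact H.total
  have hsup : ∀ σ g, ‖σ (b g)‖ ≤ n * e σ := by
    intro σ g
    have h2 := H.sup σ g
    refine (pow_le_pow_iff_left₀ (norm_nonneg _) (mul_nonneg (Nat.cast_nonneg n) (he0 σ))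
      two_ne_zero).1 ?_
    rw [mul_pow, he2, ← hρ, mul_div_assoc', le_div_iff₀ hG]
    exact h2
  have hpol : ∀ σ : K →+* ℂ, ‖σ (w : K)‖ ≤ (n * e σ + (n + 1 : ℕ)) ^ (n + 1) := by
    intro σ
    rw [← h1, pol_map σ b (n + 1) y]
    exact norm_pol_le _ (mul_nonneg (Nat.cast_nonneg n) (he0 σ)) (fun g => hsup σ g) (n + 1) y
  have hprod : ∏ σ : K →+* ℂ, (n * e σ + (n + 1 : ℕ)) ≤ ((n : ℝ) * C + n + 1) ^ D := by
    have hv : ∀ σ : K →+* ℂ, (0 : ℝ) ≤ n * e σ + (n + 1 : ℕ) := fun σ =>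
      add_nonneg (mul_nonneg (Nat.cast_nonneg n) (he0 σ)) (Nat.cast_nonneg _)
    refine (prod_le_mean (fun σ : K →+* ℂ => n * e σ + (n + 1 : ℕ)) hv).trans ?_
    refine pow_le_pow_left₀ (div_nonneg (Finset.sum_nonneg fun σ _ => hv σ) hDr.le) ?_ D
    rw [div_le_iff₀ hDr]
    have h2 : ∑ σ, e σ ≤ C * D := by
      have h3 : ∀ σ ∈ (Finset.univ : Finset (K →+* ℂ)), e σ ≤ (1 + e σ ^ 2) / 2 := by
        intro σ _
        nlinarith [sq_nonneg (e σ - 1)]
      have h4 := Finset.sum_le_sum h3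
      rw [← Finset.sum_div, Finset.sum_add_distrib, Finset.sum_const, Finset.card_univ, hcard,
        nsmul_eq_mul, mul_one] at h4
      have hC1 : (1 : ℝ) ≤ C := by exact_mod_cast hC
      nlinarith
    rw [Finset.sum_add_distrib, ← Finset.mul_sum, Finset.sum_const, Finset.card_univ, hcard,
      nsmul_eq_mul]
    have h5 : (0 : ℝ) ≤ n := Nat.cast_nonneg n
    push_cast
    nlinarith
  have hzero : w = 0 := by
    refine eq_zero_of_prod (RingHom.ker ι) hker ?_
    have h2 : ∏ σ : K →+* ℂ, ‖σ (w : K)‖ ≤ (((n : ℝ) * C + n + 1) ^ D) ^ (n + 1) := by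
      calc ∏ σ : K →+* ℂ, ‖σ (w : K)‖ ≤ ∏ σ : K →+* ℂ, (n * e σ + (n + 1 : ℕ)) ^ (n + 1) :=
            Finset.prod_le_prod (fun _ _ => norm_nonneg _) fun σ _ => hpol σ
        _ = (∏ σ : K →+* ℂ, (n * e σ + (n + 1 : ℕ))) ^ (n + 1) := Finset.prod_pow _ _ _
        _ ≤ (((n : ℝ) * C + n + 1) ^ D) ^ (n + 1) := by
            refine pow_le_pow_left₀ (Finset.prod_nonneg fun σ _ =>
              add_nonneg (mul_nonneg (Nat.cast_nonneg n) (he0 σ)) (Nat.cast_nonneg _)) hprod _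
    have h3 : (((n : ℝ) * C + n + 1) ^ D) ^ (n + 1) < (Ideal.absNorm (RingHom.ker ι) : ℝ) := by
      have h4 : ((n * C + n + 1) ^ (n + 1)) ^ D < Y ^ D :=
        Nat.pow_lt_pow_left H.set2.cst.i3 hDpos.ne'
      have h5 : ((n * C + n + 1) ^ D) ^ (n + 1) < Ideal.absNorm (RingHom.ker ι) := by
        rw [← pow_mul, mul_comm D, pow_mul]
        exact h4.trans_le H.set2.hN
      exact_mod_cast h5
    rw [Finset.prod_pow]
    exact pow_lt_pow_left₀ (h2.trans_lt h3) (Finset.prod_nonneg fun _ _ => norm_nonneg _)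
      two_ne_zero
  rw [h1, hzero]
  rfl

theorem BDat2.pol_all (H : BDat2 C Y s₀ ι r f ρ k x b) (y : Fin (n + 1) → Γ) : pol b (n + 1) y = 0 := by
  classical
  by_contra hne
  obtain ⟨σ⟩ : Nonempty (K →+* ℂ) := inferInstance
  have hfac : ∀ φ ∈ Submodule.span K (Set.range fun w : Γ => fun y : Γ => b (w * y)),
      ∃ α : Fin ρ → Γ → K, ∀ u v, φ (u * v) = ∑ i, α i u * b (k i * v) := by
    intro φ hφ
    induction hφ using Submodule.span_induction with
    | mem φ hφ =>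
      obtain ⟨w, rfl⟩ := hφ
      refine ⟨fun i u => ∑ j, b (w * u * x j) * ((mat f k x)⁻¹ j i), fun u v => ?_⟩
      change b (w * (u * v)) = _
      rw [← mul_assoc, H.hfac]
      refine Finset.sum_congr rfl fun i _ => ?_
      rw [Finset.sum_mul]
    | zero => exact ⟨fun _ _ => 0, fun u v => by simp⟩
    | add φ ψ _ _ h1 h2 =>
      obtain ⟨α, hα⟩ := h1
      obtain ⟨α', hα'⟩ := h2
      refine ⟨fun i u => α i u + α' i u, fun u v => ?_⟩
      rw [Pi.add_apply, hα, hα', ← Finset.sum_add_distrib]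
      exact Finset.sum_congr rfl fun i _ => (add_mul _ _ _).symm
    | smul c φ _ h1 =>
      obtain ⟨α, hα⟩ := h1
      refine ⟨fun i u => c * α i u, fun u v => ?_⟩
      rw [Pi.smul_apply, hα, smul_eq_mul, Finset.mul_sum]
      exact Finset.sum_congr rfl fun i _ => (mul_assoc _ _ _).symm
  have hsl : ∀ (i : Fin (n + 1)) (x : Fin (n + 1) → Γ) (g : Γ),
      pol b (n + 1) (Function.update x i g) ≠ 0 →
      Nat.card Γ ≤ ρ * Nat.card {y : Γ // pol b (n + 1) (Function.update x i y) ≠ 0} := by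
    intro i x g hg
    obtain ⟨α, hα⟩ := hfac _ (pol_slice b H.comm (n + 1) x i)
    have h1 := support (fun y => σ (pol b (n + 1) (Function.update x i y)))
      (fun i u => σ (α i u)) (fun i v => σ (b (k i * v))) (fun u v => by
        have h2 := congrArg σ (hα u v)
        rw [map_sum] at h2
        simpa only [map_mul] using h2) (g := g) (by
        intro h0
        exact hg ((map_eq_zero σ).1 h0))
    refine h1.trans (Nat.mul_le_mul_left _ ?_)
    refine Nat.card_le_card_of_injective (fun z => ⟨z.1, fun h0 => z.2 (by rw [h0, map_zero])⟩) ?_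
    intro z z' hz
    exact Subtype.ext (Subtype.mk.inj hz)
  have h1 := support_multi (n + 1) (pol b (n + 1)) hsl hne
  have h2 : Nat.card {x // pol b (n + 1) x ≠ 0} ≤
      Nat.card {x : Fin (n + 1) → Γ // ¬ Good (S f (C * h₂ n)) (n + 1) x} := by
    refine Nat.card_le_card_of_injective (fun z => ⟨z.1, fun h0 => z.2 (H.pol_good _ h0)⟩) ?_
    intro z z' hz
    exact Subtype.ext (Subtype.mk.inj hz)
  have h3 := card_bad (S f (C * h₂ n)) (n + 1)
  have h4 := wd_le (n + 1)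
  have h5 := H.set2.card_compl (h₂ n)
  rw [H.rank_eq] at h1
  set G : ℕ := Nat.card Γ with hG
  have hGpos : 0 < G := Nat.card_pos
  set m : ℕ := Nat.card {g // g ∉ S f (C * h₂ n)} with hm
  set C' : ℕ := 2 * (n + 1).factorial * n ^ (2 * (n + 1)) with hC
  have h6 : h₂ n = C' + 1 := rfl
  have h7 : G * G ^ (n + 1) ≤ (C' * m) * G ^ (n + 1) := by
    calc G * G ^ (n + 1) ≤ G * ((n ^ 2) ^ (n + 1) *
          Nat.card {x : Fin (n + 1) → Γ // ¬ Good (S f (C * h₂ n)) (n + 1) x}) :=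
          Nat.mul_le_mul_left _ (h1.trans (Nat.mul_le_mul_left _ h2))
      _ = (n ^ 2) ^ (n + 1) *
          (Nat.card {x : Fin (n + 1) → Γ // ¬ Good (S f (C * h₂ n)) (n + 1) x} * G) := by ring
      _ ≤ (n ^ 2) ^ (n + 1) * (2 * (n + 1).factorial * m * G ^ (n + 1)) := by
          refine Nat.mul_le_mul_left _ (h3.trans ?_)
          exact Nat.mul_le_mul_right _ (Nat.mul_le_mul_right _ h4)
      _ = (C' * m) * G ^ (n + 1) := by
          rw [hC, ← pow_mul]
          ring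
  have h8 : G ≤ C' * m := Nat.le_of_mul_le_mul_right h7 (pow_pos hGpos _)
  rw [h6] at h5
  have h9 : (C' + 1) * m = C' * m + m := by ring
  have h10 : m = 0 := by omega
  rw [h10, mul_zero] at h8
  omega

end Pool.Agent.OneN74
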