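import Pool.Agent.W_7742n_h74.CDef

/-! # Existence of the extension `b` (compare `W_7742j_h74/JSet.lean`) -/

set_option autoImplicit false

noncomputable section

namespace Pool.Agent.OneN74

open NumberField Pool.Agent.OneI74
open Pool.Agent.OneJ74 (Q h₁ h₂ S mat Q_nonneg prod_det_le eq_zero_of_prod exists_ext)

variable {K A Γ : Type} [Field K] [NumberField K] [CommRing A] [Group Γ] [Fintype Γ] {n : ℕ}
  {C Y : ℕ} {s₀ : K →+* ℂ}
  {ι : 𝓞 K →+* A} {r : Γ →* Matrix (Fin n) (Fin n) A} {f : Γ → 𝓞 K}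

open Classical in
theorem Set2.energy_le (H : Set2 C Y s₀ ι r f) (h : ℕ) :
    ∑ x, (if x ∈ S f h then Q (f x : K) else 0) +
      Module.finrank ℚ K * (h : ℝ) * Nat.card {x // x ∉ S f h} ≤
      C * Module.finrank ℚ K * Fintype.card Γ := by
  have h1 : (Module.finrank ℚ K * (h : ℝ)) * Nat.card {x // x ∉ S f h} =
      ∑ x, (if x ∈ S f h then 0 else Module.finrank ℚ K * (h : ℝ)) := by
    have h2 : ∀ x, (if x ∈ S f h then (0 : ℝ) else Module.finrank ℚ K * (h : ℝ)) =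
        if x ∉ S f h then Module.finrank ℚ K * (h : ℝ) else 0 := fun x => by
      by_cases hx : x ∈ S f h
      · rw [if_pos hx, if_neg (not_not.2 hx)]
      · rw [if_neg hx, if_pos hx]
    simp only [h2]
    rw [← Finset.sum_filter, Finset.sum_const, nsmul_eq_mul, mul_comm, Nat.card_eq_fintype_card,
      Fintype.card_subtype]
  rw [h1, ← Finset.sum_add_distrib]
  refine le_trans (Finset.sum_le_sum fun x _ => ?_) H.hE
  by_cases hx : x ∈ S f h
  · rw [if_pos hx, if_pos hx, add_zero]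
  · rw [if_neg hx, if_neg hx, zero_add]
    exact (not_le.1 hx).le

theorem Set2.card_compl (H : Set2 C Y s₀ ι r f) (h : ℕ) :
    h * Nat.card {x // x ∉ S f (C * h)} ≤ Nat.card Γ := by
  classical
  have h1 := H.energy_le (C * h)
  have h2 : (0 : ℝ) ≤ ∑ x, (if x ∈ S f (C * h) then Q (f x : K) else 0) :=
    Finset.sum_nonneg fun x _ => by
      split_ifs
      · exact Q_nonneg _
      · exact le_refl _
  have hd : (0 : ℝ) < Module.finrank ℚ K := Nat.cast_pos.2 Module.finrank_pos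
  have hC : (0 : ℝ) < C := Nat.cast_pos.2 H.cst.hC
  have h3 : (C * Module.finrank ℚ K : ℝ) * ((h : ℝ) * Nat.card {x // x ∉ S f (C * h)}) ≤
      C * Module.finrank ℚ K * Fintype.card Γ := by
    push_cast at h1
    nlinarith
  have h4 := le_of_mul_le_mul_left h3 (mul_pos hC hd)
  rw [Nat.card_eq_fintype_card (α := Γ)]
  exact_mod_cast h4

theorem Set2.minor_zero (H : Set2 C Y s₀ ι r f) (k x : Fin (n ^ 2 + 1) → Γ)
    (hkx : ∀ i j, k i * x j ∈ S f (C * h₁ n)) : (mat f k x).det = 0 := by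
  have hd : Module.finrank ℚ K ≠ 0 := (Module.finrank_pos (R := ℚ) (M := K)).ne'
  have h1 : mat f k x = (Matrix.of fun i j => f (k i * x j)).map (algebraMap (𝓞 K) K) := rfl
  have h2 : (mat f k x).det = algebraMap (𝓞 K) K (Matrix.of fun i j => f (k i * x j)).det := by
    rw [h1, ← RingHom.mapMatrix_apply, ← RingHom.map_det]
  have h3 : (Matrix.of fun i j => f (k i * x j)).det ∈ RingHom.ker ι := by
    rw [RingHom.mem_ker, RingHom.map_det]
    have h4 : ι.mapMatrix (Matrix.of fun i j => f (k i * x j)) =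
        Matrix.of fun i j => (r (k i) * r (x j)).trace := by
      ext i j
      rw [RingHom.mapMatrix_apply, Matrix.map_apply, Matrix.of_apply, Matrix.of_apply, H.hf,
        map_mul]
    rw [h4]
    exact det_gram (by omega) _ _
  have h5 := prod_det_le (mat f k x) (h := ((C * h₁ n : ℕ) : ℝ)) (fun i j => hkx i j)
  have h6 : ∏ σ : K →+* ℂ, ‖σ (((Matrix.of fun i j => f (k i * x j)).det : 𝓞 K) : K)‖ ^ 2 <
      (Ideal.absNorm (RingHom.ker ι) : ℝ) ^ 2 := by
    have h7 : (((Matrix.of fun i j => f (k i * x j)).det : 𝓞 K) : K) = (mat f k x).det := h2.symm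
    rw [h7]
    refine h5.trans_lt ?_
    have h8 : ((n ^ 2 + 1) * (C * h₁ n)) ^ ((n ^ 2 + 1) * Module.finrank ℚ K) <
        (Ideal.absNorm (RingHom.ker ι)) ^ 2 := by
      calc ((n ^ 2 + 1) * (C * h₁ n)) ^ ((n ^ 2 + 1) * Module.finrank ℚ K)
          = (((n ^ 2 + 1) * (C * h₁ n)) ^ (n ^ 2 + 1)) ^ Module.finrank ℚ K := pow_mul _ _ _
        _ < (Y ^ 2) ^ Module.finrank ℚ K := Nat.pow_lt_pow_left H.cst.i1 hd
        _ = (Y ^ Module.finrank ℚ K) ^ 2 := by rw [← pow_mul, ← pow_mul, mul_comm]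
        _ ≤ (Ideal.absNorm (RingHom.ker ι)) ^ 2 := Nat.pow_le_pow_left H.hN 2
    exact_mod_cast h8
  have h9 := eq_zero_of_prod (RingHom.ker ι) h3 h6
  rw [h2, h9, map_zero]

theorem Set2.exists_bdat (H : Set2 C Y s₀ ι r f) :
    ∃ (ρ : ℕ) (k x : Fin ρ → Γ) (b : Γ → K), BDat2 C Y s₀ ι r f ρ k x b := by
  classical
  let P : ℕ → Prop := fun ρ => ∃ k x : Fin ρ → Γ, (∀ i j, k i * x j ∈ S f (C * h₁ n)) ∧
    (mat f k x).det ≠ 0
  have hP0 : P 0 := ⟨fun _ => 1, fun _ => 1, fun i => i.elim0, by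
    rw [Matrix.det_isEmpty]
    exact one_ne_zero⟩
  have hspec : P (Nat.findGreatest P (n ^ 2)) := Nat.findGreatest_spec (Nat.zero_le _) hP0
  have hle : Nat.findGreatest P (n ^ 2) ≤ n ^ 2 := Nat.findGreatest_le _
  have hgr : ∀ m, Nat.findGreatest P (n ^ 2) < m → m ≤ n ^ 2 → ¬ P m := fun m h1 h2 =>
    Nat.findGreatest_is_greatest h1 h2
  generalize Nat.findGreatest P (n ^ 2) = ρ at hspec hle hgr
  obtain ⟨k, x, hkx, hdet⟩ := hspec
  have hmin : ∀ k' x' : Fin (ρ + 1) → Γ, (∀ i j, k' i * x' j ∈ S f (C * h₁ n)) →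
      (Matrix.of fun i j => ((f (k' i * x' j) : 𝓞 K) : K)).det = 0 := by
    intro k' x' hk
    rcases Nat.lt_or_ge ρ (n ^ 2) with h | h
    · by_contra hne
      exact hgr (ρ + 1) (Nat.lt_succ_self ρ) h ⟨k', x', hk, hne⟩
    · obtain rfl : ρ = n ^ 2 := le_antisymm hle h
      exact H.minor_zero k' x' hk
  have hS : 2 * ρ * (ρ + 1) * Nat.card {g // g ∉ S f (C * h₁ n)} < Nat.card Γ := by
    have h1 := H.card_compl (h₁ n)
    have h2 : 2 * ρ * (ρ + 1) < h₁ n := by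
      unfold h₁
      have : 2 * ρ * (ρ + 1) ≤ 2 * n ^ 2 * (n ^ 2 + 1) :=
        Nat.mul_le_mul (Nat.mul_le_mul_left 2 hle) (Nat.succ_le_succ hle)
      omega
    rcases Nat.eq_zero_or_pos (Nat.card {g // g ∉ S f (C * h₁ n)}) with h0 | h0
    · rw [h0, mul_zero]
      exact Nat.card_pos
    · exact (Nat.mul_lt_mul_of_pos_right h2 h0).trans_le h1
  obtain ⟨b, hb, hfac⟩ :=
    exists_ext (S f (C * h₁ n)) (fun g => ((f g : 𝓞 K) : K)) k x hkx hdet hmin hS
  exact ⟨ρ, k, x, b, H, hle, hkx, hdet, hb, hfac⟩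

end Pool.Agent.OneN74
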