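import Pool.Agent.W_7742n_h74.CMai
import Pool.Agent.W_7742m_h74.MFam
import Pool.Agent.W_7742m_h74.UMod

/-! # Uniqueness: two irreducible representations whose traces agree at most of the primes -/

set_option autoImplicit false

noncomputable section

open Filter Topology NumberField ComplexConjugate

namespace Pool.Agent.OneN74

open Pool.Agent.GalSide Pool.Agent.OneI74 Pool.Agent.OneM74

variable {G : Type} [Group G] [TopologicalSpace G] [IsTopologicalGroup G] [CompactSpace G]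

/-- The mean square of an irreducible character is one. -/
theorem mean_one {Γ : Type} [Group Γ] [Fintype Γ] {n : ℕ} (hn : 0 < n)
    (ρ : Γ →* Matrix (Fin n) (Fin n) ℂ)
    (h : ∀ W : Submodule ℂ (Fin n → ℂ), (∀ g, ∀ w ∈ W, (ρ g).mulVec w ∈ W) → W = ⊥ ∨ W = ⊤) :
    ∑ g, ‖(ρ g).trace‖ ^ 2 = (Fintype.card Γ : ℝ) := by
  obtain ⟨m, hm⟩ := sum_sq ρ
  have h1 := MFam_schur hn ρ h
  have hG : (0 : ℝ) < Fintype.card Γ := by exact_mod_cast Fintype.card_pos
  rw [hm] at h1
  have h2 : m ≤ 1 := by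
    have h3 : (m : ℝ) ≤ 1 := by
      by_contra h4
      have h5 := not_le.1 h4
      nlinarith
    exact_mod_cast h3
  have h3 : m ≠ 0 := by
    rintro rfl
    rw [Nat.cast_zero, mul_zero] at hm
    have h4 := (Finset.sum_eq_zero_iff_of_nonneg (fun g _ => sq_nonneg ‖(ρ g).trace‖)).1 hm 1
      (Finset.mem_univ _)
    rw [map_one, Matrix.trace_one, Fintype.card_fin, Complex.norm_natCast] at h4
    have h5 : (0 : ℝ) < n := by exact_mod_cast hn
    have h6 := pow_pos h5 2
    linarith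
  have h4 : m = 1 := by omega
  rw [hm, h4, Nat.cast_one, mul_one]

/-- Two irreducible characters whose difference has mean square less than two are equal. -/
theorem eq_of_lt_two {Γ : Type} [Group Γ] [Fintype Γ] {n : ℕ}
    (ρ ρ' : Γ →* Matrix (Fin n) (Fin n) ℂ)
    (h : ∑ g, ‖(ρ g).trace‖ ^ 2 = (Fintype.card Γ : ℝ))
    (h' : ∑ g, ‖(ρ' g).trace‖ ^ 2 = (Fintype.card Γ : ℝ))
    (hlt : ∑ g, ‖(ρ g).trace - (ρ' g).trace‖ ^ 2 < 2 * (Fintype.card Γ : ℝ)) (g : Γ) :
    (ρ g).trace = (ρ' g).trace := by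
  obtain ⟨k, hk⟩ := sum_char ρ ρ'
  have hG : (0 : ℝ) < Fintype.card Γ := by exact_mod_cast Fintype.card_pos
  have e1 : ∀ z w : ℂ, ‖z - w‖ ^ 2 = ‖z‖ ^ 2 + ‖w‖ ^ 2 - 2 * (conj z * w).re := by
    intro z w
    rw [← Complex.normSq_eq_norm_sq, ← Complex.normSq_eq_norm_sq, ← Complex.normSq_eq_norm_sq,
      Complex.normSq_apply, Complex.normSq_apply, Complex.normSq_apply, Complex.mul_re,
      Complex.conj_re, Complex.conj_im, Complex.sub_re, Complex.sub_im]
    ring
  have e2 : ∑ g, ‖(ρ g).trace - (ρ' g).trace‖ ^ 2 =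
      2 * (Fintype.card Γ : ℝ) - 2 * ((Fintype.card Γ : ℝ) * k) := by
    simp only [e1]
    rw [Finset.sum_sub_distrib, Finset.sum_add_distrib, h, h', ← Finset.mul_sum, ← Complex.re_sum,
      hk]
    have e3 : ((Fintype.card Γ : ℂ) * (k : ℂ)).re = (Fintype.card Γ : ℝ) * k := by
      have : ((Fintype.card Γ : ℂ) * (k : ℂ)) = (((Fintype.card Γ : ℝ) * k : ℝ) : ℂ) := by
        push_cast
        rfl
      rw [this, Complex.ofReal_re]
    rw [e3]
    ring
  have hk1 : 1 ≤ k := by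
    by_contra hk0
    have : k = 0 := by omega
    subst this
    rw [e2] at hlt
    simp at hlt
  have h2 : ∑ g, ‖(ρ g).trace - (ρ' g).trace‖ ^ 2 ≤ 0 := by
    rw [e2]
    have : (1 : ℝ) ≤ k := by exact_mod_cast hk1
    nlinarith
  have h3 := (Finset.sum_eq_zero_iff_of_nonneg
    (fun g _ => sq_nonneg ‖(ρ g).trace - (ρ' g).trace‖)).1
    (le_antisymm h2 (Finset.sum_nonneg fun g _ => sq_nonneg _)) g (Finset.mem_univ _)
  have h4 : ‖(ρ g).trace - (ρ' g).trace‖ = 0 := by
    exact pow_eq_zero_iff (two_ne_zero) |>.1 h3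
  exact sub_eq_zero.1 (norm_eq_zero.1 h4)

theorem unique_c (Φ : FrobeniusData G) {n : ℕ} (hn : 0 < n) {U U' : Subgroup G} [U.Normal]
    [U'.Normal] (hU : IsOpen (U : Set G)) (hU' : IsOpen (U' : Set G))
    (ρ : G ⧸ U →* Matrix (Fin n) (Fin n) ℂ) (ρ' : G ⧸ U' →* Matrix (Fin n) (Fin n) ℂ)
    (hρ : ∀ W : Submodule ℂ (Fin n → ℂ), (∀ g, ∀ w ∈ W, (ρ g).mulVec w ∈ W) → W = ⊥ ∨ W = ⊤)
    (hρ' : ∀ W : Submodule ℂ (Fin n → ℂ), (∀ g, ∀ w ∈ W, (ρ' g).mulVec w ∈ W) → W = ⊥ ∨ W = ⊤)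
    (a : Nat.Primes → ℂ) {δ δ' : ℝ}
    (h : UpLE {p | a p ≠ (ρ (QuotientGroup.mk (Φ.frob p))).trace} δ)
    (h' : UpLE {p | a p ≠ (ρ' (QuotientGroup.mk (Φ.frob p))).trace} δ')
    (hδ : 4 * (n : ℝ) ^ 2 * (δ + δ') < 2) (g : G) :
    (ρ (QuotientGroup.mk g)).trace = (ρ' (QuotientGroup.mk g)).trace := by
  classical
  have hVo : IsOpen ((U ⊓ U' : Subgroup G) : Set G) := by
    rw [Subgroup.coe_inf]
    exact hU.inter hU'
  have hfin : Finite (G ⧸ (U ⊓ U')) := Subgroup.quotient_finite_of_isOpen (U ⊓ U') hVo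
  let _ : Fintype (G ⧸ (U ⊓ U')) := Fintype.ofFinite _
  let π₁ : G ⧸ (U ⊓ U') →* G ⧸ U := QuotientGroup.map (U ⊓ U') U (MonoidHom.id G) (by
    intro x hx
    exact hx.1)
  let π₂ : G ⧸ (U ⊓ U') →* G ⧸ U' := QuotientGroup.map (U ⊓ U') U' (MonoidHom.id G) (by
    intro x hx
    exact hx.2)
  have hπ₁ : ∀ x : G, π₁ (QuotientGroup.mk x) = QuotientGroup.mk x := fun x => rfl
  have hπ₂ : ∀ x : G, π₂ (QuotientGroup.mk x) = QuotientGroup.mk x := fun x => rfl
  have hn1 : ∀ x, ‖((ρ.comp π₁) x).trace‖ ≤ n := by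
    intro x
    refine norm_trace_le (m := Fintype.card (G ⧸ (U ⊓ U'))) Fintype.card_pos _ ?_
    rw [← map_pow, pow_card_eq_one, map_one]
  have hn2 : ∀ x, ‖((ρ'.comp π₂) x).trace‖ ≤ n := by
    intro x
    refine norm_trace_le (m := Fintype.card (G ⧸ (U ⊓ U'))) Fintype.card_pos _ ?_
    rw [← map_pow, pow_card_eq_one, map_one]
  have m1 := mean_one hn (ρ.comp π₁) (fun W hW => hρ W fun y w hw => by
    obtain ⟨x, rfl⟩ := QuotientGroup.mk_surjective y
    exact hW (QuotientGroup.mk x) w hw)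
  have m2 := mean_one hn (ρ'.comp π₂) (fun W hW => hρ' W fun y w hw => by
    obtain ⟨x, rfl⟩ := QuotientGroup.mk_surjective y
    exact hW (QuotientGroup.mk x) w hw)
  set X : Set Nat.Primes := {p | a p ≠ (ρ (QuotientGroup.mk (Φ.frob p))).trace} with hX
  set X' : Set Nat.Primes := {p | a p ≠ (ρ' (QuotientGroup.mk (Φ.frob p))).trace} with hX'
  have hn0 : (0 : ℝ) < n := by exact_mod_cast hn
  have key := energy_gen Φ
    (a := fun p => 4 * (n : ℝ) ^ 2 * (X.indicator (fun q : Nat.Primes => (1 : ℝ)) p +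
      X'.indicator (fun q : Nat.Primes => (1 : ℝ)) p)) (fun p => by
        have h1 : 0 ≤ X.indicator (fun q : Nat.Primes => (1 : ℝ)) p :=
          Set.indicator_nonneg (fun _ _ => zero_le_one) _
        have h2 : 0 ≤ X'.indicator (fun q : Nat.Primes => (1 : ℝ)) p :=
          Set.indicator_nonneg (fun _ _ => zero_le_one) _
        positivity) (c := 4 * (n : ℝ) ^ 2 * (δ + δ')) (by
        intro ε hε
        have hη : 0 < ε / (8 * (n : ℝ) ^ 2) := by positivity
        filter_upwards [h _ hη, h' _ hη, Chb_gt] with s h1 h2 hs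
        have h3 := ((Chb_summable hs X).hasSum.add (Chb_summable hs X').hasSum).mul_left
          (4 * (n : ℝ) ^ 2)
        have e0 : ∀ (T : Set Nat.Primes) (p : Nat.Primes),
            T.indicator (fun q : Nat.Primes => (1 : ℝ)) p * ((p : ℕ) : ℝ) ^ (-s) =
            T.indicator (fun q : Nat.Primes => ((q : ℕ) : ℝ) ^ (-s)) p := by
          intro T p
          by_cases hT : p ∈ T
          · rw [Set.indicator_of_mem hT, Set.indicator_of_mem hT, one_mul]
          · rw [Set.indicator_of_notMem hT, Set.indicator_of_notMem hT, zero_mul]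
        have e1 : (fun p : Nat.Primes => 4 * (n : ℝ) ^ 2 *
            (X.indicator (fun q : Nat.Primes => (1 : ℝ)) p +
            X'.indicator (fun q : Nat.Primes => (1 : ℝ)) p) * ((p : ℕ) : ℝ) ^ (-s)) =
            fun p : Nat.Primes => 4 * (n : ℝ) ^ 2 *
              (X.indicator (fun q : Nat.Primes => ((q : ℕ) : ℝ) ^ (-s)) p +
              X'.indicator (fun q : Nat.Primes => ((q : ℕ) : ℝ) ^ (-s)) p) := by
          funext p
          rw [← e0, ← e0]
          ring
        rw [e1]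
        refine ⟨h3.summable, ?_⟩
        rw [h3.tsum_eq]
        have h4 : primeSum X s + primeSum X' s ≤
            (δ + δ' + 2 * (ε / (8 * (n : ℝ) ^ 2))) * Real.log (1 / (s - 1)) := by
          linarith
        have h5 := mul_le_mul_of_nonneg_left h4 (by positivity : (0 : ℝ) ≤ 4 * (n : ℝ) ^ 2)
        refine h5.trans (le_of_eq ?_)
        field_simp
        ring)
    (U ⊓ U') hVo (fun x => ‖((ρ.comp π₁) x).trace - ((ρ'.comp π₂) x).trace‖ ^ 2)
    (fun x y => by
      simp only [map_mul]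
      rw [Matrix.trace_mul_comm, Matrix.trace_mul_comm ((ρ'.comp π₂) x)])
    (Z := ∅) (by
      have := Pool.Agent.OneM74.UMod_empty
      exact this) (fun p _ => by
      have e1 : ((ρ.comp π₁) (QuotientGroup.mk (Φ.frob p))).trace =
        (ρ (QuotientGroup.mk (Φ.frob p))).trace := rfl
      have e2 : ((ρ'.comp π₂) (QuotientGroup.mk (Φ.frob p))).trace =
        (ρ' (QuotientGroup.mk (Φ.frob p))).trace := rfl
      have hb : ‖((ρ.comp π₁) (QuotientGroup.mk (Φ.frob p))).trace -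
          ((ρ'.comp π₂) (QuotientGroup.mk (Φ.frob p))).trace‖ ^ 2 ≤ 4 * (n : ℝ) ^ 2 * 1 := by
        have h1 := norm_sub_le ((ρ.comp π₁) (QuotientGroup.mk (Φ.frob p))).trace
          ((ρ'.comp π₂) (QuotientGroup.mk (Φ.frob p))).trace
        have h2 := hn1 (QuotientGroup.mk (Φ.frob p))
        have h3 := hn2 (QuotientGroup.mk (Φ.frob p))
        have h4 := norm_nonneg (((ρ.comp π₁) (QuotientGroup.mk (Φ.frob p))).trace -
          ((ρ'.comp π₂) (QuotientGroup.mk (Φ.frob p))).trace)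
        nlinarith
      have i1 : 0 ≤ X.indicator (fun q : Nat.Primes => (1 : ℝ)) p :=
          Set.indicator_nonneg (fun _ _ => zero_le_one) _
      have i2 : 0 ≤ X'.indicator (fun q : Nat.Primes => (1 : ℝ)) p :=
          Set.indicator_nonneg (fun _ _ => zero_le_one) _
      by_cases hpX : p ∈ X
      · refine hb.trans (mul_le_mul_of_nonneg_left ?_ (by positivity))
        rw [Set.indicator_of_mem hpX]
        linarith
      · by_cases hpX' : p ∈ X'
        · refine hb.trans (mul_le_mul_of_nonneg_left ?_ (by positivity))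
          rw [Set.indicator_of_mem hpX']
          linarith
        · have h1 : a p = (ρ (QuotientGroup.mk (Φ.frob p))).trace := not_not.1 hpX
          have h2 : a p = (ρ' (QuotientGroup.mk (Φ.frob p))).trace := not_not.1 hpX'
          rw [e1, e2, ← h1, ← h2, sub_self, norm_zero, zero_pow two_ne_zero]
          exact mul_nonneg (by positivity) (add_nonneg i1 i2))
  have hG : (0 : ℝ) < Fintype.card (G ⧸ (U ⊓ U')) := by exact_mod_cast Fintype.card_pos
  have hlt : ∑ x, ‖((ρ.comp π₁) x).trace - ((ρ'.comp π₂) x).trace‖ ^ 2 <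
      2 * (Fintype.card (G ⧸ (U ⊓ U')) : ℝ) :=
    key.trans_lt (mul_lt_mul_of_pos_right hδ hG)
  exact eq_of_lt_two (ρ.comp π₁) (ρ'.comp π₂) m1 m2 hlt (QuotientGroup.mk g)

end Pool.Agent.OneN74
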