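import Pool.Agent.W_7742n_h74.NMain

/-! A criterion for one cuspidal representation of `GL_n` over `ℚ` to belong to an Artin motive. -/

namespace Pool.Agent.W_7742n_h74.CritResult

open NumberField Polynomial Pool.Agent.GLForm74 Pool.Agent.Crit74

/-- Let `n ≥ 2`, `N ≥ 1`, and let `P p`, `p` prime, be polynomials over `ℂ`, monic of degree `n` if `p`
does not divide `N`, which are the Hecke polynomials of a cusp form on `GL_n` over `ℚ` of level `N`.  Let
`V` be a set of primes which do not divide `N`.

(1) Let `K`, a number field of degree `d` embedded in `ℂ` by `s₀`, and `Q p` over `𝓞 K` be a model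
(`IsModel`): `Q p = P p` for `p ∈ V`, the traces of `Q p` and `P p` are equal for all `p` outside a set of
density zero, and the absolute values of the conjugates of the traces have mean square at most `M`.  The
following are equivalent.

(a) There are a number field `E ⊆ ℂ` and an absolutely irreducible representation `R : G_ℚ → GL_n(E)` with
open kernel such that `tr R(F p)` is the trace of `P p` for all `p` outside a set of density zero, and such
that `R` is unramified at `p` and `char R(F p) = P p` for all `p ∈ V`.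

(b) For every ideal `𝔞 ≠ 0` of `𝓞 K` there are a commutative ring `A ⊇ 𝓞 K / 𝔞` and a representation
`r : G_ℚ → GL_n(A)` with open kernel with the same properties for `Q p` in `A`.

(c) For every `B` there are finitely many ideals whose intersection has norm at least `B`, with
representations as in (b) for the empty set instead of `V`, and, for every `p ∈ V`, finitely many ideals
whose intersection has norm at least `B`, with representations as in (b) for the set `{p}`.

If `M ≤ 1` then in (c) the bounds `B = Y ^ d`, `Y = (2 n) ^ (3 (n ^ 2 + 1))`, for the empty set, and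
`B = (Y y ^ n) ^ d` for the sets `{p}` suffice, where `y ≥ 1` is any bound for the absolute values of the
roots of the conjugates of `Q p`; and for every representation `r` as in (b), for the empty set, over a
ring `A` such that the kernel of `𝓞 K → A` has norm at least `Y ^ d`, there is `R` as in (a), for the empty
set, which is trivial on the kernel of `r`.

(2) If (a) holds then there is a model with `M = 1`, given by monic polynomials of degree `n` whose
conjugates have roots of absolute value at most `1`.

(3) If `Q p` are polynomials over `𝓞 K`, monic of degree `n` if `p` does not divide `N`, such that for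
every embedding `s` of `K` the `s (Q p)` or their complex conjugates are the Hecke polynomials of a cusp
form on `GL_n` of level `N` then the absolute values of the conjugates of the traces of the `Q p` have mean
square at most `1`, and the roots of the conjugates of `Q p` have absolute value at most `p ^ (1 / 2)` if
`p` does not divide `N`. -/
theorem result (n N : ℕ) (hn : 2 ≤ n) (hN : 0 < N) (P : ℕ → ℂ[X])
    (hP : ∀ p : ℕ, p.Prime → ¬ p ∣ N → (P p).Monic ∧ (P p).natDegree = n)
    (hc : IsCuspidalSystem N P n) (F : Nat.Primes → GQ) (hF : IsFrobeniusChoice F)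
    (V : Set Nat.Primes) (hV : ∀ p ∈ V, ¬ (p : ℕ) ∣ N) :
    (∀ (K : Type) [Field K] [NumberField K] (s₀ : K →+* ℂ) (Q : ℕ → (𝓞 K)[X]) (M : ℝ),
      IsModel n P V s₀ Q M →
      [HasMotive n F P V ⊥,
        ∀ 𝔞 : Ideal (𝓞 K), 𝔞 ≠ ⊥ → HasMod n F Q V 𝔞,
        ∀ B : ℝ, ModAbove n F Q ∅ B ∧ ∀ p ∈ V, ModAbove n F Q {p} B].TFAE ∧
      (M ≤ 1 →
        (HasMotive n F P V ⊥ ↔
          ModAbove n F Q ∅ (((2 * n) ^ (3 * (n ^ 2 + 1))) ^ Module.finrank ℚ K) ∧
          ∀ p ∈ V, ∃ y : ℝ, 1 ≤ y ∧ RootsLE (Q p) y ∧
            ModAbove n F Q {p} (((2 * n) ^ (3 * (n ^ 2 + 1)) * y ^ n) ^ Module.finrank ℚ K)) ∧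
        ∀ (A : Type) [CommRing A] (ι : 𝓞 K →+* A),
          (2 * n) ^ (3 * (n ^ 2 + 1) * Module.finrank ℚ K) ≤ Ideal.absNorm (RingHom.ker ι) →
          ∀ r : GQ →* GL (Fin n) A, Attached F Q ∅ ι r → HasMotive n F P ∅ r.ker)) ∧
    (HasMotive n F P V ⊥ →
      ∃ (K : Type) (_ : Field K) (_ : NumberField K) (s₀ : K →+* ℂ) (Q : ℕ → (𝓞 K)[X]),
        IsModel n P V s₀ Q 1 ∧
        ∀ p : Nat.Primes, (Q p).Monic ∧ (Q p).natDegree = n ∧ RootsLE (Q p) 1) ∧
    ∀ (K : Type) [Field K] [NumberField K] (Q : ℕ → (𝓞 K)[X]),
      (∀ p : ℕ, p.Prime → ¬ p ∣ N → (Q p).Monic ∧ (Q p).natDegree = n) →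
      (∀ s : K →+* ℂ,
        IsCuspidalSystem N (fun p => (Q p).map (s.comp (algebraMap (𝓞 K) K))) n ∨
        IsCuspidalSystem N (fun p => (Q p).map
          ((starRingEnd ℂ).comp (s.comp (algebraMap (𝓞 K) K)))) n) →
      (∀ s : K →+* ℂ, MeanLE 1 fun p => ‖s ((Q p).coeff (n - 1) : K)‖ ^ 2) ∧
        ∀ p : Nat.Primes, ¬ (p : ℕ) ∣ N → RootsLE (Q p) (Real.sqrt (p : ℕ)) := by
  refine ⟨fun K _ _ s₀ Q M hm => ⟨tfae hn hN hP hc hF hV hm, fun hM => ⟨?_, ?_⟩⟩,
    exists_model (by omega) hF, fun K _ _ Q hQ hs => mean_of_all hn hN Q hQ hs⟩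
  · exact iff_one hn hN hP hc hF hV hM hm
  · intro A _ ι hι r hr
    refine one_motive hn hN hc hF hM hm ι ?_ r hr
    rw [← pow_mul]
    exact_mod_cast hι

end Pool.Agent.W_7742n_h74.CritResult
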