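import Pool.Agent.W_7742n_h74.NLoc

/-! # A representation gives a model -/

set_option autoImplicit false

noncomputable section

open Filter Topology

namespace Pool.Agent.Crit74

open NumberField Polynomial
open Pool.Agent.OneM74 Pool.Agent.GalSide Pool.Agent.OneP74 Pool.Agent.OneI74 Pool.Agent.OneN74
open Pool.Agent.Cheb

variable {n : ℕ}

theorem exists_Q {E : Type} [Field E] [NumberField E] {m : ℕ} (hm : 0 < m)
    (M : Matrix (Fin n) (Fin n) E) (hM : M ^ m = 1) :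
    ∃ Q : (𝓞 E)[X], Q.map (algebraMap (𝓞 E) E) = M.charpoly := by
  rw [← Polynomial.mem_lifts, Polynomial.lifts_iff_coeff_lifts]
  intro k
  obtain ⟨s⟩ : Nonempty (E →+* ℂ) := inferInstance
  have hMs : (M.map s) ^ m = 1 := by
    rw [← RingHom.mapMatrix_apply, ← map_pow, hM, map_one]
  have h1 : IsIntegral ℤ ((M.map s).charpoly.coeff k) := by
    refine Polynomial.isIntegral_coeff_of_factors _ ?_ (IsAlgClosed.splits _) ?_ k
    · rw [(Matrix.charpoly_monic _).leadingCoeff]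
      exact isIntegral_one
    · intro x hx
      have h2 : x ^ m = 1 := Pool.Agent.DZ74.FIdn_root (M.map s) hMs
        ((Polynomial.mem_roots (Matrix.charpoly_monic _).ne_zero).2 hx)
      refine IsIntegral.of_pow hm ?_
      rw [h2]
      exact isIntegral_one
  have h2 : IsIntegral ℤ (M.charpoly.coeff k) := by
    refine (isIntegral_algHom_iff s.toIntAlgHom s.injective).1 ?_
    rw [Matrix.charpoly_map, Polynomial.coeff_map] at h1
    exact h1
  exact ⟨⟨_, h2⟩, rfl⟩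

theorem mean_of_rep (hn : 0 < n) {F : Nat.Primes → GQ} (hF : IsFrobeniusChoice F)
    (R : GQ →* GL (Fin n) ℂ) (ho : IsOpen (R.ker : Set GQ))
    (hi : ∀ W : Submodule ℂ (Fin n → ℂ), (∀ g, ∀ w ∈ W, (R g).val.mulVec w ∈ W) →
      W = ⊥ ∨ W = ⊤) (a : Nat.Primes → ℝ) (ha : ∀ p, a p = ‖(R (F p)).val.trace‖ ^ 2) :
    MeanLE 1 a := by
  classical
  have hF' := hF
  choose 𝔓 h𝔓 hp hFr using hF'
  have hfin : Finite (GQ ⧸ R.ker) := Subgroup.quotient_finite_of_isOpen R.ker ho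
  have := Fintype.ofFinite (GQ ⧸ R.ker)
  obtain ⟨ρ, hρ⟩ : ∃ ρ : GQ ⧸ R.ker →* Matrix (Fin n) (Fin n) ℂ,
      ∀ g, ρ (QuotientGroup.mk g) = (R g).val :=
    ⟨(Units.coeHom _).comp (QuotientGroup.kerLift R), fun g => rfl⟩
  have hρi : ∀ W : Submodule ℂ (Fin n → ℂ), (∀ g, ∀ w ∈ W, (ρ g).mulVec w ∈ W) →
      W = ⊥ ∨ W = ⊤ := by
    intro W hW
    refine hi W fun g w hw => ?_
    rw [← hρ]
    exact hW _ w hw
  have hcl : ∀ x y : GQ ⧸ R.ker, IsConj x y → ‖(ρ x).trace‖ ^ 2 = ‖(ρ y).trace‖ ^ 2 := by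
    intro x y hxy
    obtain ⟨c, hc⟩ := isConj_iff.1 hxy
    have h1 : (ρ y).trace = (ρ x).trace := by
      rw [← hc, map_mul, Matrix.trace_mul_comm, ← map_mul]
      congr 2
      group
    rw [h1]
  have h1 := tendsto_mean (frobeniusData 𝔓 h𝔓 hp F hFr) R.ker ho
    (fun x => ‖(ρ x).trace‖ ^ 2) hcl
  have hG : (0 : ℝ) < Fintype.card (GQ ⧸ R.ker) := by exact_mod_cast Fintype.card_pos
  have h2 : (∑ x, ‖(ρ x).trace‖ ^ 2) / (Fintype.card (GQ ⧸ R.ker) : ℝ) ≤ 1 := by
    rw [div_le_one hG]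
    exact MFam_schur hn ρ hρi
  have h3 : ∀ p : Nat.Primes, ‖(ρ (QuotientGroup.mk (F p))).trace‖ ^ 2 = a p := by
    intro p
    rw [hρ, ha]
  intro ε hε
  have h4 := h1.eventually_lt_const (h2.trans_lt (by linarith : (1 : ℝ) < 1 + ε))
  have hgt : ∀ᶠ s : ℝ in 𝓝[>] 1, 1 < s := Chb_gt
  filter_upwards [h4, Chb_log.eventually_gt_atTop 0, hgt] with s h5 hL hs
  constructor
  · have h6 : ∀ p, a p ≤ (n : ℝ) ^ 2 := by
      intro p
      rw [ha]
      refine pow_le_pow_left₀ (norm_nonneg _) ?_ 2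
      refine norm_trace_le (m := Nat.card (GQ ⧸ R.ker)) Nat.card_pos _ ?_
      rw [← hρ, ← map_pow, pow_card_eq_one', map_one]
    refine Summable.of_nonneg_of_le (fun p => ?_) (fun p => mul_le_mul_of_nonneg_right (h6 p)
      (Real.rpow_nonneg (Nat.cast_nonneg _) _))
      ((Nat.Primes.summable_rpow.2 (by linarith : -s < -1)).mul_left ((n : ℝ) ^ 2))
    rw [ha]
    exact mul_nonneg (sq_nonneg _) (Real.rpow_nonneg (Nat.cast_nonneg _) _)
  · rw [div_lt_iff₀ hL] at h5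
    refine le_trans (le_of_eq ?_) h5.le
    refine tsum_congr fun p => ?_
    rw [← h3]
    rfl

theorem exists_model (hn : 0 < n) {F : Nat.Primes → GQ} (hF : IsFrobeniusChoice F) {P : ℕ → ℂ[X]}
    {V : Set Nat.Primes} (h : HasMotive n F P V ⊥) :
    ∃ (K : Type) (_ : Field K) (_ : NumberField K) (s₀ : K →+* ℂ) (Q : ℕ → (𝓞 K)[X]),
      IsModel n P V s₀ Q 1 ∧
        ∀ p : Nat.Primes, (Q p).Monic ∧ (Q p).natDegree = n ∧ RootsLE (Q p) 1 := by
  classical
  obtain ⟨E, iE, iN, i, R, hirr, -, ho, hd, hV⟩ := h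
  have hne : Nonempty (Fin n) := ⟨⟨0, hn⟩⟩
  rw [GLmap_ker i i.injective] at ho
  have hfin : Finite (GQ ⧸ R.ker) := Subgroup.quotient_finite_of_isOpen R.ker ho
  have hRm : ∀ g, (R g).val ^ Nat.card (GQ ⧸ R.ker) = 1 := by
    intro g
    have h1 : g ^ Nat.card (GQ ⧸ R.ker) ∈ R.ker := by
      rw [← QuotientGroup.eq_one_iff, QuotientGroup.mk_pow, pow_card_eq_one']
    rw [← Units.val_pow_eq_pow_val, ← map_pow, MonoidHom.mem_ker.1 h1]
    rfl
  have hQ : ∀ p : ℕ, ∃ Q : (𝓞 E)[X], ∀ hp : p.Prime,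
      Q.map (algebraMap (𝓞 E) E) = (R (F ⟨p, hp⟩)).val.charpoly := by
    intro p
    by_cases hp : p.Prime
    · obtain ⟨Q, hQ⟩ := exists_Q Nat.card_pos (R (F ⟨p, hp⟩)).val (hRm _)
      exact ⟨Q, fun _ => hQ⟩
    · exact ⟨0, fun h => absurd h hp⟩
  choose Q hQ using hQ
  have hQ' : ∀ p : Nat.Primes, (Q p).map (algebraMap (𝓞 E) E) = (R (F p)).val.charpoly :=
    fun p => hQ p p.2
  have htr : ∀ (s : E →+* ℂ) (p : Nat.Primes), s ((Q p).coeff (n - 1) : E) =
      -(((Matrix.GeneralLinearGroup.map s).comp R) (F p)).val.trace := by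
    intro s p
    have h1 : ((Q p).coeff (n - 1) : E) = -(R (F p)).val.trace := by
      have h2 := congrArg (fun f => Polynomial.coeff f (n - 1)) (hQ' p)
      simp only [Polynomial.coeff_map] at h2
      rw [Matrix.trace_eq_neg_charpoly_coeff, Fintype.card_fin, ← h2, neg_neg]
    rw [h1, map_neg, GLmap_val, map_trace']
  refine ⟨E, iE, iN, i, Q, ⟨?_, ?_, ?_⟩, ?_⟩
  · refine dens_mono hd fun p hp hx => hp ?_
    rw [htr, hx, RingHom.id_apply, neg_neg]
  · intro p hp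
    rw [← Polynomial.map_map, hQ' p, ← Matrix.charpoly_map, ← GLmap_val, (hV p hp).2,
      Polynomial.map_id]
  · intro s
    refine mean_of_rep hn hF ((Matrix.GeneralLinearGroup.map s).comp R) ?_ ?_ _ fun p => ?_
    · rw [GLmap_ker s s.injective]
      exact ho
    · intro W hW
      exact hirr s W hW
    · rw [htr, norm_neg]
  · intro p
    have hinj : Function.Injective (algebraMap (𝓞 E) E) := RingOfIntegers.coe_injective
    refine ⟨Polynomial.monic_of_injective hinj (by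
      rw [hQ' p]
      exact Matrix.charpoly_monic _), by
      rw [← Polynomial.natDegree_map_eq_of_injective hinj, hQ' p,
        Matrix.charpoly_natDegree_eq_dim, Fintype.card_fin], ?_⟩
    intro s α hα
    rw [← Polynomial.map_map, hQ' p, ← Matrix.charpoly_map] at hα
    have h1 : ((R (F p)).val.map s) ^ Nat.card (GQ ⧸ R.ker) = 1 := by
      rw [← RingHom.mapMatrix_apply, ← map_pow, hRm, map_one]
    exact (Complex.norm_eq_one_of_pow_eq_one (Pool.Agent.DZ74.FIdn_root _ h1 hα)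
      Nat.card_pos.ne').le

end Pool.Agent.Crit74
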