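import Pool.Agent.W_7742m_h74.MAsm
import Pool.Agent.W_7742j_h74.JMai

/-! # One representation modulo one ideal, mean squares at most one: the abstract form of `final_E` -/

set_option autoImplicit false

noncomputable section

open Filter Topology NumberField

namespace Pool.Agent.OneN74

open Pool.Agent.Cheb Pool.Agent.GalSide Pool.Agent.OneI74 Pool.Agent.OneM74
open Pool.Agent.OneJ74 (YY main3 LiftsTr LiftsCh liftsCh_of_liftsTr)

variable {K : Type} [Field K] [NumberField K] {n : ℕ}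

/-- The representations over `ℂ`. -/
theorem one_C (hn : 0 < n) (b : Nat.Primes → 𝓞 K)
    (hRS : ∀ σ : K →+* ℂ, ∀ ε : ℝ, 0 < ε → LogBound (1 + ε) (fun p => ‖σ (b p : K)‖ ^ 2))
    {Fr : Nat.Primes → AbsGal ℚ} (hFr : Pool.Agent.OneP74.IsFrobeniusFamily Fr)
    {A : Type} [CommRing A] (ι : 𝓞 K →+* A)
    (hN : YY n ^ Module.finrank ℚ K ≤ Ideal.absNorm (RingHom.ker ι))
    (r : AbsGal ℚ →* GL (Fin n) A) (hr : IsOpen (r.ker : Set (AbsGal ℚ)))
    (hc : HasDensity {p : Nat.Primes | (r (Fr p)).val.trace ≠ ι (b p)} 0) (s : K →+* ℂ) :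
    ∃ R : AbsGal ℚ →* GL (Fin n) ℂ, IsArtin R ∧ r.ker ≤ R.ker ∧
      HasDensity {p : Nat.Primes | (R (Fr p)).val.trace ≠ s (b p : K)} 0 ∧
      LiftsTr ι r s R := by
  classical
  have hne : Nonempty (Fin n) := ⟨⟨0, hn⟩⟩
  choose 𝔓 h𝔓 hp hF using hFr
  obtain ⟨𝔟, U, hU, β, -, kb, -, k3, k4, -, k6, k7, k8, -⟩ :=
    main3 (frobeniusData 𝔓 h𝔓 hp Fr hF) b hRS ι hn hN ((Units.coeHom _).comp r)
      (Pool.Agent.OneI74.isOpen_ker r hr) hc
  have hfin : Finite (AbsGal ℚ ⧸ U) := Subgroup.quotient_finite_of_isOpen U k3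
  set m := Nat.card (AbsGal ℚ ⧸ U) with hm
  have hmp : 0 < m := Nat.card_pos
  choose R hRt hRi using k8
  have hRm : ∀ σ x, R σ x ^ m = 1 := by
    intro σ x
    rw [← map_pow, hm, pow_card_eq_one', map_one]
  let R' : AbsGal ℚ →* GL (Fin n) ℂ := ((R s).comp (QuotientGroup.mk' U)).toHomUnits
  have hR' : ∀ g, (R' g).val = R s (QuotientGroup.mk g) := fun g => rfl
  have hU1 : ∀ g ∈ U, R' g = 1 := by
    intro g hg
    apply Units.ext
    rw [hR', (QuotientGroup.eq_one_iff g).2 hg, map_one]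
    rfl
  refine ⟨R', ⟨?_, ?_⟩, ?_, ?_, ?_⟩
  · exact Subgroup.isOpen_mono (H₁ := U) (fun g hg => MonoidHom.mem_ker.2 (hU1 g hg)) k3
  · intro W hW
    refine hRi s W fun g w hw => ?_
    obtain ⟨g, rfl⟩ := QuotientGroup.mk_surjective g
    exact hW g w hw
  · intro g hg
    exact hU1 g (k4 g (congrArg Units.val (MonoidHom.mem_ker.1 hg)))
  · refine Pool.Agent.OneP74.density_union k7 Set.finite_empty ?_
    intro p hp
    refine Or.inl fun hx => hp ?_
    rw [hR', hRt, hx]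
    rfl
  · intro g x B hB hx hNB hrx
    have e1 := k6 g x hrx.symm
    have e2 : x - β (QuotientGroup.mk g) = 0 := by
      refine eq_zero_of_small 𝔟 e1 (X := B + n) (fun σ => ?_) ?_
      · have e3 : ((x - β (QuotientGroup.mk g) : 𝓞 K) : K) =
            (x : K) - (β (QuotientGroup.mk g) : K) := by push_cast; ring
        rw [e3, map_sub]
        refine (norm_sub_le _ _).trans (add_le_add (hx σ) ?_)
        rw [← hRt σ]
        exact norm_trace_le hmp _ (hRm σ _)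
      · have e4 : ((n : ℝ) ^ (2 * n ^ 2)) ^ Module.finrank ℚ K * (B + n) ^ Module.finrank ℚ K <
            ((n : ℝ) ^ (2 * n ^ 2)) ^ Module.finrank ℚ K * (Ideal.absNorm 𝔟 : ℝ) := by
          rw [← mul_pow]
          refine hNB.trans_le ?_
          exact_mod_cast kb
        exact lt_of_mul_lt_mul_left e4 (by positivity)
    rw [hR', hRt, ← sub_eq_zero.1 e2]

/-- From the complex representations to one over a number field. -/
theorem toE (hn : 0 < n) (b : Nat.Primes → 𝓞 K)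
    {Fr : Nat.Primes → AbsGal ℚ} (hFr : Pool.Agent.OneP74.IsFrobeniusFamily Fr)
    (R : (K →+* ℂ) → AbsGal ℚ →* GL (Fin n) ℂ) (hA : ∀ s, IsArtin (R s))
    (hd : ∀ s, HasDensity {p : Nat.Primes | (R s (Fr p)).val.trace ≠ s (b p : K)} 0) :
    ∃ (E : Type) (_ : Field E) (_ : NumberField E) (i : K →+* E) (R' : AbsGal ℚ →* GL (Fin n) E),
      IsArtinE R' ∧ (∀ s, (R s).ker = R'.ker) ∧
      HasDensity {p : Nat.Primes | (R' (Fr p)).val.trace ≠ i (b p : K)} 0 ∧
      ∃ s : K →+* ℂ, ∀ (g : AbsGal ℚ) (P : Polynomial K),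
        (R' g).val.charpoly = P.map i ↔ (R s g).val.charpoly = P.map s := by
  obtain ⟨E, _, _, i, R', hR'o, hker, hchar⟩ :=
    exists_numberField hFr R (fun s => (hA s).1) b hd
  obtain ⟨τ⟩ : Nonempty (E →+* ℂ) := inferInstance
  have hτ : Function.Injective τ := τ.injective
  have hc1 : ∀ g, (R' g).val.charpoly.map τ = (R (τ.comp i) g).val.charpoly := fun g => hchar τ g
  have hc2 : ∀ g, τ (R' g).val.trace = (R (τ.comp i) g).val.trace := fun g =>
    MAsm_trace hn τ _ _ (hc1 g)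
  refine ⟨E, inferInstance, inferInstance, i, R', ⟨hR'o, fun τ' W hW => ?_⟩, hker, ?_,
    τ.comp i, fun g P => ?_⟩
  · let Rτ : AbsGal ℚ →* GL (Fin n) ℂ := (Matrix.GeneralLinearGroup.map τ').comp R'
    have hRτ : ∀ g, (Rτ g).val = (R' g).val.map τ' := fun g => rfl
    have hopen : IsOpen (Rτ.ker : Set (AbsGal ℚ)) := by
      refine Subgroup.isOpen_mono (H₁ := R'.ker) (fun g hg => MonoidHom.mem_ker.2 ?_) hR'o
      rw [MonoidHom.comp_apply, MonoidHom.mem_ker.1 hg, map_one]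
    have hch : ∀ g, (R (τ'.comp i) g).val.charpoly = (Rτ g).val.charpoly := by
      intro g
      rw [hRτ, Matrix.charpoly_map, hchar τ' g]
    exact (irreducible_of_charpoly (hA (τ'.comp i)) hopen hch).2 W hW
  · refine Pool.Agent.OneP74.density_union (hd (τ.comp i)) Set.finite_empty ?_
    intro p hp
    refine Or.inl fun hx => hp ?_
    apply hτ
    rw [hc2, hx]
    rfl
  · rw [← hc1 g, ← Polynomial.map_map]
    exact (Polynomial.map_injective τ hτ).eq_iff.symm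

/-- One representation modulo one ideal. -/
theorem one_E (hn : 0 < n) (b : Nat.Primes → 𝓞 K)
    (hRS : ∀ σ : K →+* ℂ, ∀ ε : ℝ, 0 < ε → LogBound (1 + ε) (fun p => ‖σ (b p : K)‖ ^ 2))
    {Fr : Nat.Primes → AbsGal ℚ} (hFr : Pool.Agent.OneP74.IsFrobeniusFamily Fr)
    {A : Type} [CommRing A] (ι : 𝓞 K →+* A)
    (hN : YY n ^ Module.finrank ℚ K ≤ Ideal.absNorm (RingHom.ker ι))
    (r : AbsGal ℚ →* GL (Fin n) A) (hr : IsOpen (r.ker : Set (AbsGal ℚ)))
    (hc : HasDensity {p : Nat.Primes | (r (Fr p)).val.trace ≠ ι (b p)} 0) :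
    ∃ (E : Type) (_ : Field E) (_ : NumberField E) (i : K →+* E) (R : AbsGal ℚ →* GL (Fin n) E),
      IsArtinE R ∧ r.ker ≤ R.ker ∧
      HasDensity {p : Nat.Primes | (R (Fr p)).val.trace ≠ i (b p : K)} 0 ∧ LiftsChE ι r i R := by
  choose R hA hk hd hTr using fun s : K →+* ℂ => one_C hn b hRS hFr ι hN r hr hc s
  obtain ⟨E, hE1, hE2, i, R', h1, h2, h3, s, h4⟩ := toE hn b hFr R hA hd
  refine ⟨E, hE1, hE2, i, R', h1, (hk s).trans (h2 s).le, h3, ?_⟩
  intro g P ρ hP hdeg hρ hro hNB hrP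
  exact (h4 _ _).2 (liftsCh_of_liftsTr (hTr s) g P ρ hP hdeg hρ hro hNB hrP)

end Pool.Agent.OneN74
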