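import Pool.Agent.W_7742n_h74.NMod
import Pool.Agent.W_7742n_h74.NOne
import Pool.Agent.W_7742n_h74.CFam
import Pool.Agent.W_7742x_h74.ZLog

/-! # Representations modulo ideals of unbounded norm -/

set_option autoImplicit false

noncomputable section

open Filter Topology

namespace Pool.Agent.Crit74

open NumberField Polynomial
open Pool.Agent.OneM74 Pool.Agent.GalSide Pool.Agent.OneP74 Pool.Agent.OneI74 Pool.Agent.OneN74
open Pool.Agent.Cheb Pool.Agent.GL74 Pool.Agent.GLForm74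

variable {K : Type} [Field K] [NumberField K] {n N : ℕ}

theorem dens_level (hN : 0 < N) : DensityZero {p : Nat.Primes | (p : ℕ) ∣ N} :=
  density_union UMod_empty (finite_level hN) (fun _ hp => Or.inr hp)

theorem logBound_mono {C : ℝ} {f g : Nat.Primes → ℝ} (h0 : ∀ p, 0 ≤ f p) (h1 : ∀ p, f p ≤ g p)
    (h : LogBound C g) : LogBound C f := by
  filter_upwards [h] with s hs
  have hle : ∀ p : Nat.Primes, f p * ((p : ℕ) : ℝ) ^ (-s) ≤ g p * ((p : ℕ) : ℝ) ^ (-s) := fun p =>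
    mul_le_mul_of_nonneg_right (h1 p) (Real.rpow_nonneg (Nat.cast_nonneg _) _)
  have hsum : Summable fun p : Nat.Primes => f p * ((p : ℕ) : ℝ) ^ (-s) :=
    Summable.of_nonneg_of_le (fun p => mul_nonneg (h0 p) (Real.rpow_nonneg (Nat.cast_nonneg _) _))
      hle hs.1
  exact ⟨hsum, (hsum.tsum_le_tsum hle hs.1).trans hs.2⟩

theorem cusp_logBound (hn : 2 ≤ n) (hN : 0 < N) {P : ℕ → ℂ[X]} (h : IsCuspidalSystem N P n)
    (ε : ℝ) (hε : 0 < ε) : LogBound (1 + ε)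
      (fun p : Nat.Primes => if (p : ℕ) ∣ N then 0 else ‖(P p).coeff (n - 1)‖ ^ 2) := by
  obtain ⟨C, hC⟩ := cusp_log hn hN h
  have hlog : Tendsto (fun s : ℝ => Real.log (1 / (s - 1))) (𝓝[>] 1) atTop := Chb_log
  have hlt : ∀ᶠ s : ℝ in 𝓝[>] 1, s < 2 :=
    (eventually_lt_nhds (by norm_num : (1 : ℝ) < 2)).filter_mono nhdsWithin_le_nhds
  filter_upwards [Chb_gt, hlt, hlog.eventually_ge_atTop (C / ε)] with s h1 h2 h3
  obtain ⟨h4, h5⟩ := hC s h1 h2.le
  refine ⟨h4, h5.trans ?_⟩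
  rw [div_le_iff₀ hε] at h3
  linarith

/-- The polynomials of a model are monic of degree `n` where they are equal to those of the system. -/
theorem model_monic {P : ℕ → ℂ[X]} {s₀ : K →+* ℂ} {Q : ℕ → (𝓞 K)[X]} {p : ℕ}
    (hP : (P p).Monic ∧ (P p).natDegree = n)
    (hQ : (Q p).map (s₀.comp (algebraMap (𝓞 K) K)) = P p) :
    (Q p).Monic ∧ (Q p).natDegree = n := by
  have hinj : Function.Injective (s₀.comp (algebraMap (𝓞 K) K)) :=
    s₀.injective.comp RingOfIntegers.coe_injective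
  constructor
  · refine Polynomial.monic_of_injective hinj ?_
    rw [hQ]
    exact hP.1
  · rw [← Polynomial.natDegree_map_eq_of_injective hinj, hQ, hP.2]

theorem norm_coe_neg (σ : K →+* ℂ) (x : 𝓞 K) : ‖σ ((-x : 𝓞 K) : K)‖ = ‖σ (x : K)‖ := by
  have h : ((-x : 𝓞 K) : K) = -(x : K) := rfl
  rw [h, map_neg, norm_neg]

theorem norm_coe_zero (σ : K →+* ℂ) : ‖σ ((0 : 𝓞 K) : K)‖ = 0 := by
  have h : ((0 : 𝓞 K) : K) = 0 := rfl
  rw [h, map_zero, norm_zero]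

theorem exists_b (hn : 2 ≤ n) (hN : 0 < N) {P : ℕ → ℂ[X]}
    (hc : IsCuspidalSystem N P n) {V : Set Nat.Primes} {s₀ : K →+* ℂ} {Q : ℕ → (𝓞 K)[X]} {M : ℝ}
    (hm : IsModel n P V s₀ Q M) :
    ∃ b : Nat.Primes → 𝓞 K, DensityZero {p : Nat.Primes | b p ≠ -(Q p).coeff (n - 1)} ∧
      (∀ σ : K →+* ℂ, ∀ ε : ℝ, 0 < ε → LogBound (M + ε) (fun p => ‖σ (b p : K)‖ ^ 2)) ∧
      ∀ ε : ℝ, 0 < ε → LogBound (1 + ε) (fun p => ‖s₀ (b p : K)‖ ^ 2) := by
  classical
  refine ⟨fun p => if s₀ ((Q p).coeff (n - 1) : K) = (P p).coeff (n - 1) ∧ ¬ (p : ℕ) ∣ N then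
    -(Q p).coeff (n - 1) else 0, ?_, ?_, ?_⟩
  · refine dens_union hm.trace (dens_level hN) ?_
    intro p hp
    by_contra hcon
    rw [Set.mem_union, not_or] at hcon
    have h1 : s₀ ((Q p).coeff (n - 1) : K) = (P p).coeff (n - 1) := not_not.1 hcon.1
    have h2 : ¬ (p : ℕ) ∣ N := hcon.2
    exact hp (if_pos ⟨h1, h2⟩)
  · intro σ ε hε
    refine logBound_mono (fun p => by positivity) (fun p => ?_) (hm.mean σ ε hε)
    dsimp only
    split_ifs with h
    · rw [norm_coe_neg]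
    · rw [norm_coe_zero, zero_pow two_ne_zero]
      positivity
  · intro ε hε
    refine logBound_mono (fun p => by positivity) (fun p => ?_) (cusp_logBound hn hN hc ε hε)
    dsimp only
    split_ifs with h h' h'
    · exact absurd h' h.2
    · rw [norm_coe_neg, h.1]
    · rw [norm_coe_zero, zero_pow two_ne_zero]
    · rw [norm_coe_zero, zero_pow two_ne_zero]
      positivity

theorem map_pow_trace {A B : Type} [CommRing A] [CommRing B] (φ : A →+* B)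
    (D : Matrix (Fin n) (Fin n) A) (k : ℕ) : ((D.map φ) ^ k).trace = φ ((D ^ k).trace) := by
  have e : (D.map φ) ^ k = (D ^ k).map φ := by
    rw [← RingHom.mapMatrix_apply, ← RingHom.mapMatrix_apply, map_pow]
  rw [e, map_trace']

theorem eq_of_unbounded {c : 𝓞 K} {D : ℕ}
    (h : ∀ B : ℕ, ∃ 𝔟 : Ideal (𝓞 K), B ≤ D * Ideal.absNorm 𝔟 ∧ c ∈ 𝔟) : c = 0 := by
  by_contra h0
  obtain ⟨m, hm⟩ := exists_nat_gt (∏ σ : K →+* ℂ, ‖σ (c : K)‖)
  obtain ⟨𝔟, h1, h2⟩ := h (D * m + 1)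
  have h3 := absNorm_le_prod 𝔟 h2 h0
  have h4 : Ideal.absNorm 𝔟 < m := by
    have : (Ideal.absNorm 𝔟 : ℝ) < m := h3.trans_lt hm
    exact_mod_cast this
  have h5 : D * Ideal.absNorm 𝔟 ≤ D * m := Nat.mul_le_mul_left _ h4.le
  omega

theorem family_motive (hn : 2 ≤ n) (hN : 0 < N) {P : ℕ → ℂ[X]}
    (hP : ∀ p : ℕ, p.Prime → ¬ p ∣ N → (P p).Monic ∧ (P p).natDegree = n)
    (hc : IsCuspidalSystem N P n) {F : Nat.Primes → GQ} (hF : IsFrobeniusChoice F)
    {V : Set Nat.Primes} (hV : ∀ p ∈ V, ¬ (p : ℕ) ∣ N) {s₀ : K →+* ℂ} {Q : ℕ → (𝓞 K)[X]} {M : ℝ}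
    (hm : IsModel n P V s₀ Q M)
    (h : ∀ B : ℕ, ∃ 𝔞 : Ideal (𝓞 K), B ≤ Ideal.absNorm 𝔞 ∧ HasMod n F Q V 𝔞) :
    HasMotiveK n F Q V := by
  classical
  have hn0 : 0 < n := by omega
  obtain ⟨b, hb, hRS, hRS0⟩ := exists_b hn hN hc hm
  let J : Type := {𝔞 : Ideal (𝓞 K) // HasMod n F Q V 𝔞}
  have hJ : ∀ j : J, ∃ (A : Type) (_ : CommRing A) (ι : 𝓞 K →+* A) (r : GQ →* GL (Fin n) A),
      RingHom.ker ι = j.1 ∧ Attached F Q V ι r := fun j => j.2
  choose A inst ι r hker hatt using hJ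
  have hF' := hF
  choose 𝔓 h𝔓 hp hFr using hF'
  obtain ⟨U, hU, β, hUo, hd, hR, B₀, hB⟩ :=
    family_c (frobeniusData 𝔓 h𝔓 hp F hFr) b hn0 s₀ M hRS hRS0 A ι
      (fun B => by
        obtain ⟨𝔞, h1, h2⟩ := h B
        exact ⟨⟨𝔞, h2⟩, by rw [hker]; exact h1⟩)
      (fun j => (Units.coeHom _).comp (r j)) (fun j => Pool.Agent.OneI74.isOpen_ker (r j) (hatt j).1)
      (fun j => by
        refine dens_union (hatt j).2.1 hb ?_
        intro p hp
        by_contra hcon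
        rw [Set.mem_union, not_or] at hcon
        have h1 : (r j (F p)).val.trace = ι j (-(Q p).coeff (n - 1)) := not_not.1 hcon.1
        have h2 : b p = -(Q p).coeff (n - 1) := not_not.1 hcon.2
        exact hp (h1.trans (by rw [h2])))
  have hfin : Finite (GQ ⧸ U) := Subgroup.quotient_finite_of_isOpen U hUo
  have hmp : 0 < Nat.card (GQ ⧸ U) := Nat.card_pos
  choose R hRt hRi using hR
  have hRm : ∀ σ x, R σ x ^ Nat.card (GQ ⧸ U) = 1 := by
    intro σ x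
    rw [← map_pow, pow_card_eq_one', map_one]
  let R' : (K →+* ℂ) → GQ →* GL (Fin n) ℂ := fun s =>
    ((R s).comp (QuotientGroup.mk' U)).toHomUnits
  have hR' : ∀ s g, (R' s g).val = R s (QuotientGroup.mk g) := fun s g => rfl
  have hU1 : ∀ s, ∀ g ∈ U, R' s g = 1 := by
    intro s g hg
    apply Units.ext
    rw [hR', (QuotientGroup.eq_one_iff g).2 hg, map_one]
    rfl
  obtain ⟨E, iE, iN, i, R₁, h1, h2, h3, s, h4⟩ := toE hn0 b hF R'
    (fun s => ⟨Subgroup.isOpen_mono (H₁ := U) (fun g hg => MonoidHom.mem_ker.2 (hU1 s g hg)) hUo,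
      fun W hW => by
        refine hRi s W fun g w hw => ?_
        obtain ⟨g, rfl⟩ := QuotientGroup.mk_surjective g
        exact hW g w hw⟩)
    (fun s => by
      refine dens_mono hd fun p hp hx => hp ?_
      rw [hR', hRt, hx]
      rfl)
  refine ⟨E, iE, iN, i, R₁, h1.2, h1.1, ?_, fun p hpV => ⟨?_, ?_⟩⟩
  · refine dens_union h3 hb ?_
    intro p hp
    by_contra hcon
    rw [Set.mem_union, not_or] at hcon
    have e1 : (R₁ (F p)).val.trace = i (b p : K) := not_not.1 hcon.1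
    have e2 : b p = -(Q p).coeff (n - 1) := not_not.1 hcon.2
    exact hp (e1.trans (by rw [e2]; rfl))
  · intro 𝔓' σ k1 k2 k3
    obtain ⟨𝔞, k4, k5⟩ := h B₀
    have k6 := (hB ⟨𝔞, k5⟩ (by rw [hker]; exact k4)).1 σ
      (congrArg Units.val (((hatt ⟨𝔞, k5⟩).2.2 p hpV).1 𝔓' σ k1 k2 k3))
    have k7 : R s (QuotientGroup.mk σ) = 1 := by
      refine Pool.Agent.DZ74.eq_one_of_trace hmp _ (hRm s _) ?_
      rw [hRt, k6]
      simp
    have k8 : σ ∈ (R' s).ker := MonoidHom.mem_ker.2 (Units.ext (by rw [hR', k7]; rfl))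
    rw [h2 s] at k8
    exact MonoidHom.mem_ker.1 k8
  · rw [← Polynomial.map_map, h4, Polynomial.map_map]
    obtain ⟨hQm, hQd⟩ := model_monic (hP p p.2 (hV p hpV)) (hm.eq p hpV)
    obtain ⟨D, hD⟩ := Pool.Agent.GalMaass.exists_matrix_charpoly (Q p) hQm n hQd
    have e1 : (Q p).map (s.comp (algebraMap (𝓞 K) K)) =
        (D.map (s.comp (algebraMap (𝓞 K) K))).charpoly := by
      rw [Matrix.charpoly_map, hD]
    rw [e1]
    refine Pool.Agent.DZ74.charpoly_eq_of_traces _ _ fun k _ _ => ?_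
    have e2 : (D ^ k).trace = β (QuotientGroup.mk (F p ^ k)) := by
      rw [← sub_eq_zero]
      refine eq_of_unbounded (D := (n ^ (2 * n ^ 2)) ^ Module.finrank ℚ K) fun B => ?_
      obtain ⟨𝔞, k4, k5⟩ := h (max B B₀)
      obtain ⟨𝔟, k6, k7⟩ := (hB ⟨𝔞, k5⟩ (by rw [hker]; exact (le_max_right _ _).trans k4)).2
      refine ⟨𝔟, ?_, k7 (F p ^ k) _ ?_⟩
      · refine le_trans ?_ k6
        rw [hker]
        exact (le_max_left _ _).trans k4
      · have k8 := ((hatt ⟨𝔞, k5⟩).2.2 p hpV).2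
        have k9 : (r ⟨𝔞, k5⟩ (F p)).val.charpoly = (D.map (ι ⟨𝔞, k5⟩)).charpoly := by
          rw [k8, Matrix.charpoly_map, hD]
        rw [← map_pow_trace, Pool.Agent.GalMaass.trace_pow_congr _ _ k9.symm k]
        show _ = (r ⟨𝔞, k5⟩ (F p ^ k)).val.trace
        rw [map_pow, Units.val_pow_eq_pow_val]
    have e3 : (R' s (F p)).val ^ k = (R' s (F p ^ k)).val := by
      rw [map_pow, Units.val_pow_eq_pow_val]
    rw [e3, hR', hRt, ← e2, map_pow_trace]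
    rfl

end Pool.Agent.Crit74
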