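import Pool.Agent.W_7742n_h74.NSta

/-! # Definitions for the statement: finitely many ideals; bounds for the roots -/

set_option autoImplicit false

noncomputable section

namespace Pool.Agent.Crit74

open NumberField Polynomial

variable {K : Type} [Field K] [NumberField K]

/-- There are finitely many ideals whose intersection has norm at least `B` such that for each of them
there is a representation attached to the polynomials `Q p` modulo the ideal. -/
def ModAbove (n : ℕ) (F : Nat.Primes → GQ) (Q : ℕ → (𝓞 K)[X]) (V : Set Nat.Primes) (B : ℝ) : Prop :=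
  ∃ (m : ℕ) (𝔞 : Fin m → Ideal (𝓞 K)), B ≤ (Ideal.absNorm (⨅ l, 𝔞 l) : ℝ) ∧
    ∀ l, HasMod n F Q V (𝔞 l)

/-- The roots of all conjugates of the polynomial `Q` have absolute value at most `y`. -/
def RootsLE (Q : (𝓞 K)[X]) (y : ℝ) : Prop :=
  ∀ s : K →+* ℂ, ∀ α ∈ (Q.map (s.comp (algebraMap (𝓞 K) K))).roots, ‖α‖ ≤ y

end Pool.Agent.Crit74
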