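import Pool.Agent.W_7742n_h74.NFamB
import Pool.Agent.W_7742n_h74.NSt2

/-! # The local forms -/

set_option autoImplicit false

noncomputable section

open Filter Topology

namespace Pool.Agent.Crit74

open NumberField Polynomial
open Pool.Agent.OneM74 Pool.Agent.GalSide Pool.Agent.OneP74 Pool.Agent.OneI74 Pool.Agent.OneN74
open Pool.Agent.Cheb Pool.Agent.GL74 Pool.Agent.GLForm74
open Pool.Agent.OneJ74 (YY)

variable {K : Type} [Field K] [NumberField K] {n N : ℕ}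

theorem modAbove_single {F : Nat.Primes → GQ} {Q : ℕ → (𝓞 K)[X]} {V : Set Nat.Primes} {B : ℝ}
    (h : ModAbove n F Q V B) : ∃ 𝔞 : Ideal (𝓞 K), B ≤ (Ideal.absNorm 𝔞 : ℝ) ∧
      HasMod n F Q V 𝔞 := by
  obtain ⟨m, 𝔞, h1, h2⟩ := h
  exact ⟨_, h1, prod_mod 𝔞 h2⟩

theorem modAbove_of_all {F : Nat.Primes → GQ} {Q : ℕ → (𝓞 K)[X]} {V V' : Set Nat.Primes}
    (hV : V' ⊆ V) (h : ∀ 𝔞 : Ideal (𝓞 K), 𝔞 ≠ ⊥ → HasMod n F Q V 𝔞) (B : ℝ) :
    ModAbove n F Q V' B := by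
  obtain ⟨m, hm⟩ := exists_nat_ge B
  obtain ⟨𝔞, h1, h2⟩ := exists_norm (K := K) m
  refine ⟨1, fun _ => 𝔞, ?_, fun _ => mod_mono hV (h 𝔞 h1)⟩
  rw [ciInf_const]
  exact hm.trans (by exact_mod_cast h2)

theorem IsModel.mono {P : ℕ → ℂ[X]} {V V' : Set Nat.Primes} {s₀ : K →+* ℂ} {Q : ℕ → (𝓞 K)[X]}
    {M : ℝ} (hm : IsModel n P V s₀ Q M) (hV : V' ⊆ V) : IsModel n P V' s₀ Q M :=
  ⟨hm.trace, fun p hp => hm.eq p (hV hp), hm.mean⟩

theorem combine {F : Nat.Primes → GQ} (hF : IsFrobeniusChoice F) {Q : ℕ → (𝓞 K)[X]}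
    {V : Set Nat.Primes} (h0 : HasMotiveK n F Q ∅) (h : ∀ p ∈ V, HasMotiveK n F Q {p}) :
    HasMotiveK n F Q V := by
  obtain ⟨E, iE, iN, i, R, hirr, ho, hd, -⟩ := h0
  refine ⟨E, iE, iN, i, R, hirr, ho, hd, fun p hp => ?_⟩
  obtain ⟨E', iE', iN', i', R', hirr', ho', hd', hV'⟩ := h p hp
  obtain ⟨hu, hc⟩ := hV' p rfl
  obtain ⟨hk, hs⟩ := same_charpoly_E (Fr := F) hF i' i ho' ho
    (fun p => ((-(Q p).coeff (n - 1) : 𝓞 K) : K)) hd' hd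
  refine ⟨unramified_of_ker hk.le hu, ?_⟩
  have h1 := hs (F p) ((Q p).map (algebraMap (𝓞 K) K)) (by rw [hc, Polynomial.map_map])
  rw [h1, Polynomial.map_map]

theorem logBound_le {C C' : ℝ} (hC : C ≤ C') {f : Nat.Primes → ℝ} (h : LogBound C f) :
    LogBound C' f := by
  filter_upwards [h, Chb_log.eventually_gt_atTop 0] with s hs hL
  exact ⟨hs.1, hs.2.trans (mul_le_mul_of_nonneg_right hC hL.le)⟩

/-- Unbounded norms. -/
theorem motive_of_unbounded (hn : 2 ≤ n) (hN : 0 < N) {P : ℕ → ℂ[X]}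
    (hP : ∀ p : ℕ, p.Prime → ¬ p ∣ N → (P p).Monic ∧ (P p).natDegree = n)
    (hc : IsCuspidalSystem N P n) {F : Nat.Primes → GQ} (hF : IsFrobeniusChoice F)
    {V : Set Nat.Primes} (hV : ∀ p ∈ V, ¬ (p : ℕ) ∣ N) {s₀ : K →+* ℂ} {Q : ℕ → (𝓞 K)[X]} {M : ℝ}
    (hm : IsModel n P V s₀ Q M)
    (h : ∀ B : ℝ, ModAbove n F Q ∅ B ∧ ∀ p ∈ V, ModAbove n F Q {p} B) :
    HasMotiveK n F Q V := by
  refine combine hF ?_ fun p hp => ?_
  · refine family_motive hn hN hP hc hF (V := ∅) (by simp) (hm.mono (Set.empty_subset V))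
      fun B => ?_
    obtain ⟨𝔞, h1, h2⟩ := modAbove_single (h B).1
    exact ⟨𝔞, by exact_mod_cast h1, h2⟩
  · refine family_motive hn hN hP hc hF (V := {p}) (fun q hq => by
      rw [Set.mem_singleton_iff.1 hq]
      exact hV p hp) (hm.mono (Set.singleton_subset_iff.2 hp)) fun B => ?_
    obtain ⟨𝔞, h1, h2⟩ := modAbove_single ((h B).2 p hp)
    exact ⟨𝔞, by exact_mod_cast h1, h2⟩

/-- One representation modulo one ideal, if the means are at most `1`. -/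
theorem one_lift (hn : 2 ≤ n) (hN : 0 < N) {P : ℕ → ℂ[X]}
    (hc : IsCuspidalSystem N P n) {F : Nat.Primes → GQ} (hF : IsFrobeniusChoice F)
    {V : Set Nat.Primes} {s₀ : K →+* ℂ} {Q : ℕ → (𝓞 K)[X]} {M : ℝ} (hM : M ≤ 1)
    (hm : IsModel n P V s₀ Q M) {A : Type} [CommRing A] (ι : 𝓞 K →+* A)
    (hι : YY n ^ Module.finrank ℚ K ≤ Ideal.absNorm (RingHom.ker ι))
    (r : GQ →* GL (Fin n) A) (hr : Attached F Q ∅ ι r) :
    ∃ (E : Type) (_ : Field E) (_ : NumberField E) (i : K →+* E) (R : GQ →* GL (Fin n) E),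
      IsAbsIrreducible R ∧ Attached F Q ∅ (i.comp (algebraMap (𝓞 K) K)) R ∧ r.ker ≤ R.ker ∧
      LiftsChE ι r i R := by
  obtain ⟨b, hb, hRS, -⟩ := exists_b hn hN hc hm
  obtain ⟨E, iE, iN, i, R, h1, h2, h3, h4⟩ := one_E (by omega : 0 < n) b
    (fun σ ε hε => logBound_le (by linarith) (hRS σ ε hε)) hF ι hι r hr.1 (by
      refine dens_union hr.2.1 hb ?_
      intro p hp
      by_contra hcon
      rw [Set.mem_union, not_or] at hcon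
      have h1 : (r (F p)).val.trace = ι (-(Q p).coeff (n - 1)) := not_not.1 hcon.1
      have h2 : b p = -(Q p).coeff (n - 1) := not_not.1 hcon.2
      exact hp (h1.trans (by rw [h2])))
  refine ⟨E, iE, iN, i, R, h1.2, ⟨h1.1, ?_, by simp⟩, h2, h4⟩
  refine dens_union h3 hb ?_
  intro p hp
  by_contra hcon
  rw [Set.mem_union, not_or] at hcon
  have e1 : (R (F p)).val.trace = i (b p : K) := not_not.1 hcon.1
  have e2 : b p = -(Q p).coeff (n - 1) := not_not.1 hcon.2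
  exact hp (e1.trans (by rw [e2]; rfl))

theorem YY_ineq (hn : 0 < n) {d : ℕ} (hd0 : d ≠ 0) {y X : ℝ} (hy : 1 ≤ y)
    (h : ((YY n : ℝ) * y ^ n) ^ d ≤ X) : ((n : ℝ) ^ (2 * n ^ 2 + 1) * (y ^ n + 1)) ^ d < X := by
  refine lt_of_lt_of_le (pow_lt_pow_left₀ ?_ (by positivity) hd0) h
  have hn1 : (1 : ℝ) ≤ n := by exact_mod_cast (by omega : 1 ≤ n)
  have hρn : 1 ≤ y ^ n := one_le_pow₀ hy
  have h4 : 2 * (n : ℝ) ^ (2 * n ^ 2 + 1) < (YY n : ℝ) := by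
    unfold Pool.Agent.OneJ74.YY
    push_cast
    rw [mul_pow]
    have h5 : (n : ℝ) ^ (2 * n ^ 2 + 1) ≤ (n : ℝ) ^ (3 * (n ^ 2 + 1)) :=
      pow_le_pow_right₀ hn1 (by nlinarith)
    have h6 : (2 : ℝ) < 2 ^ (3 * (n ^ 2 + 1)) := by
      calc (2 : ℝ) < 2 ^ 3 := by norm_num
        _ ≤ 2 ^ (3 * (n ^ 2 + 1)) := pow_le_pow_right₀ (by norm_num) (by nlinarith)
    have h7 : (0 : ℝ) < (n : ℝ) ^ (2 * n ^ 2 + 1) := by positivity
    calc 2 * (n : ℝ) ^ (2 * n ^ 2 + 1) < 2 ^ (3 * (n ^ 2 + 1)) * (n : ℝ) ^ (2 * n ^ 2 + 1) :=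
          mul_lt_mul_of_pos_right h6 h7
      _ ≤ 2 ^ (3 * (n ^ 2 + 1)) * (n : ℝ) ^ (3 * (n ^ 2 + 1)) :=
          mul_le_mul_of_nonneg_left h5 (by positivity)
  have h8 : (0 : ℝ) < (n : ℝ) ^ (2 * n ^ 2 + 1) := by positivity
  calc (n : ℝ) ^ (2 * n ^ 2 + 1) * (y ^ n + 1) ≤ (n : ℝ) ^ (2 * n ^ 2 + 1) * (2 * y ^ n) :=
        mul_le_mul_of_nonneg_left (by linarith) h8.le
    _ = (2 * (n : ℝ) ^ (2 * n ^ 2 + 1)) * y ^ n := by ring
    _ < (YY n : ℝ) * y ^ n := mul_lt_mul_of_pos_right h4 (by linarith)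

/-- Bounded norms, if the means are at most `1`. -/
theorem motive_of_bounded (hn : 2 ≤ n) (hN : 0 < N) {P : ℕ → ℂ[X]}
    (hP : ∀ p : ℕ, p.Prime → ¬ p ∣ N → (P p).Monic ∧ (P p).natDegree = n)
    (hc : IsCuspidalSystem N P n) {F : Nat.Primes → GQ} (hF : IsFrobeniusChoice F)
    {V : Set Nat.Primes} (hV : ∀ p ∈ V, ¬ (p : ℕ) ∣ N) {s₀ : K →+* ℂ} {Q : ℕ → (𝓞 K)[X]} {M : ℝ}
    (hM : M ≤ 1) (hm : IsModel n P V s₀ Q M)
    (h0 : ModAbove n F Q ∅ ((YY n : ℝ) ^ Module.finrank ℚ K))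
    (hl : ∀ p ∈ V, ∃ y : ℝ, 1 ≤ y ∧ RootsLE (Q p) y ∧
      ModAbove n F Q {p} (((YY n : ℝ) * y ^ n) ^ Module.finrank ℚ K)) :
    HasMotiveK n F Q V := by
  have hd0 : Module.finrank ℚ K ≠ 0 := (Module.finrank_pos (R := ℚ) (M := K)).ne'
  refine combine hF ?_ fun p hp => ?_
  · obtain ⟨𝔞, h1, A, iA, ι, r, h2, h3⟩ := modAbove_single h0
    obtain ⟨E, iE, iN, i, R, h4, h5, -, -⟩ := one_lift hn hN hc hF hM hm ι
      (by rw [h2]; exact_mod_cast h1) r h3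
    exact ⟨E, iE, iN, i, R, h4, h5⟩
  · obtain ⟨y, hy, hr, hma⟩ := hl p hp
    obtain ⟨𝔞, h1, A, iA, ι, r, h2, h3⟩ := modAbove_single hma
    have hy' : (1 : ℝ) ≤ y ^ n := one_le_pow₀ hy
    have hι : YY n ^ Module.finrank ℚ K ≤ Ideal.absNorm (RingHom.ker ι) := by
      have h4 : (YY n : ℝ) ^ Module.finrank ℚ K ≤ (Ideal.absNorm (RingHom.ker ι) : ℝ) := by
        rw [h2]
        refine le_trans (pow_le_pow_left₀ (Nat.cast_nonneg _) ?_ _) h1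
        exact le_mul_of_one_le_right (Nat.cast_nonneg _) hy'
      exact_mod_cast h4
    obtain ⟨E, iE, iN, i, R, h4, h5, h6, h7⟩ := one_lift hn hN hc hF hM hm ι hι r
      ⟨h3.1, h3.2.1, by simp⟩
    obtain ⟨hQm, hQd⟩ := model_monic (hP p p.2 (hV p hp)) (hm.eq p hp)
    refine ⟨E, iE, iN, i, R, h4, h5.1, h5.2.1, ?_⟩
    intro q hq
    obtain rfl := Set.mem_singleton_iff.1 hq
    refine ⟨unramified_of_ker h6 (h3.2.2 q rfl).1, ?_⟩
    have h8 := h7 (F q) (Q q) y hQm hQd hy (fun σ α hα => hr σ α (by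
      rwa [Polynomial.map_map] at hα)) (by
      rw [h2]
      exact YY_ineq (by omega) hd0 hy h1) (h3.2.2 q rfl).2
    rw [h8, Polynomial.map_map]

theorem exists_root_bound (Q : (𝓞 K)[X]) : ∃ y : ℝ, 1 ≤ y ∧ RootsLE Q y := by
  classical
  have hfin : (⋃ s : K →+* ℂ, (fun α : ℂ => ‖α‖) ''
      {α | α ∈ (Q.map (s.comp (algebraMap (𝓞 K) K))).roots}).Finite := by
    refine Set.finite_iUnion fun s => Set.Finite.image _ ?_
    refine (Multiset.toFinset (Q.map (s.comp (algebraMap (𝓞 K) K))).roots).finite_toSet.subset ?_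
    intro α hα
    exact Finset.mem_coe.2 (Multiset.mem_toFinset.2 hα)
  obtain ⟨y, hy⟩ := hfin.bddAbove
  refine ⟨max 1 y, le_max_left _ _, fun s α hα => le_trans ?_ (le_max_right _ _)⟩
  exact hy (Set.mem_iUnion.2 ⟨s, α, hα, rfl⟩)

end Pool.Agent.Crit74
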