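import Pool.Agent.W_7742n_h74.NLoc
import Pool.Agent.W_7742m_h74.VFin
import Pool.Agent.W_7742m_h74.VConj

/-! # Systems all of whose conjugates are cuspidal -/

set_option autoImplicit false

noncomputable section

open Filter Topology

namespace Pool.Agent.Crit74

open NumberField Polynomial
open Pool.Agent.OneM74 Pool.Agent.GalSide Pool.Agent.OneP74 Pool.Agent.OneI74 Pool.Agent.OneN74
open Pool.Agent.Cheb Pool.Agent.GL74 Pool.Agent.GLForm74

variable {K : Type} [Field K] [NumberField K] {n N : ℕ}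

theorem logBound_finite {g : Nat.Primes → ℝ} (S : Finset Nat.Primes) (hg : ∀ p, p ∉ S → g p = 0)
    (ε : ℝ) (hε : 0 < ε) : LogBound ε g := by
  have hgt : ∀ᶠ s : ℝ in 𝓝[>] 1, 1 < s := Chb_gt
  filter_upwards [hgt, Chb_log.eventually_ge_atTop ((∑ p ∈ S, |g p|) / ε)] with s hs hL
  have h0 : ∀ p, p ∉ S → g p * ((p : ℕ) : ℝ) ^ (-s) = 0 := fun p hp => by
    rw [hg p hp, zero_mul]
  refine ⟨summable_of_ne_finset_zero (fun p hp => h0 p hp), ?_⟩
  rw [tsum_eq_sum h0]
  rw [div_le_iff₀ hε] at hL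
  refine le_trans (Finset.sum_le_sum fun p _ => ?_) (hL.trans (le_of_eq (mul_comm _ _)))
  have h1 : ((p : ℕ) : ℝ) ^ (-s) ≤ 1 := by
    rw [Real.rpow_neg (Nat.cast_nonneg _)]
    refine inv_le_one_of_one_le₀ ?_
    exact Real.one_le_rpow (by exact_mod_cast p.2.one_le) (by linarith)
  calc g p * ((p : ℕ) : ℝ) ^ (-s) ≤ |g p| * ((p : ℕ) : ℝ) ^ (-s) :=
        mul_le_mul_of_nonneg_right (le_abs_self _) (Real.rpow_nonneg (Nat.cast_nonneg _) _)
    _ ≤ |g p| * 1 := mul_le_mul_of_nonneg_left h1 (abs_nonneg _)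
    _ = |g p| := mul_one _

theorem logBound_add {C D : ℝ} {f g : Nat.Primes → ℝ} (hf : LogBound C f) (hg : LogBound D g) :
    LogBound (C + D) (fun p => f p + g p) := by
  filter_upwards [hf, hg] with s h1 h2
  have e : (fun p : Nat.Primes => (f p + g p) * ((p : ℕ) : ℝ) ^ (-s)) =
      fun p : Nat.Primes => f p * ((p : ℕ) : ℝ) ^ (-s) + g p * ((p : ℕ) : ℝ) ^ (-s) := by
    funext p
    ring
  rw [e]
  refine ⟨h1.1.add h2.1, ?_⟩
  rw [h1.1.tsum_add h2.1, add_mul]
  exact add_le_add h1.2 h2.2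

theorem mean_of_cusp (hn : 2 ≤ n) (hN : 0 < N) {P : ℕ → ℂ[X]} (h : IsCuspidalSystem N P n) :
    MeanLE 1 fun p => ‖(P p).coeff (n - 1)‖ ^ 2 := by
  classical
  intro ε hε
  have h1 := cusp_logBound hn hN h (ε / 2) (by positivity)
  have h2 := logBound_finite (g := fun p : Nat.Primes =>
    if (p : ℕ) ∣ N then ‖(P p).coeff (n - 1)‖ ^ 2 else 0) (finite_level hN).toFinset
    (fun p hp => if_neg (fun h => hp ((Set.Finite.mem_toFinset _).2 h))) (ε / 2) (by positivity)
  have h3 := logBound_add h1 h2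
  have e1 : (fun p : Nat.Primes => (if (p : ℕ) ∣ N then (0 : ℝ) else ‖(P p).coeff (n - 1)‖ ^ 2) +
      (if (p : ℕ) ∣ N then ‖(P p).coeff (n - 1)‖ ^ 2 else 0)) =
      fun p : Nat.Primes => ‖(P p).coeff (n - 1)‖ ^ 2 := by
    funext p
    split_ifs <;> simp
  rw [e1] at h3
  have e2 : 1 + ε / 2 + ε / 2 = 1 + ε := by ring
  rw [e2] at h3
  exact h3

theorem cusp_all (Q : ℕ → (𝓞 K)[X])
    (hc : ∀ s : K →+* ℂ, IsCuspidalSystem N (fun p => (Q p).map (s.comp (algebraMap (𝓞 K) K))) n ∨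
      IsCuspidalSystem N (fun p => (Q p).map
        ((starRingEnd ℂ).comp (s.comp (algebraMap (𝓞 K) K)))) n) (s : K →+* ℂ) :
    IsCuspidalSystem N (fun p => (Q p).map (s.comp (algebraMap (𝓞 K) K))) n := by
  rcases hc s with h | h
  · exact h
  · have h1 := h.conj
    have h2 : (fun p => ((Q p).map
        ((starRingEnd ℂ).comp (s.comp (algebraMap (𝓞 K) K)))).map (starRingEnd ℂ)) =
        fun p => (Q p).map (s.comp (algebraMap (𝓞 K) K)) := by
      funext p
      rw [Polynomial.map_map]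
      congr 1
      ext x
      exact Complex.conj_conj _
    rwa [h2] at h1

/-- All conjugates are cuspidal: the means are at most `1` and the bounds for the roots. -/
theorem mean_of_all (hn : 2 ≤ n) (hN : 0 < N) (Q : ℕ → (𝓞 K)[X])
    (hQ : ∀ p : ℕ, p.Prime → ¬ p ∣ N → (Q p).Monic ∧ (Q p).natDegree = n)
    (hc : ∀ s : K →+* ℂ, IsCuspidalSystem N (fun p => (Q p).map (s.comp (algebraMap (𝓞 K) K))) n ∨
      IsCuspidalSystem N (fun p => (Q p).map
        ((starRingEnd ℂ).comp (s.comp (algebraMap (𝓞 K) K)))) n) :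
    (∀ s : K →+* ℂ, MeanLE 1 fun p => ‖s ((Q p).coeff (n - 1) : K)‖ ^ 2) ∧
      ∀ p : Nat.Primes, ¬ (p : ℕ) ∣ N → RootsLE (Q p) (Real.sqrt (p : ℕ)) := by
  have hc' := cusp_all Q hc
  refine ⟨fun s => ?_, ?_⟩
  · have h1 := mean_of_cusp hn hN (hc' s)
    have e : (fun p : Nat.Primes => ‖((Q p).map (s.comp (algebraMap (𝓞 K) K))).coeff (n - 1)‖ ^ 2) =
        fun p : Nat.Primes => ‖s ((Q p).coeff (n - 1) : K)‖ ^ 2 := by
      funext p
      rw [Polynomial.coeff_map]
      rfl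
    rw [e] at h1
    exact h1
  · obtain ⟨π, hlev, hcusp, hπ⟩ := Pool.Agent.Art74.exists_system hn hN Q hQ (fun σ => by
        have h1 := hc' σ
        have e : (fun p => ((Q p).map (algebraMap (𝓞 K) K)).map σ) =
            fun p => (Q p).map (σ.comp (algebraMap (𝓞 K) K)) := by
          funext p
          rw [Polynomial.map_map]
        rw [e]
        exact h1)
    intro p hp s α hα
    subst hlev
    rw [← Polynomial.map_map, ← hπ p p.2 hp] at hα
    rw [Real.sqrt_eq_rpow]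
    exact Pool.Agent.DZ74.js_bound hn (hcusp s) ⟨p.2, hp⟩ hα

end Pool.Agent.Crit74
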