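import Pool.Agent.W_7742n_h74.NExi
import Pool.Agent.W_7742n_h74.NRS

/-! # The main statements -/

set_option autoImplicit false

noncomputable section

namespace Pool.Agent.Crit74

open NumberField Polynomial
open Pool.Agent.OneM74 Pool.Agent.GLForm74
open Pool.Agent.OneJ74 (YY)

variable {K : Type} [Field K] [NumberField K] {n N : ℕ}

theorem YY_cast : ((2 : ℝ) * n) ^ (3 * (n ^ 2 + 1)) = (YY n : ℝ) := by
  unfold Pool.Agent.OneJ74.YY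
  push_cast
  rfl

/-- The equivalence for all means. -/
theorem tfae (hn : 2 ≤ n) (hN : 0 < N) {P : ℕ → ℂ[X]}
    (hP : ∀ p : ℕ, p.Prime → ¬ p ∣ N → (P p).Monic ∧ (P p).natDegree = n)
    (hc : IsCuspidalSystem N P n) {F : Nat.Primes → GQ} (hF : IsFrobeniusChoice F)
    {V : Set Nat.Primes} (hV : ∀ p ∈ V, ¬ (p : ℕ) ∣ N) {s₀ : K →+* ℂ} {Q : ℕ → (𝓞 K)[X]} {M : ℝ}
    (hm : IsModel n P V s₀ Q M) :
    [HasMotive n F P V ⊥,
      ∀ 𝔞 : Ideal (𝓞 K), 𝔞 ≠ ⊥ → HasMod n F Q V 𝔞,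
      ∀ B : ℝ, ModAbove n F Q ∅ B ∧ ∀ p ∈ V, ModAbove n F Q {p} B].TFAE := by
  tfae_have 1 → 2 := fun h => mod_of_K (K_of_motive hm h)
  tfae_have 2 → 3 := fun h B => ⟨modAbove_of_all (Set.empty_subset V) h B, fun p hp =>
    modAbove_of_all (Set.singleton_subset_iff.2 hp) h B⟩
  tfae_have 3 → 1 := fun h => motive_of_K hm (motive_of_unbounded hn hN hP hc hF hV hm h)
  tfae_finish

/-- The equivalence for means at most `1`. -/
theorem iff_one (hn : 2 ≤ n) (hN : 0 < N) {P : ℕ → ℂ[X]}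
    (hP : ∀ p : ℕ, p.Prime → ¬ p ∣ N → (P p).Monic ∧ (P p).natDegree = n)
    (hc : IsCuspidalSystem N P n) {F : Nat.Primes → GQ} (hF : IsFrobeniusChoice F)
    {V : Set Nat.Primes} (hV : ∀ p ∈ V, ¬ (p : ℕ) ∣ N) {s₀ : K →+* ℂ} {Q : ℕ → (𝓞 K)[X]} {M : ℝ}
    (hM : M ≤ 1) (hm : IsModel n P V s₀ Q M) :
    HasMotive n F P V ⊥ ↔
      ModAbove n F Q ∅ ((((2 : ℝ) * n) ^ (3 * (n ^ 2 + 1))) ^ Module.finrank ℚ K) ∧
      ∀ p ∈ V, ∃ y : ℝ, 1 ≤ y ∧ RootsLE (Q p) y ∧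
        ModAbove n F Q {p} ((((2 : ℝ) * n) ^ (3 * (n ^ 2 + 1)) * y ^ n) ^ Module.finrank ℚ K) := by
  rw [YY_cast]
  constructor
  · intro h
    have h1 := mod_of_K (K_of_motive hm h)
    refine ⟨modAbove_of_all (Set.empty_subset V) h1 _, fun p hp => ?_⟩
    obtain ⟨y, hy, hr⟩ := exists_root_bound (Q p)
    exact ⟨y, hy, hr, modAbove_of_all (Set.singleton_subset_iff.2 hp) h1 _⟩
  · rintro ⟨h0, hl⟩
    exact motive_of_K hm (motive_of_bounded hn hN hP hc hF hV hM hm h0 hl)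

/-- One representation modulo one ideal, for means at most `1`. -/
theorem one_motive (hn : 2 ≤ n) (hN : 0 < N) {P : ℕ → ℂ[X]}
    (hc : IsCuspidalSystem N P n) {F : Nat.Primes → GQ} (hF : IsFrobeniusChoice F)
    {V : Set Nat.Primes} {s₀ : K →+* ℂ} {Q : ℕ → (𝓞 K)[X]} {M : ℝ} (hM : M ≤ 1)
    (hm : IsModel n P V s₀ Q M) {A : Type} [CommRing A] (ι : 𝓞 K →+* A)
    (hι : (((2 : ℝ) * n) ^ (3 * (n ^ 2 + 1))) ^ Module.finrank ℚ K ≤
      (Ideal.absNorm (RingHom.ker ι) : ℝ))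
    (r : GQ →* GL (Fin n) A) (hr : Attached F Q ∅ ι r) :
    HasMotive n F P ∅ r.ker := by
  rw [YY_cast] at hι
  obtain ⟨E, iE, iN, i, R, h1, h2, h3, -⟩ := one_lift hn hN hc hF hM hm ι
    (by exact_mod_cast hι) r hr
  obtain ⟨τ, hτ⟩ := UUni_ext i s₀
  exact ⟨E, iE, iN, τ, R, h1, h3, attached_of_K hm hτ (Set.empty_subset V) h2⟩

end Pool.Agent.Crit74
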