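import Pool.Agent.W_7742n_h74.NTra
import Pool.Agent.W_7742m_h74.UMod

/-! # Reductions of a representation over a number field; products of representations -/

set_option autoImplicit false

noncomputable section

namespace Pool.Agent.Crit74

open NumberField Polynomial
open Pool.Agent.OneM74 Pool.Agent.GalSide Pool.Agent.OneP74

variable {K : Type} [Field K] [NumberField K] {n : ℕ}

theorem mod_of_K {F : Nat.Primes → GQ} {Q : ℕ → (𝓞 K)[X]} {V : Set Nat.Primes}
    (h : HasMotiveK n F Q V) (𝔞 : Ideal (𝓞 K)) (h𝔞 : 𝔞 ≠ ⊥) : HasMod n F Q V 𝔞 := by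
  obtain ⟨E, iE, iN, i, R, hirr, ho, hd, hV⟩ := h
  obtain ⟨A, iA, ι, r, hk, hker, htr, hch⟩ := exists_mod_ch i R ho 𝔞 h𝔞
  refine ⟨A, iA, ι, r, hk, Subgroup.isOpen_mono hker ho, ?_, fun p hp => ⟨?_, ?_⟩⟩
  · refine dens_mono hd fun p hp hx => hp (htr _ _ hx)
  · exact unramified_of_ker hker (hV p hp).1
  · refine hch _ _ ?_
    rw [(hV p hp).2, Polynomial.map_map]

theorem dens_iUnion {J : Type} [Finite J] (A : J → Set Nat.Primes)
    (h : ∀ j, DensityZero (A j)) : DensityZero (⋃ j, A j) := UMod_union A h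

theorem prod_mod {F : Nat.Primes → GQ} {Q : ℕ → (𝓞 K)[X]} {V : Set Nat.Primes}
    {m : ℕ} (𝔞 : Fin m → Ideal (𝓞 K)) (h : ∀ l, HasMod n F Q V (𝔞 l)) :
    HasMod n F Q V (⨅ l, 𝔞 l) := by
  classical
  choose A inst ι r hker hopen hcong hat using h
  obtain ⟨r', hr'⟩ : ∃ r' : GQ →* GL (Fin n) (∀ l, A l),
      ∀ g l, ((Pi.evalRingHom A l).mapMatrix (r' g).val) = (r l g).val := by
    let r₁ : GQ →* Matrix (Fin n) (Fin n) (∀ l, A l) :=
      { toFun := fun g => Matrix.of fun a b l => (r l g).val a b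
        map_one' := by
          ext a b l
          show (r l 1).val a b = (1 : Matrix (Fin n) (Fin n) (∀ l, A l)) a b l
          rw [map_one, Units.val_one, Matrix.one_apply, Matrix.one_apply]
          split_ifs <;> rfl
        map_mul' := fun g h => by
          ext a b l
          rw [Matrix.mul_apply, Finset.sum_apply]
          show (r l (g * h)).val a b = _
          rw [map_mul, Units.val_mul, Matrix.mul_apply]
          rfl }
    exact ⟨MonoidHom.toHomUnits r₁, fun g l => rfl⟩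
  have hone : ∀ g, (∀ l, r l g = 1) → r' g = 1 := by
    intro g hg
    apply Units.ext
    ext a b l
    have h1 : (r' g).val a b l = ((Pi.evalRingHom A l).mapMatrix (r' g).val) a b := rfl
    rw [h1, hr', hg l, Units.val_one, Units.val_one, Matrix.one_apply, Matrix.one_apply]
    split_ifs <;> rfl
  refine ⟨∀ l, A l, inferInstance, RingHom.pi ι, r', ?_, ?_, ?_, ?_⟩
  · ext x
    rw [RingHom.mem_ker, Ideal.mem_iInf]
    constructor
    · intro hx l
      rw [← hker l, RingHom.mem_ker]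
      exact congrFun hx l
    · intro hx
      funext l
      have h1 := hx l
      rw [← hker l, RingHom.mem_ker] at h1
      exact h1
  · have h1 : IsOpen (⋂ l, ((r l).ker : Set GQ)) := isOpen_iInter_of_finite hopen
    have h2 : IsOpen ((⨅ l, (r l).ker : Subgroup GQ) : Set GQ) := by
      rw [Subgroup.coe_iInf]
      exact h1
    exact Subgroup.isOpen_mono (H₁ := ⨅ l, (r l).ker) (fun g hg => by
      rw [MonoidHom.mem_ker]
      apply hone
      intro l
      exact MonoidHom.mem_ker.1 ((Subgroup.mem_iInf.1 hg) l)) h2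
  · refine dens_mono (dens_iUnion _ hcong) ?_
    intro p hp
    by_contra hcon
    rw [Set.mem_iUnion, not_exists] at hcon
    apply hp
    funext l
    have h1 : (r l (F p)).val.trace = ι l (-(Q p).coeff (n - 1)) := not_not.1 (hcon l)
    have h3 := UMod_trace (Pi.evalRingHom A l) (r' (F p)).val
    rw [hr', h1] at h3
    exact h3.symm
  · intro p hp
    refine ⟨fun 𝔓 σ h1 h2 h3 => hone _ fun l => (hat l p hp).1 𝔓 σ h1 h2 h3, ?_⟩
    ext k l
    have h3 : ((Pi.evalRingHom A l).mapMatrix (r' (F p)).val).charpoly =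
        (r' (F p)).val.charpoly.map (Pi.evalRingHom A l) := Matrix.charpoly_map _ _
    rw [hr', (hat l p hp).2] at h3
    have h4 := congrArg (fun P => Polynomial.coeff P k) h3
    simp only [Polynomial.coeff_map] at h4
    rw [Polynomial.coeff_map]
    exact h4.symm

theorem mod_mono {F : Nat.Primes → GQ} {Q : ℕ → (𝓞 K)[X]} {V V' : Set Nat.Primes}
    (hV : V' ⊆ V) {𝔞 : Ideal (𝓞 K)} (h : HasMod n F Q V 𝔞) : HasMod n F Q V' 𝔞 := by
  obtain ⟨A, iA, ι, r, h1, h2, h3, h4⟩ := h
  exact ⟨A, iA, ι, r, h1, h2, h3, fun p hp => h4 p (hV hp)⟩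

theorem exists_norm (B : ℕ) :
    ∃ 𝔞 : Ideal (𝓞 K), 𝔞 ≠ ⊥ ∧ B ≤ Ideal.absNorm 𝔞 := by
  refine ⟨Ideal.span {((B + 1 : ℕ) : 𝓞 K)}, ?_, ?_⟩
  · rw [Ne, Ideal.span_singleton_eq_bot, Nat.cast_eq_zero]
    omega
  · rw [Ideal.absNorm_span_natCast]
    refine le_trans ?_ (Nat.pow_le_pow_left (Nat.le_succ B) _)
    exact Nat.le_self_pow (Module.finrank_pos (R := ℤ) (M := 𝓞 K)).ne' B

end Pool.Agent.Crit74
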