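import Pool.Agent.W_7742u_h74.UStA

/-! # Definitions: representations modulo ideals, models -/

set_option autoImplicit false

noncomputable section

namespace Pool.Agent.Crit74

open NumberField Polynomial Filter Topology

variable {K : Type} [Field K] [NumberField K]

/-- There is a representation over a ring which contains `𝓞 K ⧸ 𝔞`, attached to the polynomials `Q p`
modulo the ideal `𝔞`. -/
def HasMod (n : ℕ) (F : Nat.Primes → GQ) (Q : ℕ → (𝓞 K)[X]) (V : Set Nat.Primes)
    (𝔞 : Ideal (𝓞 K)) : Prop :=
  ∃ (A : Type) (_ : CommRing A) (ι : 𝓞 K →+* A) (r : GQ →* GL (Fin n) A),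
    RingHom.ker ι = 𝔞 ∧ Attached F Q V ι r

/-- The polynomials `Q p` over `𝓞 K`, where `K` is embedded in `ℂ` by `s₀`, represent the polynomials
`P p`: their traces (up to the sign the coefficients of degree `n - 1`) are equal for the primes `p`
outside a set of density zero, and `Q p = P p` for `p ∈ V`; and for all embeddings `s` of `K` the absolute
values of the conjugates of the traces have mean square at most `M`. -/
structure IsModel (n : ℕ) (P : ℕ → ℂ[X]) (V : Set Nat.Primes) (s₀ : K →+* ℂ) (Q : ℕ → (𝓞 K)[X])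
    (M : ℝ) : Prop where
  trace : DensityZero {p : Nat.Primes | s₀ ((Q p).coeff (n - 1) : K) ≠ (P p).coeff (n - 1)}
  eq : ∀ p ∈ V, (Q p).map (s₀.comp (algebraMap (𝓞 K) K)) = P p
  mean : ∀ s : K →+* ℂ, MeanLE M fun p => ‖s ((Q p).coeff (n - 1) : K)‖ ^ 2

end Pool.Agent.Crit74
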