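import Pool.Agent.W_7742n_h74.NSta
import Pool.Agent.W_7742m_h74.UUni
import Pool.Agent.W_7742m_h74.MSta

/-! # Translations: representations over number fields which contain `K`, compositum -/

set_option autoImplicit false

noncomputable section

namespace Pool.Agent.Crit74

open NumberField Polynomial
open Pool.Agent.OneM74 Pool.Agent.GalSide Pool.Agent.OneP74

variable {K : Type} [Field K] [NumberField K] {n : ℕ}

/-- There is an absolutely irreducible representation over a number field `E` which contains `K`,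
attached to the polynomials `Q p` over `𝓞 K`. -/
def HasMotiveK (n : ℕ) (F : Nat.Primes → GQ) (Q : ℕ → (𝓞 K)[X]) (V : Set Nat.Primes) : Prop :=
  ∃ (E : Type) (_ : Field E) (_ : NumberField E) (i : K →+* E) (R : GQ →* GL (Fin n) E),
    IsAbsIrreducible R ∧ Attached F Q V (i.comp (algebraMap (𝓞 K) K)) R

theorem exists_compositum {E : Type} [Field E] [NumberField E] (i₀ : E →+* ℂ) (s₀ : K →+* ℂ) :
    ∃ (E' : Type) (_ : Field E') (_ : NumberField E') (j : E →+* E') (k : K →+* E')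
      (t : E' →+* ℂ), t.comp j = i₀ ∧ t.comp k = s₀ := by
  let f : E →ₐ[ℚ] ℂ := i₀.toRatAlgHom
  let g : K →ₐ[ℚ] ℂ := s₀.toRatAlgHom
  let L₁ : IntermediateField ℚ ℂ := f.fieldRange
  let L₂ : IntermediateField ℚ ℂ := g.fieldRange
  have h1 : FiniteDimensional ℚ L₁ :=
    LinearEquiv.finiteDimensional (AlgEquiv.ofInjectiveField f).toLinearEquiv
  have h2 : FiniteDimensional ℚ L₂ :=
    LinearEquiv.finiteDimensional (AlgEquiv.ofInjectiveField g).toLinearEquiv
  have h3 : FiniteDimensional ℚ (L₁ ⊔ L₂ : IntermediateField ℚ ℂ) :=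
    IntermediateField.finiteDimensional_sup L₁ L₂
  have h4 : NumberField (L₁ ⊔ L₂ : IntermediateField ℚ ℂ) :=
    { to_charZero := inferInstance
      to_finiteDimensional := h3 }
  have hL1 : ∀ x : E, i₀ x ∈ (L₁ ⊔ L₂ : IntermediateField ℚ ℂ) := fun x =>
    (le_sup_left : L₁ ≤ L₁ ⊔ L₂) ⟨x, rfl⟩
  have hL2 : ∀ x : K, s₀ x ∈ (L₁ ⊔ L₂ : IntermediateField ℚ ℂ) := fun x =>
    (le_sup_right : L₂ ≤ L₁ ⊔ L₂) ⟨x, rfl⟩
  let j : E →+* (L₁ ⊔ L₂ : IntermediateField ℚ ℂ) :=
    i₀.codRestrict (L₁ ⊔ L₂ : IntermediateField ℚ ℂ).toSubfield hL1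
  let k : K →+* (L₁ ⊔ L₂ : IntermediateField ℚ ℂ) :=
    s₀.codRestrict (L₁ ⊔ L₂ : IntermediateField ℚ ℂ).toSubfield hL2
  exact ⟨(L₁ ⊔ L₂ : IntermediateField ℚ ℂ), inferInstance, h4, j, k,
    (L₁ ⊔ L₂ : IntermediateField ℚ ℂ).toSubfield.subtype, rfl, rfl⟩

theorem dens_mono {X Y : Set Nat.Primes} (hX : DensityZero X) (h : Y ⊆ X) : DensityZero Y :=
  density_union hX Set.finite_empty (fun _ hp => Or.inl (h hp))

theorem dens_union {X Y Z : Set Nat.Primes} (hX : DensityZero X) (hY : DensityZero Y)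
    (h : Z ⊆ X ∪ Y) : DensityZero Z :=
  density_union' hX hY h

theorem unramified_of_ker {H H' : Type} [Group H] [Group H'] {r : GQ →* H} {r' : GQ →* H'}
    (hk : r.ker ≤ r'.ker) {p : Nat.Primes} (h : Unramified r p) : Unramified r' p :=
  fun 𝔓 σ h1 h2 h3 => MonoidHom.mem_ker.1 (hk (MonoidHom.mem_ker.2 (h 𝔓 σ h1 h2 h3)))

theorem map_trace' {E F : Type} [CommRing E] [CommRing F] (τ : E →+* F)
    (M : Matrix (Fin n) (Fin n) E) : (M.map τ).trace = τ M.trace := by
  rw [Matrix.trace, Matrix.trace, map_sum]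
  rfl

theorem GLmap_val {E F : Type} [CommRing E] [CommRing F] (τ : E →+* F) (R : GQ →* GL (Fin n) E)
    (g : GQ) : (((Matrix.GeneralLinearGroup.map τ).comp R) g).val = (R g).val.map τ := rfl

theorem GLmap_ker {E F : Type} [CommRing E] [CommRing F] (τ : E →+* F) (hτ : Function.Injective τ)
    (R : GQ →* GL (Fin n) E) : ((Matrix.GeneralLinearGroup.map τ).comp R).ker = R.ker := by
  ext g
  rw [MonoidHom.mem_ker, MonoidHom.mem_ker]
  constructor
  · intro h
    apply Units.ext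
    refine Matrix.map_injective hτ ?_
    change (R g).val.map τ = (1 : Matrix (Fin n) (Fin n) E).map τ
    rw [← GLmap_val, h, Matrix.map_one τ (map_zero τ) (map_one τ)]
    rfl
  · intro h
    apply Units.ext
    rw [GLmap_val, h, Units.val_one, Matrix.map_one τ (map_zero τ) (map_one τ)]
    rfl

theorem attached_of_K {F : Nat.Primes → GQ} {P : ℕ → ℂ[X]} {V : Set Nat.Primes} {s₀ : K →+* ℂ}
    {Q : ℕ → (𝓞 K)[X]} {M : ℝ} (hm : IsModel n P V s₀ Q M) {E : Type} [Field E] [NumberField E]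
    {i : K →+* E} {τ : E →+* ℂ} (hτ : τ.comp i = s₀) {R : GQ →* GL (Fin n) E} {W : Set Nat.Primes}
    (hW : W ⊆ V) (h : Attached F Q W (i.comp (algebraMap (𝓞 K) K)) R) :
    Attached F P W (RingHom.id ℂ) ((Matrix.GeneralLinearGroup.map τ).comp R) := by
  obtain ⟨ho, hd, hV⟩ := h
  refine ⟨?_, ?_, fun p hp => ⟨?_, ?_⟩⟩
  · rw [GLmap_ker τ τ.injective]
    exact ho
  · refine dens_union hd hm.trace ?_
    intro p hp
    by_contra hcon
    rw [Set.mem_union, not_or] at hcon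
    have e1 : (R (F p)).val.trace = (i.comp (algebraMap (𝓞 K) K)) (-(Q p).coeff (n - 1)) :=
      not_not.1 hcon.1
    have e2 : s₀ ((Q p).coeff (n - 1) : K) = (P p).coeff (n - 1) := not_not.1 hcon.2
    apply hp
    rw [GLmap_val, map_trace', e1, RingHom.id_apply, ← e2, ← hτ, map_neg, map_neg]
    rfl
  · exact unramified_of_ker (GLmap_ker τ τ.injective R).ge (hV p hp).1
  · rw [GLmap_val, Matrix.charpoly_map, (hV p hp).2, Polynomial.map_map, ← hm.eq p (hW hp),
      Polynomial.map_map, ← hτ]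
    rfl

theorem motive_of_K {F : Nat.Primes → GQ} {P : ℕ → ℂ[X]} {V : Set Nat.Primes} {s₀ : K →+* ℂ}
    {Q : ℕ → (𝓞 K)[X]} {M : ℝ} (hm : IsModel n P V s₀ Q M) (h : HasMotiveK n F Q V) :
    HasMotive n F P V ⊥ := by
  obtain ⟨E, iE, iN, i, R, hirr, h1⟩ := h
  obtain ⟨τ, hτ⟩ := UUni_ext i s₀
  exact ⟨E, iE, iN, τ, R, hirr, bot_le, attached_of_K hm hτ subset_rfl h1⟩

theorem K_of_motive {F : Nat.Primes → GQ} {P : ℕ → ℂ[X]} {V : Set Nat.Primes} {s₀ : K →+* ℂ}
    {Q : ℕ → (𝓞 K)[X]} {M : ℝ} (hm : IsModel n P V s₀ Q M) (h : HasMotive n F P V ⊥) :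
    HasMotiveK n F Q V := by
  obtain ⟨E, iE, iN, i₀, R, hirr, -, ho, hd, hV⟩ := h
  obtain ⟨E', iE', iN', j, k, t, htj, htk⟩ := exists_compositum i₀ s₀
  refine ⟨E', iE', iN', k, (Matrix.GeneralLinearGroup.map j).comp R, ?_, ?_, ?_,
    fun p hp => ⟨?_, ?_⟩⟩
  · intro τ W hW
    refine hirr (τ.comp j) W fun g w hw => ?_
    have h1 := hW g w hw
    rw [GLmap_val, Matrix.map_map] at h1
    exact h1
  · rw [GLmap_ker j j.injective]
    rwa [GLmap_ker i₀ i₀.injective] at ho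
  · refine dens_union hd hm.trace ?_
    intro p hp
    by_contra hcon
    rw [Set.mem_union, not_or] at hcon
    have e1 : (((Matrix.GeneralLinearGroup.map i₀).comp R) (F p)).val.trace =
      (RingHom.id ℂ) (-(P p).coeff (n - 1)) := not_not.1 hcon.1
    have e2 : s₀ ((Q p).coeff (n - 1) : K) = (P p).coeff (n - 1) := not_not.1 hcon.2
    apply hp
    rw [GLmap_val, map_trace'] at e1 ⊢
    apply t.injective
    have e3 : t (j (R (F p)).val.trace) = i₀ (R (F p)).val.trace := RingHom.congr_fun htj _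
    have e4 : t ((k.comp (algebraMap (𝓞 K) K)) (-(Q p).coeff (n - 1))) =
        s₀ (-((Q p).coeff (n - 1) : K)) := by
      rw [← htk, map_neg, map_neg, map_neg]
      rfl
    rw [e3, e1, e4, RingHom.id_apply, map_neg, e2]
  · refine unramified_of_ker ?_ (hV p hp).1
    rw [GLmap_ker j j.injective, GLmap_ker i₀ i₀.injective]
  · have h1 := (hV p hp).2
    rw [GLmap_val, Matrix.charpoly_map, Polynomial.map_id] at h1
    apply Polynomial.map_injective t t.injective
    rw [GLmap_val, Matrix.charpoly_map, Polynomial.map_map, Polynomial.map_map, htj, h1,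
      ← hm.eq p hp, ← htk]
    rfl

end Pool.Agent.Crit74
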